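import Pool.Agent.Lib.MP_a785f2_an.HS.AreaA1

open MeasureTheory Metric Set Filter Topology
open scoped ContDiff RealInnerProductSpace ENNReal

namespace Pool.Agent.Lib.MP_a785f2_an.HS

variable {n m : ℕ}

theorem one_of_pow {μ : Measure (D n)} [IsFiniteMeasure μ] {f : ℕ → D n → ℝ≥0∞} {p : ℕ}
    (h : Tendsto (fun k => ∫⁻ x, f k x ^ (p + 1) ∂μ) atTop (𝓝 0)) :
    Tendsto (fun k => ∫⁻ x, f k x ∂μ) atTop (𝓝 0) := by
  refine ENNReal.tendsto_nhds_zero.2 fun ε hε => ?_
  have h2 : ε / 2 ≠ 0 := (ENNReal.half_pos hε.ne').ne'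
  obtain ⟨δ, d0, d1⟩ := ENNReal.exists_nnreal_pos_mul_lt (measure_ne_top μ univ) h2
  have d2 : ((δ : ℝ≥0∞) ^ p)⁻¹ ≠ ⊤ := by simp [d0.ne']
  have h3 := ENNReal.Tendsto.const_mul (a := ((δ : ℝ≥0∞) ^ p)⁻¹) h (.inr d2)
  rw [mul_zero] at h3
  filter_upwards [ENNReal.tendsto_nhds_zero.1 h3 _ (pos_iff_ne_zero.2 h2)] with k hk
  calc ∫⁻ x, f k x ∂μ ≤ ∫⁻ x, δ + ((δ : ℝ≥0∞) ^ p)⁻¹ * f k x ^ (p + 1) ∂μ := by
        refine lintegral_mono fun x => ?_
        rcases le_total (f k x) δ with c | c
        · exact c.trans le_self_add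
        · refine le_trans ?_ le_add_self
          have d3 : ((δ : ℝ≥0∞) ^ p)⁻¹ * (δ : ℝ≥0∞) ^ p = 1 :=
            ENNReal.inv_mul_cancel (by simp [d0.ne']) (by simp)
          calc f k x = ((δ : ℝ≥0∞) ^ p)⁻¹ * ((δ : ℝ≥0∞) ^ p * f k x) := by
                rw [← mul_assoc, d3, one_mul]
            _ ≤ _ := by rw [pow_succ]; gcongr
    _ ≤ ε / 2 + ε / 2 := by
        rw [lintegral_add_left measurable_const, lintegral_const, lintegral_const_mul' _ _ d2]
        exact add_le_add d1.le hk
    _ = ε := ENNReal.add_halves ε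

theorem int_of_lim {A : Type} [NormedAddCommGroup A] {μ : Measure (D n)} {f : ℕ → D n → A}
    {g : D n → A} (hf : ∀ k, Integrable (f k) μ) (hg : StronglyMeasurable g)
    (h : Tendsto (fun k => ∫⁻ x, ‖f k x - g x‖ₑ ∂μ) atTop (𝓝 0)) : Integrable g μ := by
  obtain ⟨k, hk⟩ := (h.eventually (gt_mem_nhds ENNReal.zero_lt_top)).exists
  have : Integrable (fun x => f k x - g x) μ := ⟨(hf k).1.sub hg.aestronglyMeasurable, hk⟩
  simpa using (hf k).sub' this

theorem lim_smul {A : Type} [NormedAddCommGroup A] [NormedSpace ℝ A] {μ : Measure (D n)}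
    {f : ℕ → D n → A} {g : D n → A} (hf : ∀ k, Integrable (f k) μ) (hg : StronglyMeasurable g)
    (h : Tendsto (fun k => ∫⁻ x, ‖f k x - g x‖ₑ ∂μ) atTop (𝓝 0)) {c : D n → ℝ}
    (hc : Continuous c) (hs : HasCompactSupport c) :
    Tendsto (fun k => ∫ x, c x • f k x ∂μ) atTop (𝓝 (∫ x, c x • g x ∂μ)) := by
  obtain ⟨C, hC⟩ := hc.bounded_above_of_compact_support hs
  refine tendsto_integral_of_L1 (fun x => c x • g x)
    (hc.aestronglyMeasurable.smul hg.aestronglyMeasurable)
    (.of_forall fun k => (hf k).bdd_smul C hc.aestronglyMeasurable (ae_of_all _ hC)) ?_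
  have h3 := ENNReal.Tendsto.const_mul (a := ENNReal.ofReal C) h (.inr ENNReal.ofReal_ne_top)
  rw [mul_zero] at h3
  refine tendsto_of_tendsto_of_tendsto_of_le_of_le tendsto_const_nhds h3 (fun _ => zero_le)
    fun k => ?_
  dsimp only
  rw [← lintegral_const_mul' _ _ ENNReal.ofReal_ne_top]
  refine lintegral_mono fun x => ?_
  rw [← smul_sub, enorm_smul]
  refine mul_le_mul_left ?_ _
  rw [← ofReal_norm]
  exact ENNReal.ofReal_le_ofReal (hC x)

theorem int_ind {A : Type} [NormedAddCommGroup A] {f : D n → A} {K : Set (D n)}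
    (hK : MeasurableSet K) (hf : Integrable f (volume.restrict K)) : Integrable (K.indicator f) :=
  (integrable_indicator_iff hK).2 hf

/-- Differentiability in the mean at almost every point of the inner cube. -/
theorem mean_diff (hn : 2 ≤ n) {u : D n → V m} {G : D n → D n →L[ℝ] V m}
    (hu : StronglyMeasurable u) (hG : StronglyMeasurable G) (lG : MemLp G n volume) {x0 : D n}
    {r : ℝ} (hr : 0 < r) {w : ℕ → D n → V m} (hw : Apx (closedBall x0 (3 * r)) u G w) :
    ∀ᵐ x ∂(volume.restrict (closedBall x0 (2 * r))), ∀ e : ℝ, 0 < e →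
      ∃ᶠ s in 𝓝[>] (0 : ℝ), ∫⁻ y in closedBall x s, ‖u y - u x - G x (y - x)‖ₑ ≤
        ENNReal.ofReal (e * s) * volume (closedBall x s) := by
  obtain ⟨p, hp⟩ : ∃ p, n = p + 1 := ⟨n - 1, by omega⟩
  set K := closedBall x0 (3 * r) with hK
  have mK : MeasurableSet K := measurableSet_closedBall
  have cK : IsCompact K := isCompact_closedBall _ _
  have : IsFiniteMeasure (volume.restrict K) := ⟨by simpa using cK.measure_lt_top⟩
  have t1 := one_of_pow (f := fun k x => ‖w k x - u x‖ₑ) (p := p) (by rw [← hp]; exact hw.lu)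
  have t2 := one_of_pow (f := fun k x => ‖fderiv ℝ (w k) x - G x‖ₑ) (p := p)
    (by rw [← hp]; exact hw.lG)
  have c2 : ∀ k, Continuous (fderiv ℝ (w k)) := fun k => (hw.sm k).continuous_fderiv (by simp)
  have i1 : ∀ k, Integrable (w k) (volume.restrict K) := fun k =>
    (hw.sm k).continuous.continuousOn.integrableOn_compact cK
  have i2 : ∀ k, Integrable (fderiv ℝ (w k)) (volume.restrict K) := fun k =>
    (c2 k).continuousOn.integrableOn_compact cK
  have H : ∀ φ : D n → ℝ, ContDiff ℝ ∞ φ → HasCompactSupport φ → tsupport φ ⊆ K → ∀ z,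
      ∫ x, fderiv ℝ φ x z • K.indicator u x = -∫ x, φ x • K.indicator G x z := by
    intro φ a b c z
    have d1 : Continuous fun x => fderiv ℝ φ x z :=
      (a.continuous_fderiv (by simp)).clm_apply continuous_const
    have l1 := lim_smul i1 hu t1 d1 (b.fderiv_apply ℝ z)
    have l2 := ((ContinuousLinearMap.apply ℝ (V m) z).continuous.tendsto _).comp
      (lim_smul i2 hG t2 a.continuous b)
    obtain ⟨C, hC⟩ := a.continuous.bounded_above_of_compact_support b
    have ap : ∀ {M : D n → D n →L[ℝ] V m}, Integrable M (volume.restrict K) →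
        (∫ x in K, φ x • M x) z = ∫ x in K, φ x • M x z := fun hM =>
      ContinuousLinearMap.integral_apply
        (hM.bdd_smul C a.continuous.aestronglyMeasurable (ae_of_all _ hC)) z
    have e : ∀ k, ∫ x in K, fderiv ℝ φ x z • w k x = -(∫ x in K, φ x • fderiv ℝ (w k) x) z := by
      intro k
      rw [ap (i2 k), setIntegral_eq_integral_of_forall_compl_eq_zero,
        setIntegral_eq_integral_of_forall_compl_eq_zero,
        integral_smul_fderiv_eq_neg_fderiv_smul_of_integrable, neg_neg]
      · exact (d1.smul (hw.sm k).continuous).integrable_of_hasCompactSupport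
          (b.fderiv_apply ℝ z).smul_right
      · exact (a.continuous.smul ((c2 k).clm_apply continuous_const)).integrable_of_hasCompactSupport
          b.smul_right
      · exact (a.continuous.smul (hw.sm k).continuous).integrable_of_hasCompactSupport b.smul_right
      · exact fun x _ => a.differentiable (by simp) x
      · exact fun x _ => (hw.sm k).differentiable (by simp) x
      · intro x hx
        rw [image_eq_zero_of_notMem_tsupport fun t => hx (c t), zero_smul]
      · intro x hx
        rw [fderiv_of_notMem_tsupport ℝ fun t => hx (c t)]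
        simp
    have := tendsto_nhds_unique l1 (l2.neg.congr fun k => (e k).symm)
    rw [ContinuousLinearMap.apply_apply, ap (int_of_lim i2 hG t2), ← integral_indicator mK,
      ← integral_indicator mK] at this
    refine Eq.trans (integral_congr_ae (ae_of_all _ fun x => ?_))
      (this.trans (congrArg _ (integral_congr_ae (ae_of_all _ fun x => ?_)))) <;>
    by_cases k : x ∈ K <;> simp [k]
  have A := ae_mean (int_ind mK (int_of_lim i1 hu t1)) (int_ind mK (int_of_lim i2 hG t2))
    (hu.indicator mK) (hG.indicator mK) (U := ball x0 (5 / 2 * r)) isOpen_ball (half_pos hr)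
    (fun x hx y hy => by
      rw [mem_ball_zero_iff] at hy
      rw [mem_ball_iff_norm] at hx
      rw [hK, mem_closedBall_iff_norm, add_sub_right_comm]
      linarith [norm_add_le (x - x0) y]) H
  refine (ae_restrict_iff' measurableSet_closedBall).2 ?_
  filter_upwards [A] with x h hx e he
  refine Eventually.frequently ?_
  have xK : x ∈ K := closedBall_subset_closedBall (by linarith) hx
  filter_upwards [h (closedBall_subset_ball (by linarith) hx) e he, Ioo_mem_nhdsGT hr] with s a b
  refine le_of_eq_of_le (setLIntegral_congr_fun measurableSet_closedBall fun y hy => ?_) a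
  have : y ∈ K := closedBall_subset_closedBall' (by linarith [b.2, mem_closedBall.1 hx]) hy
  simp only [indicator_of_mem this, indicator_of_mem xK]

end Pool.Agent.Lib.MP_a785f2_an.HS
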