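import Pool.Agent.Lib.MP_a785f2_an.HS.Defs

/-! A map with an integrable weak derivative is differentiable in the mean almost everywhere. -/

open MeasureTheory Metric Set Filter Topology
open scoped ContDiff ENNReal

namespace Pool.Agent.Lib.MP_a785f2_an.HS

variable {n : ℕ} {F : Type} [NormedAddCommGroup F] [NormedSpace ℝ F]

/-- Lebesgue measure on the unit interval. -/
noncomputable abbrev nu : Measure ℝ := volume.restrict (Ioc 0 1)

theorem int_shift {A : Type} [NormedAddCommGroup A] {f : D n → A} (hf : Integrable f) (z : D n) :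
    Integrable (fun p : ℝ × D n => f (p.2 + p.1 • z)) (nu.prod volume) := by
  have h : MeasurePreserving (fun p : ℝ × D n => (id p.1, p.2 + p.1 • z)) (nu.prod volume)
      (nu.prod volume) :=
    (MeasurePreserving.id nu).skew_product (g := fun t x => x + t • z) (by fun_prop)
      (ae_of_all _ fun t => map_add_right_eq_self _ _)
  exact h.integrable_comp_of_integrable (hf.comp_snd nu)

/-- The fundamental theorem of calculus on almost every segment with a given direction. -/
theorem seg [CompleteSpace F] {w : D n → F} {M : D n → D n →L[ℝ] F} (hw : Integrable w)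
    (hM : Integrable M) {U O : Set (D n)} (hU : IsOpen U) {z : D n}
    (hz : ∀ x ∈ U, ∀ t ∈ Ioc (0 : ℝ) 1, x + t • z ∈ O)
    (H : ∀ φ : D n → ℝ, ContDiff ℝ ∞ φ → HasCompactSupport φ → tsupport φ ⊆ O →
      ∫ x, fderiv ℝ φ x z • w x = -∫ x, φ x • M x z) :
    ∀ᵐ x, x ∈ U → w (x + z) - w x - ∫ t, M (x + t • z) z ∂nu = 0 := by
  have hMz : Integrable fun x => M x z := hM.apply_continuousLinearMap z
  have i1 := int_shift hMz z
  have i2 : Integrable fun x => w (x + z) := hw.comp_add_right z
  have i3 : Integrable fun x => ∫ t, M (x + t • z) z ∂nu := i1.integral_prod_right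
  refine hU.ae_eq_zero_of_integral_contDiff_smul_eq_zero
    (((i2.sub hw).sub i3).locallyIntegrable.locallyIntegrableOn U) fun g g1 g2 g3 => ?_
  obtain ⟨C, hC⟩ := g1.continuous.bounded_above_of_compact_support g2
  have d1 : Continuous fun x => fderiv ℝ g x z :=
    (g1.continuous_fderiv (by simp)).clm_apply continuous_const
  obtain ⟨B, hD⟩ := d1.bounded_above_of_compact_support (g2.fderiv_apply ℝ z)
  have bs : ∀ {f : D n → F}, Integrable f → ∀ a : D n, Integrable fun x => g (x - a) • f x :=
    fun hf a => hf.bdd_smul C (g1.continuous.comp (by fun_prop)).aestronglyMeasurable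
      (ae_of_all _ fun x => hC _)
  have b0 : ∀ {f : D n → F}, Integrable f → Integrable fun x => g x • f x := fun hf => by
    simpa using bs hf 0
  have e1 : ∫ x, g x • w (x + z) = ∫ x, g (x - z) • w x := by
    rw [← integral_add_right_eq_self (fun x => g (x - z) • w x) z]
    simp
  have e2 : ∫ x, g x • ∫ t, M (x + t • z) z ∂nu =
      ∫ t, (∫ x, g x • M (x + t • z) z) ∂nu := by
    simp_rw [← integral_smul]
    refine (integral_integral_swap (f := fun t x => g x • M (x + t • z) z) ?_).symm
    exact i1.bdd_smul C (g1.continuous.comp continuous_snd).aestronglyMeasurable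
      (ae_of_all _ fun p => hC _)
  have e3 : ∀ t ∈ Ioc (0 : ℝ) 1, ∫ x, g x • M (x + t • z) z =
      -∫ x, fderiv ℝ g (x - t • z) z • w x := by
    intro t ht
    have c1 : ContDiff ℝ ∞ fun x => g (x - t • z) := g1.comp (contDiff_id.sub contDiff_const)
    have := H (fun x => g (x - t • z)) c1
      (g2.comp_homeomorph (Homeomorph.subRight (t • z))) (fun x hx => by
        have : x - t • z ∈ tsupport g :=
          tsupport_comp_subset_preimage g (by fun_prop : Continuous fun x => x - t • z) hx
        simpa using hz _ (g3 this) t ht)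
    simp only [fderiv_comp_sub] at this
    rw [this, neg_neg, ← integral_add_right_eq_self (fun x => g (x - t • z) • M x z) (t • z)]
    simp
  have e4 : ∀ x, ∫ t, fderiv ℝ g (x - t • z) z ∂nu = g x - g (x - z) := by
    intro x
    have : ∀ t ∈ uIcc (0 : ℝ) 1, HasDerivAt (fun t : ℝ => -g (x - t • z))
        (fderiv ℝ g (x - t • z) z) t := by
      intro t _
      have a : HasDerivAt (fun t : ℝ => x - t • z) (-z) t := by
        simpa using ((hasDerivAt_id t).smul_const z).const_sub x
      have b := ((g1.differentiable (by simp) _).hasFDerivAt.comp_hasDerivAt t a).neg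
      rw [map_neg, neg_neg] at b
      exact b
    have := intervalIntegral.integral_eq_sub_of_hasDerivAt this
      ((d1.comp (by fun_prop)).intervalIntegrable 0 1)
    rw [intervalIntegral.integral_of_le zero_le_one] at this
    rw [this]
    simp
    ring
  have e5 : ∫ t, (∫ x, fderiv ℝ g (x - t • z) z • w x) ∂nu = ∫ x, (g x - g (x - z)) • w x := by
    rw [integral_integral_swap (f := fun t x => fderiv ℝ g (x - t • z) z • w x)]
    · simp_rw [integral_smul_const, e4]
    · exact (hw.comp_snd nu).bdd_smul B (d1.comp (by fun_prop)).aestronglyMeasurable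
        (ae_of_all _ fun p => hD _)
  simp_rw [smul_sub]
  have i4 : Integrable fun x => g x • w (x + z) - g x • w x := (b0 i2).sub (b0 hw)
  rw [integral_sub i4 (b0 i3), integral_sub (b0 i2) (b0 hw), e1, e2,
    setIntegral_congr_fun measurableSet_Ioc e3, integral_neg, e5]
  simp_rw [sub_smul]
  rw [integral_sub (b0 hw) (bs hw z)]
  abel

/-- Averages over balls are invariant under dilation. -/
theorem avg_dil {h : D n → ℝ≥0∞} (hh : Measurable h) (x : D n) {t ρ : ℝ} (ht : 0 < t) {ε : ℝ≥0∞}
    (H : ∫⁻ y in closedBall x (t * ρ), h y ≤ ε * volume (closedBall x (t * ρ))) :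
    ∫⁻ z in closedBall (0 : D n) ρ, h (x + t • z) ≤ ε * volume (closedBall (0 : D n) ρ) := by
  have hT : Measurable fun z : D n => x + t • z := by fun_prop
  obtain ⟨κ, hκ⟩ : ∃ κ : ℝ≥0∞, Measure.map (fun z : D n => x + t • z) volume = κ • volume := by
    refine ⟨ENNReal.ofReal |(t ^ Module.finrank ℝ (D n))⁻¹|, ?_⟩
    rw [show (fun z : D n => x + t • z) = (fun y => x + y) ∘ (t • ·) from rfl,
      ← Measure.map_map (by fun_prop) (by fun_prop), Measure.map_addHaar_smul _ ht.ne',
      Measure.map_smul, map_add_left_eq_self]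
  have e : (fun z : D n => x + t • z) ⁻¹' closedBall x (t * ρ) = closedBall 0 ρ := by
    ext z
    simp [norm_smul, abs_of_pos ht, ht]
  rw [← e, ← setLIntegral_map measurableSet_closedBall hh hT,
    ← Measure.map_apply hT measurableSet_closedBall, hκ, Measure.restrict_smul,
    lintegral_smul_measure, Measure.smul_apply, smul_eq_mul, smul_eq_mul, mul_left_comm]
  exact mul_le_mul_right H κ

/-- The remainder is bounded by the oscillation of `M` along the segment, almost everywhere. -/
theorem ae_rem [CompleteSpace F] {w : D n → F} {M : D n → D n →L[ℝ] F} (hw : Integrable w)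
    (hM : Integrable M) (mw : StronglyMeasurable w) (mM : StronglyMeasurable M)
    {U O : Set (D n)} (hU : IsOpen U) {r : ℝ} (hz : ∀ x ∈ U, ∀ y ∈ ball (0 : D n) r, x + y ∈ O)
    (H : ∀ φ : D n → ℝ, ContDiff ℝ ∞ φ → HasCompactSupport φ → tsupport φ ⊆ O → ∀ z,
      ∫ x, fderiv ℝ φ x z • w x = -∫ x, φ x • M x z) :
    ∀ᵐ x, x ∈ U → ∀ᵐ z, z ∈ ball (0 : D n) r →
      ‖w (x + z) - w x - M x z‖ₑ ≤ ‖z‖ₑ * ∫⁻ t, ‖M (x + t • z) - M x‖ₑ ∂nu := by
  have m1 : Measurable fun p : D n × D n => ‖w (p.2 + p.1) - w p.2 - M p.2 p.1‖ₑ := by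
    refine StronglyMeasurable.enorm (((mw.comp_measurable (by fun_prop)).sub
      (mw.comp_measurable measurable_snd)).sub ?_)
    exact isBoundedBilinearMap_apply.continuous.comp_stronglyMeasurable
      ((mM.comp_measurable measurable_snd).prodMk measurable_fst.stronglyMeasurable)
  have m2 : Measurable fun p : D n × D n => ∫⁻ t, ‖M (p.2 + t • p.1) - M p.2‖ₑ ∂nu := by
    refine Measurable.lintegral_prod_right' (f := fun q : (D n × D n) × ℝ =>
      ‖M (q.1.2 + q.2 • q.1.1) - M q.1.2‖ₑ) ?_
    exact StronglyMeasurable.enorm ((mM.comp_measurable (by fun_prop)).sub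
      (mM.comp_measurable (by fun_prop)))
  have key : ∀ᵐ z : D n, ∀ᵐ x : D n, x ∈ U → z ∈ ball (0 : D n) r →
      ‖w (x + z) - w x - M x z‖ₑ ≤ ‖z‖ₑ * ∫⁻ t, ‖M (x + t • z) - M x‖ₑ ∂nu := by
    refine ae_of_all _ fun z => ?_
    by_cases k : z ∈ ball (0 : D n) r
    swap
    · exact ae_of_all _ fun x _ h => absurd h k
    have h1 := seg hw hM hU (z := z) (fun x hx t ht => hz x hx _ (by
      rw [mem_ball_zero_iff] at k ⊢
      rw [norm_smul, Real.norm_eq_abs, abs_of_pos ht.1]
      nlinarith [ht.1, ht.2, norm_nonneg z])) fun φ a b c => H φ a b c z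
    filter_upwards [h1, (int_shift (hM.apply_continuousLinearMap z) z).prod_left_ae]
      with x h2 h3 hx _
    have e : w (x + z) - w x - M x z = ∫ t, (M (x + t • z) - M x) z ∂nu := by
      simp only [sub_apply]
      rw [integral_sub h3 (integrable_const _), sub_eq_zero.1 (h2 hx)]
      simp
    rw [e, ← lintegral_const_mul' _ _ enorm_ne_top]
    refine (enorm_integral_le_lintegral_enorm _).trans (lintegral_mono fun t => ?_)
    rw [mul_comm]
    exact ContinuousLinearMap.le_opENorm _ _
  rw [Measure.ae_ae_comm] at key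
  · filter_upwards [key] with x h hx
    filter_upwards [h] with z h using h hx
  · refine MeasurableSet.imp (hU.measurableSet.preimage measurable_snd)
      (MeasurableSet.imp (measurableSet_ball.preimage measurable_fst) ?_)
    exact measurableSet_le m1 (measurable_fst.enorm.mul m2)

/-- Differentiability in the mean, almost everywhere on `U`. -/
theorem ae_mean [CompleteSpace F] {w : D n → F} {M : D n → D n →L[ℝ] F} (hw : Integrable w)
    (hM : Integrable M) (mw : StronglyMeasurable w) (mM : StronglyMeasurable M)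
    {U O : Set (D n)} (hU : IsOpen U) {r : ℝ} (hr : 0 < r)
    (hz : ∀ x ∈ U, ∀ y ∈ ball (0 : D n) r, x + y ∈ O)
    (H : ∀ φ : D n → ℝ, ContDiff ℝ ∞ φ → HasCompactSupport φ → tsupport φ ⊆ O → ∀ z,
      ∫ x, fderiv ℝ φ x z • w x = -∫ x, φ x • M x z) :
    ∀ᵐ x, x ∈ U → ∀ e : ℝ, 0 < e → ∀ᶠ ρ in 𝓝[>] (0 : ℝ),
      ∫⁻ y in closedBall x ρ, ‖w y - w x - M x (y - x)‖ₑ ≤
        ENNReal.ofReal (e * ρ) * volume (closedBall x ρ) := by
  filter_upwards [ae_rem hw hM mw mM hU hz H,
    (Besicovitch.vitaliFamily volume).ae_tendsto_lintegral_enorm_sub_div hM.locallyIntegrable]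
    with x h1 h2 hx e he
  have h3 := (h2.comp (Besicovitch.tendsto_filterAt volume x)).eventually
    (ge_mem_nhds (ENNReal.ofReal_pos.2 he))
  obtain ⟨δ, hδ, h4⟩ := mem_nhdsGT_iff_exists_Ioo_subset.1 h3
  filter_upwards [Ioo_mem_nhdsGT hδ, Ioo_mem_nhdsGT hr] with ρ a b
  have mh : Measurable fun y => ‖M y - M x‖ₑ := (mM.sub stronglyMeasurable_const).enorm
  have h5 : ∀ t ∈ Ioc (0 : ℝ) 1, ∫⁻ z in closedBall (0 : D n) ρ, ‖M (x + t • z) - M x‖ₑ ≤
      ENNReal.ofReal e * volume (closedBall (0 : D n) ρ) := by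
    intro t ht
    have p : 0 < t * ρ := mul_pos ht.1 a.1
    refine avg_dil mh x ht.1 ?_
    have := h4 ⟨p, by nlinarith [ht.1, ht.2, a.1, a.2]⟩
    exact (ENNReal.div_le_iff (measure_closedBall_pos _ _ p).ne' measure_closedBall_lt_top.ne).1
      this
  have e1 : ∫⁻ y in closedBall x ρ, ‖w y - w x - M x (y - x)‖ₑ =
      ∫⁻ z in closedBall (0 : D n) ρ, ‖w (x + z) - w x - M x z‖ₑ := by
    rw [← lintegral_indicator measurableSet_closedBall, ← lintegral_add_left_eq_self _ x,
      ← lintegral_indicator measurableSet_closedBall]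
    refine lintegral_congr fun z => ?_
    by_cases k : z ∈ closedBall (0 : D n) ρ
    · rw [indicator_of_mem k, indicator_of_mem (by simpa using k), add_sub_cancel_left]
    · rw [indicator_of_notMem k, indicator_of_notMem (by simpa using k)]
  rw [e1, Measure.addHaar_closedBall_center]
  calc ∫⁻ z in closedBall (0 : D n) ρ, ‖w (x + z) - w x - M x z‖ₑ
      ≤ ∫⁻ z in closedBall (0 : D n) ρ,
        ENNReal.ofReal ρ * ∫⁻ t, ‖M (x + t • z) - M x‖ₑ ∂nu := by
        refine setLIntegral_mono_ae' measurableSet_closedBall ?_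
        filter_upwards [h1 hx] with z h hz
        refine (h (closedBall_subset_ball b.2 hz)).trans (mul_le_mul_left ?_ _)
        rw [← ofReal_norm]
        exact ENNReal.ofReal_le_ofReal (mem_closedBall_zero_iff.1 hz)
    _ = ENNReal.ofReal ρ *
        ∫⁻ t, (∫⁻ z in closedBall (0 : D n) ρ, ‖M (x + t • z) - M x‖ₑ) ∂nu := by
        rw [lintegral_const_mul' _ _ ENNReal.ofReal_ne_top, lintegral_lintegral_swap]
        exact (mh.comp (by fun_prop : Measurable fun p : D n × ℝ => x + p.2 • p.1)).aemeasurable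
    _ ≤ ENNReal.ofReal ρ * ∫⁻ _, ENNReal.ofReal e * volume (closedBall (0 : D n) ρ) ∂nu :=
        mul_le_mul_right (setLIntegral_mono' measurableSet_Ioc h5) _
    _ = _ := by
        rw [ENNReal.ofReal_mul he.le]
        simp
        ring

end Pool.Agent.Lib.MP_a785f2_an.HS
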