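import Pool.Agent.Lib.MP_a785f2_an.HS.Defs

open MeasureTheory Metric Set Filter Topology
open scoped ContDiff RealInnerProductSpace ENNReal

namespace Pool.Agent.Lib.MP_a785f2_an.HS

variable {n m : ℕ}

/-- Covering step. -/
theorem cover_le (ν : Measure (D n)) [IsFiniteMeasure ν]
    (c : ℝ≥0∞) (s : Set (D n))
    (hs : ∀ y ∈ s, ∃ᶠ r in 𝓝[>] (0 : ℝ), c * volume (closedBall y r) ≤ ν (closedBall y r)) :
    c * volume s ≤ ν univ := by
  have h := (Besicovitch.vitaliFamily (volume : Measure (D n))).measure_le_of_frequently_le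
    (ρ := c • (volume : Measure (D n))) ν
    (Measure.smul_absolutelyContinuous) s (fun y hy =>
      (Besicovitch.tendsto_filterAt volume y).frequently (by simpa using hs y hy))
  calc c * volume s = (c • (volume : Measure (D n))) s := by simp
    _ ≤ ν s := h
    _ ≤ ν univ := measure_mono (subset_univ _)

theorem vol_closedBall_mul (x y : D n) {a : ℝ} (ha : 0 < a) (r : ℝ) :
    volume (closedBall x (a * r)) = ENNReal.ofReal (a ^ n) * volume (closedBall y r) := by
  rw [Measure.addHaar_closedBall_mul_of_pos volume x ha r, Measure.addHaar_closedBall_center volume y]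
  simp

/-- Pointwise step: lower bound for the mass that lands in a ball around the image point. -/
theorem point_mass (w : D n → D n)
    (hw : Measurable w) (h : D n → ℝ) (hh : Measurable h)
    (x : D n) (L : D n →L[ℝ] D n)
    (hL : L.det ≠ 0) (hx : h x = |L.det|)
    (hleb : Tendsto (fun r => (∫⁻ y in closedBall x r, ‖h y - h x‖ₑ) / volume (closedBall x r))
      (𝓝[>] 0) (𝓝 0))
    (hD : ∀ e : ℝ, 0 < e → ∃ᶠ r in 𝓝[>] (0 : ℝ),
      ∫⁻ y in closedBall x r, ‖w y - w x - L (y - x)‖ₑ ≤
        ENNReal.ofReal (e * r) * volume (closedBall x r)) :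
    ∃ᶠ r in 𝓝[>] (0 : ℝ), ENNReal.ofReal ((1 / 2) ^ (n + 1)) * volume (closedBall (w x) r) ≤
      ∫⁻ y in w ⁻¹' closedBall (w x) r, ENNReal.ofReal (h y) := by
  set d : ℝ := |L.det| with hd
  have hd0 : 0 < d := abs_pos.2 hL
  let A : D n ≃L[ℝ] D n :=
    L.toContinuousLinearEquivOfDetNeZero hL
  set a : ℝ := ‖(A.symm : D n →L[ℝ] D n)‖ + 1 with ha
  have ha0 : 0 < a := by positivity
  have hAa : ∀ z, ‖z‖ ≤ a * ‖L z‖ := by
    intro z
    have h1 : z = (A.symm : D n →L[ℝ] D n) (L z) := by
      exact (A.symm_apply_apply z).symm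
    have h2 := (A.symm : D n →L[ℝ] D n).le_opNorm (L z)
    rw [← h1] at h2
    nlinarith [norm_nonneg (L z)]
  -- the small parameter
  set e : ℝ := (1 / 2) ^ (n + 1) / (a ^ n * (1 + 2 * a * d)) with he
  have he0 : 0 < e := by positivity
  have h1 : ∀ᶠ r in 𝓝[>] (0 : ℝ), ∫⁻ y in closedBall x r, ‖h y - h x‖ₑ ≤
      ENNReal.ofReal e * volume (closedBall x r) := by
    have := (ENNReal.tendsto_nhds_zero.1 hleb) (ENNReal.ofReal e) (by simpa using he0)
    filter_upwards [this, self_mem_nhdsWithin] with r hr hr0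
    exact (ENNReal.div_le_iff (measure_closedBall_pos volume x hr0).ne'
      measure_closedBall_lt_top.ne).1 hr
  have h2 := (hD e he0).and_eventually (h1.and self_mem_nhdsWithin)
  have ht : Tendsto (fun ρ : ℝ => ρ / a) (𝓝[>] 0) (𝓝[>] 0) := by
    apply tendsto_nhdsWithin_of_tendsto_nhds_of_eventually_within
    · have : Tendsto (fun ρ : ℝ => ρ / a) (𝓝 0) (𝓝 (0 / a)) :=
        (continuous_id.div_const a).tendsto 0
      rw [zero_div] at this
      exact this.mono_left nhdsWithin_le_nhds
    · filter_upwards [self_mem_nhdsWithin] with ρ hρ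
      exact div_pos hρ ha0
  refine ht.frequently (h2.mono ?_)
  rintro ρ ⟨hρ1, hρ2, hρ0⟩
  have hρ0 : 0 < ρ := hρ0
  set r : ℝ := ρ / a with hr
  have hr0 : 0 < r := div_pos hρ0 ha0
  have hρ : ρ = a * r := by rw [hr]; field_simp
  set V : ℝ≥0∞ := volume (closedBall (w x) r) with hV
  have hVtop : V ≠ ⊤ := measure_closedBall_lt_top.ne
  set K : Set (D n) := (fun y => y + -x) ⁻¹' (L ⁻¹' closedBall 0 (1 / 2 * r))
    with hK
  have hKm : MeasurableSet K :=
    (measurable_id.add_const (-x)) (L.continuous.measurable measurableSet_closedBall)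
  have hKv : ENNReal.ofReal d * volume K = ENNReal.ofReal ((1 / 2) ^ n) * V := by
    rw [hK, measure_preimage_add_right, Measure.addHaar_preimage_continuousLinearMap volume hL,
      vol_closedBall_mul 0 (w x) (by norm_num : (0 : ℝ) < 1 / 2) r, ← mul_assoc,
      ← ENNReal.ofReal_mul hd0.le]
    have : d * |(LinearMap.det (L : D n →ₗ[ℝ] D n))⁻¹|
        = 1 := by
      rw [abs_inv]
      exact mul_inv_cancel₀ hd0.ne'
    rw [this]
    simp [hV]
  have hKs : K ⊆ closedBall x ρ := by
    intro y hy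
    simp only [hK, mem_preimage, mem_closedBall, dist_zero_right, ← sub_eq_add_neg] at hy
    rw [mem_closedBall, dist_eq_norm, hρ]
    have := hAa (y - x)
    nlinarith
  have hρV : volume (closedBall x ρ) = ENNReal.ofReal (a ^ n) * V := by
    rw [hρ, vol_closedBall_mul x (w x) ha0 r]
  -- pointwise inequality on `K`
  have hpt : ∀ y ∈ K, ENNReal.ofReal d ≤
      (w ⁻¹' closedBall (w x) r).indicator (fun y => ENNReal.ofReal (h y)) y +
        (‖h y - h x‖ₑ + ENNReal.ofReal (2 * d / r) * ‖w y - w x - L (y - x)‖ₑ) := by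
    intro y hy
    simp only [hK, mem_preimage, mem_closedBall, dist_zero_right, ← sub_eq_add_neg] at hy
    by_cases hy2 : y ∈ w ⁻¹' closedBall (w x) r
    · rw [indicator_of_mem hy2, ← add_assoc]
      refine le_trans ?_ le_self_add
      rw [← ofReal_norm]
      refine le_trans (ENNReal.ofReal_le_ofReal ?_) ENNReal.ofReal_add_le
      rw [← hx, Real.norm_eq_abs]
      linarith [neg_abs_le (h y - h x)]
    · refine le_trans ?_ le_add_self
      refine le_trans ?_ le_add_self
      rw [← ofReal_norm, ← ENNReal.ofReal_mul (by positivity)]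
      apply ENNReal.ofReal_le_ofReal
      simp only [mem_preimage, mem_closedBall, dist_eq_norm, not_le] at hy2
      have h3 : ‖w y - w x‖ ≤ ‖w y - w x - L (y - x)‖ + ‖L (y - x)‖ := by
        simpa using norm_add_le (w y - w x - L (y - x)) (L (y - x))
      have h4 : r / 2 ≤ ‖w y - w x - L (y - x)‖ := by linarith
      calc d = 2 * d / r * (r / 2) := by field_simp
        _ ≤ _ := by gcongr
  have hm1 : Measurable ((w ⁻¹' closedBall (w x) r).indicator fun y => ENNReal.ofReal (h y)) :=
    (hh.ennreal_ofReal).indicator (hw measurableSet_closedBall)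
  have hm2 : Measurable fun y => ‖h y - h x‖ₑ := (hh.sub_const _).enorm
  have hint : ENNReal.ofReal d * volume K ≤
      (∫⁻ y in w ⁻¹' closedBall (w x) r, ENNReal.ofReal (h y)) +
        (ENNReal.ofReal e * volume (closedBall x ρ) +
          ENNReal.ofReal (2 * d / r) * (ENNReal.ofReal (e * ρ) * volume (closedBall x ρ))) := by
    calc ENNReal.ofReal d * volume K = ∫⁻ _ in K, ENNReal.ofReal d := by
          rw [setLIntegral_const]
      _ ≤ ∫⁻ y in K, ((w ⁻¹' closedBall (w x) r).indicator (fun y => ENNReal.ofReal (h y)) y +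
          (‖h y - h x‖ₑ + ENNReal.ofReal (2 * d / r) * ‖w y - w x - L (y - x)‖ₑ)) :=
          setLIntegral_mono' hKm hpt
      _ = (∫⁻ y in K, (w ⁻¹' closedBall (w x) r).indicator (fun y => ENNReal.ofReal (h y)) y) +
          ((∫⁻ y in K, ‖h y - h x‖ₑ) +
            ENNReal.ofReal (2 * d / r) * ∫⁻ y in K, ‖w y - w x - L (y - x)‖ₑ) := by
          rw [lintegral_add_left hm1, lintegral_add_left hm2,
            lintegral_const_mul' _ _ ENNReal.ofReal_ne_top]
      _ ≤ _ := by
          refine add_le_add ?_ (add_le_add ((lintegral_mono_set hKs).trans hρ2)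
            (mul_le_mul_right ((lintegral_mono_set hKs).trans hρ1) _))
          rw [← lintegral_indicator (hw measurableSet_closedBall)]
          exact setLIntegral_le_lintegral _ _
  have herr : ENNReal.ofReal e * volume (closedBall x ρ) +
      ENNReal.ofReal (2 * d / r) * (ENNReal.ofReal (e * ρ) * volume (closedBall x ρ)) =
      ENNReal.ofReal ((1 / 2) ^ (n + 1)) * V := by
    rw [hρV, ← mul_assoc, ← mul_assoc, ← mul_assoc, ← add_mul,
      ← ENNReal.ofReal_mul he0.le, ← ENNReal.ofReal_mul (by positivity),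
      ← ENNReal.ofReal_mul (by positivity), ← ENNReal.ofReal_add (by positivity) (by positivity)]
    congr 2
    rw [hρ, he]
    field_simp
  have hsplit : ENNReal.ofReal ((1 / 2) ^ n) * V =
      ENNReal.ofReal ((1 / 2) ^ (n + 1)) * V + ENNReal.ofReal ((1 / 2) ^ (n + 1)) * V := by
    rw [← add_mul, ← ENNReal.ofReal_add (by positivity) (by positivity)]
    congr 2
    ring
  rw [hKv, herr, hsplit] at hint
  exact (ENNReal.add_le_add_iff_right (ENNReal.mul_ne_top ENNReal.ofReal_ne_top hVtop)).1 hint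

/-- Image measure bound. -/
theorem image_le_aux (w : D n → D n)
    (hw : Measurable w)
    (M : D n → D n →L[ℝ] D n)
    (hM : Measurable fun x => (M x).det)
    (S : Set (D n)) (hS : MeasurableSet S)
    (hI : ∫⁻ x in S, ENNReal.ofReal |(M x).det| ≠ ⊤)
    (hD : ∀ᵐ x, x ∈ S → ∀ e : ℝ, 0 < e → ∃ᶠ r in 𝓝[>] (0 : ℝ),
      ∫⁻ y in closedBall x r, ‖w y - w x - M x (y - x)‖ₑ ≤
        ENNReal.ofReal (e * r) * volume (closedBall x r)) :
    ∃ T : Set (D n), (∀ᵐ x, x ∈ S → (M x).det = 0 ∨ x ∈ T) ∧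
      volume (w '' T) ≤ 2 ^ (n + 1) * ∫⁻ x in S, ENNReal.ofReal |(M x).det| := by
  set h : D n → ℝ := S.indicator fun x => |(M x).det| with hh
  have hhm : Measurable h := (continuous_abs.measurable.comp hM).indicator hS
  have hhl : ∫⁻ x, ENNReal.ofReal (h x) = ∫⁻ x in S, ENNReal.ofReal |(M x).det| := by
    rw [← lintegral_indicator hS]
    refine lintegral_congr fun x => ?_
    by_cases hx : x ∈ S <;> simp [hh, hx]
  have hh0 : ∀ x, 0 ≤ h x := fun x => indicator_nonneg (fun _ _ => abs_nonneg _) x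
  have hhi : Integrable h volume := by
    refine ⟨hhm.aestronglyMeasurable, ?_⟩
    rw [hasFiniteIntegral_iff_ofReal (Eventually.of_forall hh0), hhl]
    exact hI.lt_top
  set ν : Measure (D n) :=
    (volume.withDensity fun x => ENNReal.ofReal (h x)).map w with hν
  have hνs : ∀ B, MeasurableSet B → ν B = ∫⁻ y in w ⁻¹' B, ENNReal.ofReal (h y) := by
    intro B hB
    rw [hν, Measure.map_apply hw hB, withDensity_apply _ (hw hB)]
  have hνu : ν univ = ∫⁻ x in S, ENNReal.ofReal |(M x).det| := by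
    rw [hνs _ MeasurableSet.univ, preimage_univ, Measure.restrict_univ, hhl]
  have : IsFiniteMeasure ν := ⟨by rw [hνu]; exact hI.lt_top⟩
  set c : ℝ≥0∞ := ENNReal.ofReal ((1 / 2) ^ (n + 1)) with hc
  refine ⟨{x | ∃ᶠ r in 𝓝[>] (0 : ℝ),
    c * volume (closedBall (w x) r) ≤ ν (closedBall (w x) r)}, ?_, ?_⟩
  · filter_upwards [hD, (Besicovitch.vitaliFamily
      (volume : Measure (D n))).ae_tendsto_lintegral_enorm_sub_div_of_integrable
        hhi] with x hx1 hx2 hxS
    by_cases h0 : (M x).det = 0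
    · exact Or.inl h0
    · right
      have := point_mass w hw h hhm x (M x) h0 (by simp [hh, hxS])
        (hx2.comp (Besicovitch.tendsto_filterAt volume x)) (hx1 hxS)
      refine this.mono fun r hr => ?_
      rw [hνs _ measurableSet_closedBall]
      exact hr
  · have h1 := cover_le ν c (w '' {x | ∃ᶠ r in 𝓝[>] (0 : ℝ),
      c * volume (closedBall (w x) r) ≤ ν (closedBall (w x) r)}) (by
        rintro y ⟨x, hx, rfl⟩
        exact hx)
    rw [hνu] at h1
    have h2 : (2 : ℝ≥0∞) ^ (n + 1) * c = 1 := by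
      rw [hc, ← ENNReal.ofReal_ofNat 2, ← ENNReal.ofReal_pow (by norm_num),
        ← ENNReal.ofReal_mul (by positivity), ← mul_pow]
      norm_num
    calc _ = 2 ^ (n + 1) * (c * volume (w '' {x | ∃ᶠ r in 𝓝[>] (0 : ℝ),
          c * volume (closedBall (w x) r) ≤ ν (closedBall (w x) r)})) := by
          rw [← mul_assoc, h2, one_mul]
      _ ≤ _ := mul_le_mul_right h1 _

/-- The image of the set where the determinant does not vanish. -/
theorem image_le {w : D n → D n} (hw : Measurable w) {M : D n → D n →L[ℝ] D n}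
    (hM : StronglyMeasurable M) {S : Set (D n)} (hS : MeasurableSet S)
    (hi : IntegrableOn (fun x => (M x).det) S)
    (hD : ∀ᵐ x ∂(volume.restrict S), ∀ e : ℝ, 0 < e →
      ∃ᶠ s in 𝓝[>] (0 : ℝ), ∫⁻ y in closedBall x s, ‖w y - w x - M x (y - x)‖ₑ ≤
        ENNReal.ofReal (e * s) * volume (closedBall x s)) :
    ∃ N : Set (D n), volume N = 0 ∧ volume (w '' {x | x ∈ S \ N ∧ (M x).det ≠ 0}) ≤
      2 ^ (n + 1) * ∫⁻ x in S, ENNReal.ofReal |(M x).det| := by
  have hI : ∫⁻ x in S, ENNReal.ofReal |(M x).det| ≠ ⊤ := by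
    have h := hi.abs.2
    rw [hasFiniteIntegral_iff_ofReal (Eventually.of_forall fun x => abs_nonneg _)] at h
    exact h.ne
  obtain ⟨T, hT1, hT2⟩ := image_le_aux w hw M
    (ContinuousLinearMap.continuous_det.comp_stronglyMeasurable hM).measurable S hS hI
    ((ae_restrict_iff' hS).1 hD)
  refine ⟨{x | ¬ (x ∈ S → (M x).det = 0 ∨ x ∈ T)}, hT1, le_trans (measure_mono ?_) hT2⟩
  refine image_mono fun x hx => ?_
  have h1 := hx.1.2
  simp only [mem_ofPred_eq, not_not] at h1
  exact (h1 hx.1.1).resolve_left hx.2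

end Pool.Agent.Lib.MP_a785f2_an.HS
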