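import Pool.Agent.Lib.MP_a785f2_an.HS.AreaA
import Pool.Agent.Lib.MP_a785f2_an.HS.AreaB

open MeasureTheory Metric Set Filter Topology
open scoped ContDiff RealInnerProductSpace ENNReal

namespace Pool.Agent.Lib.MP_a785f2_an.HS

variable {n m : ℕ}

/-- The coordinate projection on the rows `I a`. -/
noncomputable def prj (I : Fin n → Fin m) : V m →L[ℝ] D n :=
  ContinuousLinearMap.pi fun a => (EuclideanSpace.proj (I a) : V m →L[ℝ] ℝ)

theorem prj_apply (I : Fin n → Fin m) (y : V m) : prj I y = fun a => y (I a) := rfl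

theorem prj_enorm_le (I : Fin n → Fin m) (y : V m) : ‖prj I y‖ₑ ≤ ‖y‖ₑ := by
  rw [enorm_le_iff_norm_le]
  refine (pi_norm_le_iff_of_nonneg (norm_nonneg _)).2 fun a => ?_
  exact PiLp.norm_apply_le y (I a)

theorem det_prj (I : Fin n → Fin m) (A : D n →L[ℝ] V m) :
    ((prj I).comp A).det = (mat A I).det := by
  rw [ContinuousLinearMap.det, ← LinearMap.det_toMatrix']
  refine congrArg Matrix.det ?_
  ext a α
  simp [LinearMap.toMatrix'_apply, mat, col, prj_apply]

theorem integrable_det (hn : 2 ≤ n) {G : D n → D n →L[ℝ] V m} (hG : StronglyMeasurable G)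
    (lG : MemLp G n volume) (I : Fin n → Fin m) :
    Integrable (fun x => (mat (G x) I).det) := by
  have h1 : Integrable (fun x => ‖G x‖ ^ n) := lG.integrable_norm_pow (by omega)
  refine (h1.const_mul ((n.factorial : ℝ) * (n : ℝ) ^ n)).mono'
    ((continuous_det I).comp_stronglyMeasurable hG).aestronglyMeasurable
    (ae_of_all _ fun x => ?_)
  rw [Real.norm_eq_abs]
  refine (abs_det_le _ I).trans ?_
  rw [mul_assoc, ← mul_pow]
  exact mul_le_mul_of_nonneg_left (pow_le_pow_left₀ (fro_nonneg _) (fro_le_norm _) n)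
    (Nat.cast_nonneg _)

/-- The area inequality on any measurable part of the inner cube. -/
theorem area_of_apx (hn : 2 ≤ n) {u : D n → V m} {G : D n → D n →L[ℝ] V m}
    (hu : StronglyMeasurable u) (hG : StronglyMeasurable G) (lG : MemLp G n volume) {x0 : D n}
    {r : ℝ} (hr : 0 < r) {w : ℕ → D n → V m} (hw : Apx (closedBall x0 (3 * r)) u G w)
    {Q : Set (D n)} (hQ : MeasurableSet Q) (hQr : Q ⊆ closedBall x0 (2 * r)) :
    Area (volume.restrict Q) u G := by
  intro I A hA
  have hS : MeasurableSet (A ∩ Q) := hA.inter hQ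
  have hd := ae_restrict_of_ae_restrict_of_subset (inter_subset_right.trans hQr : A ∩ Q ⊆ _)
    (mean_diff hn hu hG lG hr hw)
  have hw1 : Measurable fun x => prj I (u x) :=
    ((prj I).continuous.comp_stronglyMeasurable hu).measurable
  have hM : StronglyMeasurable fun x => (prj I).comp (G x) :=
    ((ContinuousLinearMap.compL ℝ (D n) (V m) (D n)) (prj I)).continuous.comp_stronglyMeasurable hG
  have hi : IntegrableOn (fun x => ((prj I).comp (G x)).det) (A ∩ Q) := by
    simp only [det_prj]
    exact (integrable_det hn hG lG I).integrableOn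
  obtain ⟨N, hN, hle⟩ := image_le hw1 hM hS hi (hd.mono fun x hx e he =>
    (hx e he).mono fun s hs => le_trans (lintegral_mono fun y => by
      have := prj_enorm_le I (u y - u x - G x (y - x))
      simpa only [map_sub, ContinuousLinearMap.comp_apply] using this) hs)
  simp only [det_prj] at hle
  refine ⟨{x | x ∈ (A ∩ Q) \ N ∧ (mat (G x) I).det ≠ 0}, fun x hx => hx.1.1.1, ?_, ?_⟩
  · have h1 : ∀ᵐ x ∂(volume.restrict Q), x ∉ N :=
      ae_restrict_of_ae (measure_eq_zero_iff_ae_notMem.1 hN)
    filter_upwards [h1, ae_restrict_mem hQ] with x hxN hxQ hxA hdet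
    exact ⟨⟨⟨hxA, hxQ⟩, hxN⟩, hdet⟩
  · rw [Measure.restrict_restrict hA]
    exact hle

end Pool.Agent.Lib.MP_a785f2_an.HS
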