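import Pool.Agent.Lib.MP_a785f2_an.HS.Morrey

open MeasureTheory Metric Set Filter Topology
open scoped ContDiff RealInnerProductSpace ENNReal

namespace Pool.Agent.Lib.MP_a785f2_an.HS

variable {n m : ℕ}

theorem exists_le_avg {X : Type} [MeasurableSpace X] {μ : Measure X} {s : Set X} {f : X → ℝ}
    (h0 : 0 < μ.real s) (hf : IntegrableOn f s μ) : ∃ x ∈ s, μ.real s * f x ≤ ∫ y in s, f y ∂μ := by
  obtain ⟨a, b⟩ := ENNReal.toReal_pos_iff.1 h0
  obtain ⟨x, hx, k⟩ := exists_le_setAverage a.ne' b.ne hf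
  rw [setAverage_eq, smul_eq_mul, le_inv_mul_iff₀ h0] at k
  exact ⟨x, hx, k⟩

theorem ins_mem {d : ℕ} (k : Fin (d + 1)) {x0 : D (d + 1)} {ρ s : ℝ} {z : D d} (hρ : 0 ≤ ρ)
    (hs : |s - x0 k| ≤ ρ) (hz : z ∈ closedBall (k.removeNth x0) ρ) :
    (k.insertNth s z : D (d + 1)) ∈ closedBall x0 ρ := by
  rw [mem_closedBall, dist_pi_le_iff hρ] at hz ⊢
  refine (Fin.forall_iff_succAbove k).2 ⟨?_, fun j => ?_⟩
  · rwa [Fin.insertNth_apply_same]
  · rw [Fin.insertNth_apply_succAbove]
    exact hz j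

theorem ins_cont {d : ℕ} (k : Fin (d + 1)) :
    Continuous fun p : ℝ × D d => (k.insertNth p.1 p.2 : D (d + 1)) :=
  Continuous.finInsertNth (A := fun _ => ℝ) k continuous_fst continuous_snd

theorem exists_slice {d : ℕ} (k : Fin (d + 1)) {F : D (d + 1) → ℝ} (hF : Continuous F)
    (h0 : ∀ y, 0 ≤ F y) (x0 : D (d + 1)) {ρ r p : ℝ} (hr : 0 < r) (hρ : 0 ≤ ρ)
    (h : ∀ s ∈ Icc p (p + r), |s - x0 k| ≤ ρ) : ∃ s ∈ Icc p (p + r),
      r * ∫ z in closedBall (k.removeNth x0) ρ, F (k.insertNth s z) ≤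
        ∫ y in closedBall x0 ρ, F y := by
  have c1 := hF.comp (ins_cont k)
  have cK := isCompact_closedBall (k.removeNth x0 : D d) ρ
  have v : volume.real (Icc p (p + r)) = r := by
    rw [Real.volume_real_Icc_of_le (by linarith), add_sub_cancel_left]
  obtain ⟨s, hs, e⟩ := exists_le_avg (μ := volume) (s := Icc p (p + r))
    (f := fun s => ∫ z in closedBall (k.removeNth x0) ρ, F (k.insertNth s z)) (by rwa [v])
    (continuous_parametric_integral_of_continuous (f := fun s z => F (k.insertNth s z)) c1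
      cK).integrableOn_Icc
  refine ⟨s, hs, v ▸ e.trans ?_⟩
  have mp := (volume_preserving_piFinSuccAbove (fun _ : Fin (d + 1) => ℝ) k).symm
  have i0 : IntegrableOn F (closedBall x0 ρ) :=
    hF.continuousOn.integrableOn_compact (isCompact_closedBall _ _)
  rw [← mp.setIntegral_preimage_emb (MeasurableEquiv.measurableEmbedding _), ← setIntegral_prod
    (fun p : ℝ × D d => F (k.insertNth p.1 p.2))
    (c1.continuousOn.integrableOn_compact (isCompact_Icc.prod cK))]
  exact setIntegral_mono_set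
    ((mp.integrableOn_comp_preimage (MeasurableEquiv.measurableEmbedding _)).2 i0)
    (Eventually.of_forall fun _ => h0 _)
    (LE.le.eventuallyLE fun q hq => ins_mem k hρ (h _ hq.1) hq.2)

theorem slice_der {d : ℕ} (k : Fin (d + 1)) (s : ℝ) {w : D (d + 1) → V m} (hw : ContDiff ℝ 1 w) :
    ContDiff ℝ 1 (fun z : D d => w (k.insertNth s z)) ∧
      ∀ z, ‖fderiv ℝ (fun z : D d => w (k.insertNth s z)) z‖ ≤ ‖fderiv ℝ w (k.insertNth s z)‖ := by
  let L : D d →L[ℝ] D (d + 1) := ContinuousLinearMap.pi fun i =>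
    k.insertNth (α := fun _ => D d →L[ℝ] ℝ) 0 (fun j => ContinuousLinearMap.proj j) i
  have e : ∀ z, L z = k.insertNth 0 z := fun z => funext fun i => by
    revert i
    refine (Fin.forall_iff_succAbove k).2 ⟨?_, fun j => ?_⟩ <;> simp [L]
  have e2 : (fun z : D d => (k.insertNth s z : D (d + 1))) = fun z => Pi.single k s + L z := by
    refine funext fun z => funext fun i => ?_
    revert i
    refine (Fin.forall_iff_succAbove k).2 ⟨?_, fun j => ?_⟩ <;> simp [e, Fin.succAbove_ne]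
  have l : ‖L‖ ≤ 1 := L.opNorm_le_bound zero_le_one fun z => by
    rw [one_mul, e, pi_norm_le_iff_of_nonneg (norm_nonneg _)]
    refine (Fin.forall_iff_succAbove k).2 ⟨by simp, fun j => ?_⟩
    rw [Fin.insertNth_apply_succAbove]
    exact norm_le_pi_norm z j
  have d1 : ∀ z, HasFDerivAt (fun z : D d => (k.insertNth s z : D (d + 1))) L z := fun z =>
    e2 ▸ L.hasFDerivAt.const_add _
  have d0 : ContDiff ℝ 1 fun z : D d => (k.insertNth s z : D (d + 1)) :=
    e2 ▸ contDiff_const.add L.contDiff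
  refine ⟨hw.comp d0, fun z => ?_⟩
  have d2 : fderiv ℝ (fun z : D d => w (k.insertNth s z)) z = _ :=
    ((hw.differentiable one_ne_zero _).hasFDerivAt.comp z (d1 z)).fderiv
  rw [d2]
  exact (ContinuousLinearMap.opNorm_comp_le _ _).trans (mul_le_of_le_one_right (norm_nonneg _) l)

/-- A box whose boundary has a small image. -/
theorem good_box (d : ℕ) (hd : 1 ≤ d) : ∃ C : ℝ, 0 < C ∧
    ∀ (m : ℕ) (w : D (d + 1) → V m), ContDiff ℝ 1 w → ∀ (x0 : D (d + 1)) (r lam : ℝ),
      0 < r → 0 < lam → ∃ (a b : D (d + 1)) (c : V m),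
        (∀ k, x0 k - 2 * r ≤ a k ∧ a k ≤ x0 k - r ∧ x0 k + r ≤ b k ∧ b k ≤ x0 k + 2 * r) ∧
        (∀ x ∈ Icc a b, (∃ k, x k = a k ∨ x k = b k) → ‖w x - c‖ ^ (d + 1) ≤
          C * ∫ y in closedBall x0 (2 * r),
            (‖fderiv ℝ w y‖ ^ (d + 1) + lam * ‖w y‖ ^ (d + 1))) ∧
        lam * ‖c‖ ^ (d + 1) * r ^ (d + 1) ≤
          C * ∫ y in closedBall x0 (2 * r),
            (‖fderiv ℝ w y‖ ^ (d + 1) + lam * ‖w y‖ ^ (d + 1)) := by
  obtain ⟨C, C0, hC⟩ := morrey d
  refine ⟨4 ^ (d + 1) * (2 * C) + 1, by positivity, fun m w hw x0 r lam hr hl => ?_⟩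
  let F : D (d + 1) → ℝ := fun y => ‖fderiv ℝ w y‖ ^ (d + 1) + lam * ‖w y‖ ^ (d + 1)
  have c1 := hw.continuous_fderiv one_ne_zero
  have c2 := hw.continuous
  have cF : Continuous F := by fun_prop
  have F0 : ∀ y, 0 ≤ F y := fun y => by positivity
  have r2 : 0 < 2 * r := by positivity
  choose a ha ea using fun k => exists_slice k cF F0 x0 hr r2.le (p := x0 k - 2 * r)
    fun s hs => abs_le.2 ⟨by linarith [hs.1], by linarith [hs.2]⟩
  choose b hb eb using fun k => exists_slice k cF F0 x0 hr r2.le (p := x0 k + r)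
    fun s hs => abs_le.2 ⟨by linarith [hs.1], by linarith [hs.2]⟩
  change ∃ (a b : D (d + 1)) (c : V m), _ ∧
    (∀ x ∈ Icc a b, _ → _ ≤ _ * ∫ y in closedBall x0 (2 * r), F y) ∧
    _ ≤ _ * ∫ y in closedBall x0 (2 * r), F y
  have E0 : 0 ≤ ∫ y in closedBall x0 (2 * r), F y := integral_nonneg F0
  generalize ∫ y in closedBall x0 (2 * r), F y = E at *
  have iF : ∀ (k : Fin (d + 1)) (s : ℝ) {H : D (d + 1) → ℝ}, Continuous H →
      IntegrableOn (fun z : D d => H (k.insertNth s z)) (closedBall (k.removeNth x0) (2 * r)) :=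
    fun k s H hH => (hH.comp ((ins_cont k).comp (Continuous.prodMk_right s))).continuousOn
      |>.integrableOn_compact (isCompact_closedBall _ _)
  let δ : ℝ := (2 * C * E) ^ (((d + 1 : ℕ) : ℝ)⁻¹)
  have δ0 : 0 ≤ δ := by positivity
  have δn : δ ^ (d + 1) = 2 * C * E := Real.rpow_inv_natCast_pow (by positivity) d.succ_ne_zero
  have osc : ∀ (k : Fin (d + 1)) (s : ℝ),
      r * ∫ z in closedBall (k.removeNth x0) (2 * r), F (k.insertNth s z) ≤ E →
      ∀ x ∈ closedBall x0 (2 * r), ∀ y ∈ closedBall x0 (2 * r), x k = s → y k = s →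
        ‖w x - w y‖ ≤ δ := fun k s hs x hx y hy ex ey => by
    obtain ⟨d1, d2⟩ := slice_der k s hw
    have rm : ∀ x ∈ closedBall x0 (2 * r),
        k.removeNth x ∈ closedBall (k.removeNth x0 : D d) (2 * r) := fun x hx => by
      rw [mem_closedBall, dist_pi_le_iff r2.le] at hx ⊢
      exact fun j => hx _
    have k1 := hC m _ d1 _ _ r2 _ (rm x hx) _ (rm y hy)
    rw [Fin.insertNth_removeNth, Fin.insertNth_removeNth, Function.update_eq_self_iff.2 ex.symm,
      Function.update_eq_self_iff.2 ey.symm] at k1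
    have k2 : ∫ z in closedBall (k.removeNth x0) (2 * r),
        ‖fderiv ℝ (fun z : D d => w (k.insertNth s z)) z‖ ^ (d + 1) ≤
        ∫ z in closedBall (k.removeNth x0) (2 * r), F (k.insertNth s z) :=
      integral_mono_of_nonneg (Eventually.of_forall fun z => by positivity) (iF k s cF)
        (Eventually.of_forall fun z => (pow_le_pow_left₀ (norm_nonneg _) (d2 z) _).trans
          (le_add_of_nonneg_right (by positivity)))
    rw [← pow_le_pow_iff_left₀ (norm_nonneg _) δ0 d.succ_ne_zero, δn]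
    have k3 := mul_le_mul_of_nonneg_left k2 (by positivity : 0 ≤ C * (2 * r))
    have k4 := mul_le_mul_of_nonneg_left hs (by positivity : 0 ≤ 2 * C)
    exact (k1.trans k3).trans (le_of_eq_of_le (by ring) k4)
  have mem : ∀ x ∈ Icc a b, x ∈ closedBall x0 (2 * r) := fun x hx => by
    rw [mem_closedBall, dist_pi_le_iff r2.le]
    exact fun k => abs_le.2 ⟨by linarith [(ha k).1, hx.1 k], by linarith [(hb k).2, hx.2 k]⟩
  have ab : a ≤ b := fun k => by linarith [(ha k).2, (hb k).1]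
  have ma := mem a ⟨le_rfl, ab⟩
  have mb := mem b ⟨ab, le_rfl⟩
  have vz : volume.real (closedBall ((0 : Fin (d + 1)).removeNth x0 : D d) (2 * r)) =
      (2 * (2 * r)) ^ d := by
    rw [Measure.real, Real.volume_pi_closedBall _ r2.le, Fintype.card_fin,
      ENNReal.toReal_ofReal (by positivity)]
  obtain ⟨z, hz, ez⟩ := exists_le_avg (μ := volume) (by rw [vz]; positivity) (iF 0 (a 0) cF)
  have mz := ins_mem 0 r2.le (abs_le.2 ⟨by linarith [(ha 0).1], by linarith [(ha 0).2]⟩ :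
    |a 0 - x0 0| ≤ 2 * r) hz
  refine ⟨a, b, w (Fin.insertNth 0 (a 0) z), fun k => ⟨(ha k).1, by linarith [(ha k).2], (hb k).1,
    by linarith [(hb k).2]⟩, fun x hx hk => ?_, ?_⟩
  · have o1 := osc 0 _ (ea 0) a ma _ mz rfl (Fin.insertNth_apply_same _ _ _)
    have ne : Fin.last d ≠ 0 := fun e => by
      have := congrArg Fin.val e
      simp only [Fin.val_last, Fin.val_zero] at this
      omega
    have mp := mem (Function.update a 0 (b 0)) ⟨le_update_iff.2 ⟨ab 0, fun _ _ => le_rfl⟩,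
      update_le_iff.2 ⟨le_rfl, fun j _ => ab j⟩⟩
    have o2 := osc 0 _ (eb 0) b mb _ mp rfl (Function.update_self ..)
    have o3 := osc (Fin.last d) _ (ea _) _ mp a ma (Function.update_of_ne ne ..) rfl
    have o4 : ‖w x - w (Fin.insertNth 0 (a 0) z)‖ ≤ 4 * δ := by
      obtain ⟨k, e | e⟩ := hk
      · linarith [osc k _ (ea k) x (mem x hx) a ma e rfl,
          norm_sub_le_norm_sub_add_norm_sub (w x) (w a) (w (Fin.insertNth 0 (a 0) z))]
      · linarith [osc k _ (eb k) x (mem x hx) b mb e rfl,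
          norm_sub_le_norm_sub_add_norm_sub (w x) (w a) (w (Fin.insertNth 0 (a 0) z)),
          norm_sub_le_norm_sub_add_norm_sub (w x) (w b) (w a),
          norm_sub_le_norm_sub_add_norm_sub (w b) (w (Function.update a 0 (b 0))) (w a)]
    have := pow_le_pow_left₀ (norm_nonneg _) o4 (d + 1)
    rw [mul_pow, δn] at this
    linarith
  · rw [vz] at ez
    have k1 : r ^ d * (lam * ‖w (Fin.insertNth 0 (a 0) z)‖ ^ (d + 1)) ≤
        (2 * (2 * r)) ^ d * F (Fin.insertNth 0 (a 0) z) :=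
      mul_le_mul (pow_le_pow_left₀ hr.le (by linarith) d) (le_add_of_nonneg_left (by positivity))
        (by positivity) (by positivity)
    have k2 := (mul_le_mul_of_nonneg_left (k1.trans ez) hr.le).trans (ea 0)
    have k3 : 0 ≤ 4 ^ (d + 1) * (2 * C) * E := by positivity
    rw [pow_succ r]
    linarith

end Pool.Agent.Lib.MP_a785f2_an.HS
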