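import Pool.Agent.Lib.MP_a785f2_an.HS.CaccP

open MeasureTheory Metric Set Filter Topology
open scoped ContDiff RealInnerProductSpace ENNReal

namespace Pool.Agent.Lib.MP_a785f2_an.HS

variable {n m : ℕ}

/-- A radial ramp on the target. -/
theorem ramp : ∃ C : ℝ, 0 < C ∧ ∀ (m : ℕ) (t t' : ℝ), 0 < t → t < t' →
    ∃ χ : V m → ℝ, ContDiff ℝ ∞ χ ∧ (∀ y, 0 ≤ χ y ∧ χ y ≤ 1) ∧ (∀ y, ‖y‖ ≤ t → χ y = 0) ∧
      (∀ y, t' ≤ ‖y‖ → χ y = 1) ∧ (∀ y, ‖fderiv ℝ χ y‖ ≤ C / (t' - t)) ∧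
      (∀ y, ‖y‖ < t ∨ t' < ‖y‖ → fderiv ℝ χ y = 0) ∧
      ∀ y ξ, 0 ≤ ⟪y, ξ⟫ * fderiv ℝ χ y ξ :=
  ramp0

/-- Energy estimate from the convex function `√(t0² + |y|²)`. -/
theorem cacc (hn : 2 ≤ n) {μ : Measure (D n)} {u : D n → V m} {G : D n → D n →L[ℝ] V m}
    {f : D n → V m} {Λ t0 : ℝ} (h : Tgt μ u G f Λ t0) {s t : ℝ} (hs : t0 ≤ s) (hst : s < t) :
    ∫ x in {x | t ≤ ‖u x‖}, fro (G x) ^ n * (t0 ^ 2 / √(t0 ^ 2 + ‖u x‖ ^ 2) ^ 3) ∂μ ≤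
      Λ * sig μ u G s :=
  cacc' hn h hs hst

theorem cacc_wt_nonneg (t0 c : ℝ) : 0 ≤ t0 ^ 2 / √(t0 ^ 2 + c ^ 2) ^ 3 := by positivity

theorem cacc_wt_le {t0 : ℝ} (ht : 0 < t0) (c : ℝ) :
    t0 ^ 2 / √(t0 ^ 2 + c ^ 2) ^ 3 ≤ 1 / t0 := by
  have h1 : t0 ≤ √(t0 ^ 2 + c ^ 2) := Real.le_sqrt_of_sq_le (by nlinarith [sq_nonneg c])
  have h2 : t0 ^ 3 ≤ √(t0 ^ 2 + c ^ 2) ^ 3 := pow_le_pow_left₀ ht.le h1 3
  rw [div_le_div_iff₀ ((pow_pos ht 3).trans_le h2) ht]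
  nlinarith

theorem cacc_wt_ge {t0 c : ℝ} (ht : 0 < t0) (hc0 : 0 ≤ c) (hc : c ≤ 2 * t0) :
    1 ≤ 12 * t0 * (t0 ^ 2 / √(t0 ^ 2 + c ^ 2) ^ 3) := by
  have h0 : 0 < √(t0 ^ 2 + c ^ 2) := Real.sqrt_pos.2 (by positivity)
  have h1 : √(t0 ^ 2 + c ^ 2) ≤ 9 / 4 * t0 :=
    Real.sqrt_le_iff.2 ⟨by positivity, by nlinarith⟩
  have h2 : √(t0 ^ 2 + c ^ 2) ^ 3 ≤ (9 / 4 * t0) ^ 3 := pow_le_pow_left₀ h0.le h1 3
  rw [← mul_div_assoc, le_div_iff₀ (pow_pos h0 3)]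
  have h3 : 0 < t0 ^ 3 := pow_pos ht 3
  nlinarith

theorem cacc_int {μ : Measure (D n)} {u : D n → V m} {G : D n → D n →L[ℝ] V m}
    {f : D n → V m} {Λ t0 : ℝ} (h : Tgt μ u G f Λ t0) :
    Integrable (fun x => fro (G x) ^ n * (t0 ^ 2 / √(t0 ^ 2 + ‖u x‖ ^ 2) ^ 3)) μ := by
  have hm : Measurable fun x => t0 ^ 2 / √(t0 ^ 2 + ‖u x‖ ^ 2) ^ 3 := by
    have := h.mu.norm.measurable
    fun_prop
  refine h.iG.mul_bdd (c := 1 / t0) hm.aestronglyMeasurable (ae_of_all _ fun x => ?_)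
  rw [Real.norm_of_nonneg (cacc_wt_nonneg _ _)]
  exact cacc_wt_le h.tp _

theorem cacc1 (hn : 2 ≤ n) {μ : Measure (D n)} {u : D n → V m} {G : D n → D n →L[ℝ] V m}
    {f : D n → V m} {Λ t0 : ℝ} (h : Tgt μ u G f Λ t0) {s t : ℝ} (hs : t0 ≤ s) (hst : s < t) :
    ∫ x in {x | t ≤ ‖u x‖ ∧ ‖u x‖ ≤ 2 * t0}, fro (G x) ^ n ∂μ ≤
      12 * t0 * (Λ * sig μ u G s) := by
  have hu := h.mu.norm.measurable
  have hA : MeasurableSet {x | t ≤ ‖u x‖ ∧ ‖u x‖ ≤ 2 * t0} :=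
    (measurableSet_le measurable_const hu).inter (measurableSet_le hu measurable_const)
  have hi := cacc_int h
  have h12 : 0 ≤ 12 * t0 := by have := h.tp; positivity
  calc ∫ x in {x | t ≤ ‖u x‖ ∧ ‖u x‖ ≤ 2 * t0}, fro (G x) ^ n ∂μ
      ≤ ∫ x in {x | t ≤ ‖u x‖ ∧ ‖u x‖ ≤ 2 * t0},
          12 * t0 * (fro (G x) ^ n * (t0 ^ 2 / √(t0 ^ 2 + ‖u x‖ ^ 2) ^ 3)) ∂μ := by
        refine setIntegral_mono_on h.iG.integrableOn (hi.const_mul _).integrableOn hA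
          fun x hx => ?_
        have h1 := cacc_wt_ge h.tp (norm_nonneg (u x)) hx.2
        have h2 : 0 ≤ fro (G x) ^ n := pow_nonneg (fro_nonneg _) _
        nlinarith [mul_le_mul_of_nonneg_left h1 h2]
    _ = 12 * t0 * ∫ x in {x | t ≤ ‖u x‖ ∧ ‖u x‖ ≤ 2 * t0},
          fro (G x) ^ n * (t0 ^ 2 / √(t0 ^ 2 + ‖u x‖ ^ 2) ^ 3) ∂μ := integral_const_mul _ _
    _ ≤ 12 * t0 * ∫ x in {x | t ≤ ‖u x‖},
          fro (G x) ^ n * (t0 ^ 2 / √(t0 ^ 2 + ‖u x‖ ^ 2) ^ 3) ∂μ := by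
        refine mul_le_mul_of_nonneg_left (setIntegral_mono_set hi.integrableOn
          (ae_of_all _ fun x => ?_) (LE.le.eventuallyLE fun x hx => hx.1)) h12
        exact mul_nonneg (pow_nonneg (fro_nonneg _) _) (cacc_wt_nonneg _ _)
    _ ≤ _ := mul_le_mul_of_nonneg_left (cacc hn h hs hst) h12

theorem cacc0 (hn : 2 ≤ n) {μ : Measure (D n)} {u : D n → V m} {G : D n → D n →L[ℝ] V m}
    {f : D n → V m} {Λ t0 : ℝ} (h : Tgt μ u G f Λ t0) {s : ℝ} (hs : t0 ≤ s)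
    (h0 : sig μ u G s = 0) : ∀ᵐ x ∂μ, s < ‖u x‖ → G x = 0 := by
  have hu := h.mu.norm.measurable
  have hi := cacc_int h
  have key : ∀ j : ℕ, ∀ᵐ x ∂μ, s + 1 / ((j : ℝ) + 1) ≤ ‖u x‖ → G x = 0 := by
    intro j
    have hA : MeasurableSet {x | s + 1 / ((j : ℝ) + 1) ≤ ‖u x‖} :=
      measurableSet_le measurable_const hu
    have h1 := cacc hn h hs (t := s + 1 / ((j : ℝ) + 1)) (lt_add_of_pos_right _ (by positivity))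
    rw [h0, mul_zero] at h1
    have hnn : ∀ x, 0 ≤ fro (G x) ^ n * (t0 ^ 2 / √(t0 ^ 2 + ‖u x‖ ^ 2) ^ 3) := fun x =>
      mul_nonneg (pow_nonneg (fro_nonneg _) _) (cacc_wt_nonneg _ _)
    have h2 := (integral_eq_zero_iff_of_nonneg hnn
      (hi.integrableOn (s := {x | s + 1 / ((j : ℝ) + 1) ≤ ‖u x‖}))).1
      (le_antisymm h1 (integral_nonneg hnn))
    filter_upwards [(ae_restrict_iff' hA).1 h2] with x hx hx'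
    have h3 : fro (G x) ^ n * (t0 ^ 2 / √(t0 ^ 2 + ‖u x‖ ^ 2) ^ 3) = 0 := hx hx'
    have h4 : 0 < t0 ^ 2 / √(t0 ^ 2 + ‖u x‖ ^ 2) ^ 3 := by
      have := h.tp
      positivity
    exact eq_zero_of_fro _ (pow_eq_zero_iff (by omega) |>.1 ((mul_eq_zero.1 h3).resolve_right h4.ne'))
  filter_upwards [ae_all_iff.2 key] with x hx hs'
  obtain ⟨j, hj⟩ := exists_nat_one_div_lt (sub_pos.2 hs')
  exact hx j (by linarith)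

end Pool.Agent.Lib.MP_a785f2_an.HS
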