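import Pool.Agent.Lib.MP_a785f2_an.HS.Defs

/-!
Radial cut-offs and a monotone bounded vector field on the target; the Caccioppoli inequality
on superlevel sets of the distance to a point of the target.
-/

open MeasureTheory Metric Set Filter Topology
open scoped ContDiff RealInnerProductSpace

namespace Pool.Agent.Lib.MP_a785f2_an.HS

section
variable {F : Type*} [NormedAddCommGroup F] [InnerProductSpace ℝ F]

lemma dst_nonneg (x : ℝ) : 0 ≤ deriv Real.smoothTransition x :=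
  Real.smoothTransition.monotone.deriv_nonneg

lemma dst_zero {x : ℝ} (h : x ≤ 0 ∨ 1 ≤ x) : deriv Real.smoothTransition x = 0 := by
  rcases h with h | h
  · refine IsLocalMin.deriv_eq_zero (Eventually.of_forall fun y => ?_)
    rw [Real.smoothTransition.zero_of_nonpos h]
    exact Real.smoothTransition.nonneg y
  · refine IsLocalMax.deriv_eq_zero (Eventually.of_forall fun y => ?_)
    rw [Real.smoothTransition.one_of_one_le h]
    exact Real.smoothTransition.le_one y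

lemma dst_bdd : ∃ K : ℝ, 0 < K ∧ ∀ x, deriv Real.smoothTransition x ≤ K := by
  have hc : Continuous (deriv Real.smoothTransition) :=
    (Real.smoothTransition.contDiff (n := 1)).continuous_deriv le_rfl
  obtain ⟨K, hK⟩ := (isCompact_Icc (a := (0 : ℝ)) (b := 1)).bddAbove_image hc.continuousOn
  refine ⟨max K 1, lt_max_of_lt_right one_pos, fun x => ?_⟩
  by_cases h : x ∈ Icc (0 : ℝ) 1
  · exact (hK (mem_image_of_mem _ h)).trans (le_max_left _ _)
  · rw [dst_zero (by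
      rw [mem_Icc, not_and_or, not_le, not_le] at h
      exact h.imp le_of_lt le_of_lt)]
    exact zero_le_one.trans (le_max_right _ _)

/-- radial cut-off, zero on the ball of radius `a` about `c`, one outside the ball of radius `b` -/
noncomputable def cut (c : F) (a b : ℝ) (y : F) : ℝ :=
  Real.smoothTransition ((‖y - c‖ ^ 2 - a ^ 2) / (b ^ 2 - a ^ 2))

variable {c : F} {a b t0 : ℝ}

lemma cut_contDiff (c : F) (a b : ℝ) : ContDiff ℝ ∞ (cut c a b) :=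
  Real.smoothTransition.contDiff.comp
    ((((contDiff_norm_sq ℝ).comp (contDiff_id.sub contDiff_const)).sub contDiff_const).div_const _)

omit [InnerProductSpace ℝ F] in
lemma cut_nonneg (c : F) (a b : ℝ) (y : F) : 0 ≤ cut c a b y := Real.smoothTransition.nonneg _

omit [InnerProductSpace ℝ F] in
lemma cut_le_one (c : F) (a b : ℝ) (y : F) : cut c a b y ≤ 1 := Real.smoothTransition.le_one _

omit [InnerProductSpace ℝ F] in
lemma arg_le (ha : 0 ≤ a) (hab : a < b) {y : F} (h : ‖y - c‖ ≤ a) :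
    (‖y - c‖ ^ 2 - a ^ 2) / (b ^ 2 - a ^ 2) ≤ 0 :=
  div_nonpos_of_nonpos_of_nonneg (by nlinarith [norm_nonneg (y - c)]) (by nlinarith)

omit [InnerProductSpace ℝ F] in
lemma le_arg (ha : 0 ≤ a) (hab : a < b) {y : F} (h : b ≤ ‖y - c‖) :
    1 ≤ (‖y - c‖ ^ 2 - a ^ 2) / (b ^ 2 - a ^ 2) := by
  rw [le_div_iff₀ (by nlinarith)]
  nlinarith

omit [InnerProductSpace ℝ F] in
lemma cut_zero (ha : 0 ≤ a) (hab : a < b) {y : F} (h : ‖y - c‖ ≤ a) : cut c a b y = 0 :=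
  Real.smoothTransition.zero_of_nonpos (arg_le ha hab h)

omit [InnerProductSpace ℝ F] in
lemma cut_one (ha : 0 ≤ a) (hab : a < b) {y : F} (h : b ≤ ‖y - c‖) : cut c a b y = 1 :=
  Real.smoothTransition.one_of_one_le (le_arg ha hab h)

lemma hasFDerivAt_sq (c y : F) :
    HasFDerivAt (fun y : F => ‖y - c‖ ^ 2) ((2 : ℝ) • innerSL ℝ (y - c)) y := by
  have h := ((hasFDerivAt_id y).sub_const c).norm_sq
  refine h.congr_fderiv ?_
  ext v
  simp [two_smul]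

lemma fderiv_cut (c : F) (a b : ℝ) (y v : F) :
    fderiv ℝ (cut c a b) y v =
      deriv Real.smoothTransition ((‖y - c‖ ^ 2 - a ^ 2) / (b ^ 2 - a ^ 2)) *
        (2 * ⟪y - c, v⟫ / (b ^ 2 - a ^ 2)) := by
  have h1 := (((hasFDerivAt_sq c y).sub_const (a ^ 2)).const_mul (b ^ 2 - a ^ 2)⁻¹)
  have h2 : HasDerivAt Real.smoothTransition
      (deriv Real.smoothTransition ((‖y - c‖ ^ 2 - a ^ 2) / (b ^ 2 - a ^ 2)))
      ((b ^ 2 - a ^ 2)⁻¹ * (‖y - c‖ ^ 2 - a ^ 2)) := by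
    rw [← div_eq_inv_mul]
    exact (((Real.smoothTransition.contDiff (n := 1)).differentiable (by simp)) _).hasDerivAt
  have h3 := h2.comp_hasFDerivAt y h1
  have e : cut c a b = Real.smoothTransition ∘
      fun y : F => (b ^ 2 - a ^ 2)⁻¹ * (‖y - c‖ ^ 2 - a ^ 2) := by
    funext y; simp only [cut, Function.comp, div_eq_inv_mul]
  rw [e, h3.fderiv]
  simp only [smul_apply, innerSL_apply_apply, smul_eq_mul]
  ring

lemma fderiv_cut_zero (ha : 0 ≤ a) (hab : a < b) {y : F} (h : ‖y - c‖ ≤ a ∨ b ≤ ‖y - c‖) :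
    fderiv ℝ (cut c a b) y = 0 := by
  ext v
  rw [fderiv_cut, dst_zero (h.imp (arg_le ha hab) (le_arg ha hab)), zero_mul]
  rfl

/-- the gradient of the cut-off is at most an absolute constant over the width -/
lemma fderiv_cut_le : ∃ K : ℝ, 0 < K ∧ ∀ {F : Type} [NormedAddCommGroup F]
    [InnerProductSpace ℝ F] (c : F) (a b : ℝ), 0 ≤ a → a < b → ∀ y : F,
    ‖fderiv ℝ (cut c a b) y‖ ≤ K / (b - a) := by
  obtain ⟨K, hK0, hK⟩ := dst_bdd
  refine ⟨2 * K, by positivity, fun c a b ha hab y => ?_⟩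
  have hba : 0 < b - a := sub_pos.2 hab
  by_cases h : b ≤ ‖y - c‖
  · rw [fderiv_cut_zero ha hab (Or.inr h), norm_zero]; positivity
  refine ContinuousLinearMap.opNorm_le_bound _ (by positivity) fun v => ?_
  have hd : 0 < b ^ 2 - a ^ 2 := by nlinarith
  rw [fderiv_cut, Real.norm_eq_abs, abs_mul, abs_of_nonneg (dst_nonneg _), abs_div, abs_of_pos hd,
    abs_mul, abs_two]
  have h1 : |⟪y - c, v⟫| ≤ b * ‖v‖ :=
    (abs_real_inner_le_norm _ _).trans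
      (mul_le_mul_of_nonneg_right (not_le.1 h).le (norm_nonneg _))
  have h2 : 2 * |⟪y - c, v⟫| / (b ^ 2 - a ^ 2) ≤ 2 / (b - a) * ‖v‖ := by
    rw [div_mul_eq_mul_div, div_le_div_iff₀ hd hba]
    have h3 : 0 ≤ ‖v‖ * (b - a) * a := by positivity
    nlinarith [mul_le_mul_of_nonneg_right h1 hba.le]
  calc _ ≤ K * (2 / (b - a) * ‖v‖) := mul_le_mul (hK _) h2 (by positivity) hK0.le
    _ = _ := by ring

/-- gradient of the convex function `√(t0² + ‖y - c‖²)` -/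
noncomputable def Yf (c : F) (t0 : ℝ) (y : F) : F := (√(t0 ^ 2 + ‖y - c‖ ^ 2))⁻¹ • (y - c)

omit [InnerProductSpace ℝ F] in
lemma rad_pos (ht : 0 < t0) (y : F) : 0 < t0 ^ 2 + ‖y - c‖ ^ 2 := by positivity

lemma Yf_contDiff (c : F) (ht : 0 < t0) : ContDiff ℝ ∞ (Yf c t0) := by
  refine ContDiff.smul (ContDiff.inv (ContDiff.sqrt ?_ fun y => (rad_pos ht y).ne') fun y => ?_)
    (contDiff_id.sub contDiff_const)
  · exact contDiff_const.add ((contDiff_norm_sq ℝ).comp (contDiff_id.sub contDiff_const))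
  · exact (Real.sqrt_pos.2 (rad_pos ht y)).ne'

omit [InnerProductSpace ℝ F] in
lemma norm_le_rad (t0 : ℝ) (y : F) : ‖y - c‖ ≤ √(t0 ^ 2 + ‖y - c‖ ^ 2) :=
  Real.le_sqrt_of_sq_le (by nlinarith [sq_nonneg t0])

lemma Yf_le (ht : 0 < t0) (y : F) : ‖Yf c t0 y‖ ≤ 1 := by
  have hs := Real.sqrt_pos.2 (rad_pos (c := c) ht y)
  rw [Yf, norm_smul, Real.norm_eq_abs, abs_of_pos (inv_pos.2 hs), inv_mul_le_iff₀ hs, mul_one]
  exact norm_le_rad t0 y

lemma fderiv_Yf (ht : 0 < t0) (y v : F) :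
    fderiv ℝ (Yf c t0) y v = (√(t0 ^ 2 + ‖y - c‖ ^ 2))⁻¹ • v -
      (⟪y - c, v⟫ / √(t0 ^ 2 + ‖y - c‖ ^ 2) ^ 3) • (y - c) := by
  have hs := Real.sqrt_pos.2 (rad_pos (c := c) ht y)
  have h1 := ((hasFDerivAt_sq c y).const_add (t0 ^ 2)).sqrt (rad_pos ht y).ne'
  have h2 := (hasDerivAt_inv hs.ne').comp_hasFDerivAt y h1
  have h3 := h2.smul ((hasFDerivAt_id y).sub_const c)
  have e : Yf c t0 = ((fun y : ℝ => y⁻¹) ∘ fun y : F => √(t0 ^ 2 + ‖y - c‖ ^ 2)) •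
      fun y : F => id y - c := rfl
  rw [e, h3.fderiv]
  simp only [add_apply, smul_apply,
    ContinuousLinearMap.id_apply, ContinuousLinearMap.smulRight_apply, innerSL_apply_apply,
    smul_eq_mul, Function.comp, id]
  rw [sub_eq_add_neg ((√(t0 ^ 2 + ‖y - c‖ ^ 2))⁻¹ • v), ← neg_smul]
  congr 2
  field_simp

lemma fderiv_Yf_le (ht : 0 < t0) (y : F) : ‖fderiv ℝ (Yf c t0) y‖ ≤ 2 / t0 := by
  refine ContinuousLinearMap.opNorm_le_bound _ (by positivity) fun v => ?_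
  have hs := Real.sqrt_pos.2 (rad_pos (c := c) ht y)
  have h0 : t0 ≤ √(t0 ^ 2 + ‖y - c‖ ^ 2) :=
    Real.le_sqrt_of_sq_le (by nlinarith [sq_nonneg ‖y - c‖])
  have h1 := norm_le_rad (c := c) t0 y
  rw [fderiv_Yf ht]
  set s := √(t0 ^ 2 + ‖y - c‖ ^ 2)
  refine (norm_sub_le _ _).trans ?_
  rw [norm_smul, norm_smul, Real.norm_eq_abs, Real.norm_eq_abs, abs_of_pos (inv_pos.2 hs), abs_div,
    abs_of_pos (pow_pos hs 3)]
  have h2 : |⟪y - c, v⟫| ≤ s * ‖v‖ :=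
    (abs_real_inner_le_norm _ _).trans (mul_le_mul_of_nonneg_right h1 (norm_nonneg _))
  have h3 : |⟪y - c, v⟫| / s ^ 3 * ‖y - c‖ ≤ s⁻¹ * ‖v‖ := by
    calc _ ≤ s * ‖v‖ / s ^ 3 * s :=
          mul_le_mul (div_le_div_of_nonneg_right h2 (by positivity)) h1 (norm_nonneg _)
            (by positivity)
      _ = _ := by field_simp
  have h4 : s⁻¹ * ‖v‖ ≤ t0⁻¹ * ‖v‖ :=
    mul_le_mul_of_nonneg_right (inv_anti₀ ht h0) (norm_nonneg _)
  calc _ ≤ t0⁻¹ * ‖v‖ + t0⁻¹ * ‖v‖ := by linarith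
    _ = _ := by ring

lemma inner_fderiv_Yf (ht : 0 < t0) (y v : F) :
    t0 ^ 2 / √(t0 ^ 2 + ‖y - c‖ ^ 2) ^ 3 * ‖v‖ ^ 2 ≤ ⟪v, fderiv ℝ (Yf c t0) y v⟫ := by
  have hs := Real.sqrt_pos.2 (rad_pos (c := c) ht y)
  have hsq := Real.sq_sqrt (rad_pos (c := c) ht y).le
  rw [fderiv_Yf ht, inner_sub_right, inner_smul_right, inner_smul_right, real_inner_self_eq_norm_sq,
    real_inner_comm (y - c) v]
  have h1 : ⟪y - c, v⟫ ^ 2 ≤ ‖y - c‖ ^ 2 * ‖v‖ ^ 2 := by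
    rw [← mul_pow, ← sq_abs]
    exact pow_le_pow_left₀ (abs_nonneg _) (abs_real_inner_le_norm _ _) 2
  set s := √(t0 ^ 2 + ‖y - c‖ ^ 2)
  have e : s⁻¹ * ‖v‖ ^ 2 - ⟪y - c, v⟫ / s ^ 3 * ⟪y - c, v⟫
      = (s ^ 2 * ‖v‖ ^ 2 - ⟪y - c, v⟫ ^ 2) / s ^ 3 := by field_simp
  rw [e, div_mul_eq_mul_div]
  refine div_le_div_of_nonneg_right ?_ (by positivity)
  rw [hsq]
  linarith

/-- the test field of the Caccioppoli inequality -/
noncomputable def Ph (c : F) (t0 a b : ℝ) (y : F) : F := cut c a b y • Yf c t0 y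

lemma Ph_contDiff (c : F) (ht : 0 < t0) (a b : ℝ) : ContDiff ℝ ∞ (Ph c t0 a b) :=
  (cut_contDiff c a b).smul (Yf_contDiff c ht)

lemma Ph_le (ht : 0 < t0) (a b : ℝ) (y : F) : ‖Ph c t0 a b y‖ ≤ 1 := by
  rw [Ph, norm_smul, Real.norm_eq_abs, abs_of_nonneg (cut_nonneg c a b y)]
  exact mul_le_one₀ (cut_le_one c a b y) (norm_nonneg _) (Yf_le ht y)

lemma Ph_zero (ha : 0 ≤ a) (hab : a < b) {y : F} (h : ‖y - c‖ ≤ a) : Ph c t0 a b y = 0 := by
  rw [Ph, cut_zero ha hab h, zero_smul]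

lemma fderiv_Ph (ht : 0 < t0) (a b : ℝ) (y v : F) :
    fderiv ℝ (Ph c t0 a b) y v =
      cut c a b y • fderiv ℝ (Yf c t0) y v + fderiv ℝ (cut c a b) y v • Yf c t0 y := by
  have h1 := (((cut_contDiff c a b).differentiable (by simp)) y).hasFDerivAt
  have h2 := (((Yf_contDiff c ht).differentiable (by simp)) y).hasFDerivAt
  have e : Ph c t0 a b = cut c a b • Yf c t0 := rfl
  rw [e, (h1.smul h2).fderiv]
  simp

lemma inner_fderiv_Ph (ht : 0 < t0) (ha : 0 ≤ a) (hab : a < b) (y v : F) :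
    cut c a b y * (t0 ^ 2 / √(t0 ^ 2 + ‖y - c‖ ^ 2) ^ 3 * ‖v‖ ^ 2) ≤
      ⟪v, fderiv ℝ (Ph c t0 a b) y v⟫ := by
  rw [fderiv_Ph ht, inner_add_right, inner_smul_right, inner_smul_right]
  have h1 := mul_le_mul_of_nonneg_left (inner_fderiv_Yf (c := c) ht y v) (cut_nonneg c a b y)
  have h2 : 0 ≤ fderiv ℝ (cut c a b) y v * ⟪v, Yf c t0 y⟫ := by
    have hd : 0 < b ^ 2 - a ^ 2 := by nlinarith
    have hs := Real.sqrt_pos.2 (rad_pos (c := c) ht y)
    rw [fderiv_cut, Yf, inner_smul_right, real_inner_comm (y - c) v]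
    have := dst_nonneg ((‖y - c‖ ^ 2 - a ^ 2) / (b ^ 2 - a ^ 2))
    calc (0 : ℝ) ≤ deriv Real.smoothTransition ((‖y - c‖ ^ 2 - a ^ 2) / (b ^ 2 - a ^ 2)) *
          (2 / (b ^ 2 - a ^ 2) * (√(t0 ^ 2 + ‖y - c‖ ^ 2))⁻¹ * ⟪y - c, v⟫ ^ 2) := by positivity
      _ = _ := by ring
  linarith

end

lemma fderiv_Ph_bdd {F : Type} [NormedAddCommGroup F] [InnerProductSpace ℝ F] (c : F)
    {t0 a b : ℝ} (ht : 0 < t0) (ha : 0 ≤ a) (hab : a < b) :
    ∃ K, ∀ y, ‖fderiv ℝ (Ph c t0 a b) y‖ ≤ K := by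
  obtain ⟨K, hK0, hK⟩ := fderiv_cut_le
  have hba : 0 < b - a := sub_pos.2 hab
  refine ⟨2 / t0 + K / (b - a), fun y =>
    ContinuousLinearMap.opNorm_le_bound _ (by positivity) fun v => ?_⟩
  rw [fderiv_Ph ht]
  refine (norm_add_le _ _).trans ?_
  rw [norm_smul, norm_smul, Real.norm_eq_abs, abs_of_nonneg (cut_nonneg c a b y), add_mul]
  refine add_le_add ?_ ?_
  · calc _ ≤ 1 * (2 / t0 * ‖v‖) := mul_le_mul (cut_le_one c a b y)
          ((fderiv ℝ (Yf c t0) y).le_of_opNorm_le (fderiv_Yf_le ht y) v) (norm_nonneg _)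
          zero_le_one
      _ = _ := one_mul _
  · calc _ ≤ (K / (b - a) * ‖v‖) * 1 := mul_le_mul
          ((fderiv ℝ (cut c a b) y).le_of_opNorm_le (hK c a b ha hab y) v) (Yf_le ht y)
          (norm_nonneg _) (by positivity)
      _ = _ := mul_one _

end Pool.Agent.Lib.MP_a785f2_an.HS
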