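import Pool.Agent.Lib.MP_a785f2_an.HS.Defs

/-! The radial ramp and the gradient of `√(t0² + |y|²)`. -/

open MeasureTheory Metric Set Filter Topology
open scoped ContDiff RealInnerProductSpace ENNReal

namespace Pool.Agent.Lib.MP_a785f2_an.HS

variable {n m : ℕ}

theorem st_deriv_zero {q : ℝ} (h : q < 0 ∨ 1 < q) : deriv Real.smoothTransition q = 0 := by
  rcases h with h | h
  · have : Real.smoothTransition =ᶠ[𝓝 q] fun _ => 0 :=
      (eventually_lt_nhds h).mono fun x hx => Real.smoothTransition.zero_of_nonpos hx.le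
    rw [this.deriv_eq, deriv_const]
  · have : Real.smoothTransition =ᶠ[𝓝 q] fun _ => 1 :=
      (eventually_gt_nhds h).mono fun x hx => Real.smoothTransition.one_of_one_le hx.le
    rw [this.deriv_eq, deriv_const]

theorem st_deriv_bd : ∃ K : ℝ, 0 < K ∧ ∀ q, |deriv Real.smoothTransition q| ≤ K := by
  have hc : Continuous (deriv Real.smoothTransition) :=
    (Real.smoothTransition.contDiff (n := 1)).continuous_deriv le_rfl
  obtain ⟨K, hK⟩ := (isCompact_Icc (a := (0 : ℝ)) (b := 1)).exists_bound_of_continuousOn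
    hc.continuousOn
  refine ⟨|K| + 1, by positivity, fun q => ?_⟩
  by_cases h : q ∈ Icc (0 : ℝ) 1
  · have := hK q h
    rw [Real.norm_eq_abs] at this
    linarith [le_abs_self K]
  · rw [st_deriv_zero ((not_and_or.1 h).imp not_le.1 not_le.1), abs_zero]
    positivity

theorem ramp0 : ∃ C : ℝ, 0 < C ∧ ∀ (m : ℕ) (t t' : ℝ), 0 < t → t < t' →
    ∃ χ : V m → ℝ, ContDiff ℝ ∞ χ ∧ (∀ y, 0 ≤ χ y ∧ χ y ≤ 1) ∧ (∀ y, ‖y‖ ≤ t → χ y = 0) ∧
      (∀ y, t' ≤ ‖y‖ → χ y = 1) ∧ (∀ y, ‖fderiv ℝ χ y‖ ≤ C / (t' - t)) ∧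
      (∀ y, ‖y‖ < t ∨ t' < ‖y‖ → fderiv ℝ χ y = 0) ∧
      ∀ y ξ, 0 ≤ ⟪y, ξ⟫ * fderiv ℝ χ y ξ := by
  obtain ⟨K, K0, hK⟩ := st_deriv_bd
  refine ⟨2 * K, by positivity, fun m t t' t0 htt => ?_⟩
  have d0 : 0 < t' - t := sub_pos.2 htt
  have hd : 0 < t' ^ 2 - t ^ 2 := by nlinarith
  obtain ⟨q, hq⟩ : ∃ q : V m → ℝ, q = fun y => (t' ^ 2 - t ^ 2)⁻¹ * (‖y‖ ^ 2 - t ^ 2) := ⟨_, rfl⟩
  have qs : ContDiff ℝ ∞ q := by
    rw [hq]; exact contDiff_const.mul ((contDiff_norm_sq ℝ).sub contDiff_const)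
  have hD : ∀ y ξ, fderiv ℝ (fun y => Real.smoothTransition (q y)) y ξ =
      deriv Real.smoothTransition (q y) * ((t' ^ 2 - t ^ 2)⁻¹ * (2 * ⟪y, ξ⟫)) := by
    intro y ξ
    have h1 : HasFDerivAt q ((t' ^ 2 - t ^ 2)⁻¹ • (2 • innerSL ℝ y)) y := by
      rw [hq]
      exact ((hasStrictFDerivAt_norm_sq y).hasFDerivAt.sub_const _).const_mul _
    have h2 : HasDerivAt Real.smoothTransition (deriv Real.smoothTransition (q y)) (q y) :=
      ((Real.smoothTransition.contDiff (n := 1)).differentiable (by simp) _).hasDerivAt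
    have h3 := (h2.comp_hasFDerivAt y h1).fderiv
    have h4 : fderiv ℝ (fun y => Real.smoothTransition (q y)) y = _ := h3
    rw [h4]
    simp
  have hz : ∀ y, ‖y‖ < t ∨ t' < ‖y‖ → deriv Real.smoothTransition (q y) = 0 := by
    intro y hy
    refine st_deriv_zero (hy.imp (fun h => ?_) fun h => ?_)
    · rw [hq]
      exact mul_neg_of_pos_of_neg (inv_pos.2 hd) (by nlinarith [norm_nonneg y])
    · rw [hq]
      show 1 < (t' ^ 2 - t ^ 2)⁻¹ * (‖y‖ ^ 2 - t ^ 2)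
      rw [← div_eq_inv_mul, one_lt_div hd]
      nlinarith
  refine ⟨fun y => Real.smoothTransition (q y), Real.smoothTransition.contDiff.comp qs,
    fun y => ⟨Real.smoothTransition.nonneg _, Real.smoothTransition.le_one _⟩,
    fun y hy => Real.smoothTransition.zero_of_nonpos ?_,
    fun y hy => Real.smoothTransition.one_of_one_le ?_, fun y => ?_, fun y hy => ?_,
    fun y ξ => ?_⟩
  · rw [hq]
    exact mul_nonpos_of_nonneg_of_nonpos (inv_pos.2 hd).le (by nlinarith [norm_nonneg y])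
  · rw [hq]
    show 1 ≤ (t' ^ 2 - t ^ 2)⁻¹ * (‖y‖ ^ 2 - t ^ 2)
    rw [← div_eq_inv_mul, one_le_div hd]
    nlinarith
  · refine ContinuousLinearMap.opNorm_le_bound _ (by positivity) fun ξ => ?_
    rw [hD]
    rcases lt_or_ge t' ‖y‖ with h | h
    · rw [hz y (Or.inr h), zero_mul, norm_zero]; positivity
    · have h1 : |⟪y, ξ⟫| ≤ (t' + t) * ‖ξ‖ :=
        (abs_real_inner_le_norm _ _).trans
          (mul_le_mul_of_nonneg_right (by linarith) (norm_nonneg _))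
      have h2 : t' ^ 2 - t ^ 2 = (t' - t) * (t' + t) := by ring
      have h3 : 0 < t' + t := by linarith
      rw [Real.norm_eq_abs, abs_mul, abs_mul, abs_mul, abs_of_pos (inv_pos.2 hd), abs_two]
      calc _ ≤ K * ((t' ^ 2 - t ^ 2)⁻¹ * (2 * ((t' + t) * ‖ξ‖))) := by
            gcongr
            exact hK _
        _ = _ := by rw [h2]; field_simp
  · ext ξ
    rw [hD, hz y hy]; simp
  · rw [hD]
    have h1 : 0 ≤ deriv Real.smoothTransition (q y) :=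
      Real.smoothTransition.monotone.deriv_nonneg
    have h2 : ⟪y, ξ⟫ * (deriv Real.smoothTransition (q y) * ((t' ^ 2 - t ^ 2)⁻¹ * (2 * ⟪y, ξ⟫))) =
        deriv Real.smoothTransition (q y) * ((t' ^ 2 - t ^ 2)⁻¹ * (2 * ⟪y, ξ⟫ ^ 2)) := by ring
    rw [h2]
    positivity

/-- The field `y / √(t0² + |y|²)` and its derivative. -/
theorem fieldY {t0 : ℝ} (h0 : 0 < t0) : ∃ Y : V m → V m, ContDiff ℝ ∞ Y ∧ (∀ y, ‖Y y‖ ≤ 1) ∧
    (∀ y, ∃ c : ℝ, 0 ≤ c ∧ Y y = c • y) ∧ (∀ y, ‖fderiv ℝ Y y‖ ≤ 2 / t0) ∧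
    ∀ y ξ, t0 ^ 2 / √(t0 ^ 2 + ‖y‖ ^ 2) ^ 3 * ‖ξ‖ ^ 2 ≤ ⟪ξ, fderiv ℝ Y y ξ⟫ := by
  obtain ⟨R, hR⟩ : ∃ R : V m → ℝ, R = fun y => √(t0 ^ 2 + ‖y‖ ^ 2) := ⟨_, rfl⟩
  have hp : ∀ y : V m, 0 < t0 ^ 2 + ‖y‖ ^ 2 := fun y => by positivity
  have R0 : ∀ y, 0 < R y := fun y => by rw [hR]; exact Real.sqrt_pos.2 (hp y)
  have R2 : ∀ y, R y ^ 2 = t0 ^ 2 + ‖y‖ ^ 2 := fun y => by rw [hR]; exact Real.sq_sqrt (hp y).le
  have R1 : ∀ y, ‖y‖ ≤ R y := fun y =>
    abs_le_of_sq_le_sq' (by rw [R2]; nlinarith) (R0 y).le |>.2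
  have R3 : ∀ y, t0 ≤ R y := fun y =>
    abs_le_of_sq_le_sq' (by rw [R2]; nlinarith [norm_nonneg y]) (R0 y).le |>.2
  have Rs : ContDiff ℝ ∞ R := by
    rw [hR]; exact (contDiff_const.add (contDiff_norm_sq ℝ)).sqrt fun y => (hp y).ne'
  have hD : ∀ y ξ, fderiv ℝ (fun y => (R y)⁻¹ • y) y ξ =
      (R y)⁻¹ • ξ - (⟪y, ξ⟫ / R y ^ 3) • y := by
    intro y ξ
    have h1 : HasFDerivAt R ((1 / (2 * R y)) • (2 • innerSL ℝ y)) y := by
      rw [hR]
      exact ((hasStrictFDerivAt_norm_sq y).hasFDerivAt.const_add _).sqrt (hp y).ne'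
    have h2 := (hasDerivAt_inv (R0 y).ne').comp_hasFDerivAt y h1
    have h3 := (h2.smul (hasFDerivAt_id y)).fderiv
    have h4 : fderiv ℝ (fun y => (R y)⁻¹ • y) y = _ := h3
    have := (R0 y).ne'
    rw [h4, sub_eq_add_neg, ← neg_smul]
    simp only [ContinuousLinearMap.add_apply, ContinuousLinearMap.smul_apply,
      ContinuousLinearMap.id_apply, ContinuousLinearMap.smulRight_apply, Function.comp, id,
      innerSL_apply_apply, smul_eq_mul, nsmul_eq_mul, Nat.cast_ofNat]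
    congr 2
    field_simp
  refine ⟨fun y => (R y)⁻¹ • y, (Rs.inv fun y => (R0 y).ne').smul contDiff_id, fun y => ?_,
    fun y => ⟨_, (inv_pos.2 (R0 y)).le, rfl⟩, fun y => ?_, fun y ξ => ?_⟩
  · rw [norm_smul, norm_inv, Real.norm_of_nonneg (R0 y).le, ← div_eq_inv_mul, div_le_one (R0 y)]
    exact R1 y
  · refine ContinuousLinearMap.opNorm_le_bound _ (by positivity) fun ξ => ?_
    have r := R0 y
    have a1 : (R y)⁻¹ ≤ t0⁻¹ := inv_anti₀ h0 (R3 y)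
    have a2 : ‖(⟪y, ξ⟫ / R y ^ 3) • y‖ ≤ (R y)⁻¹ * ‖ξ‖ := by
      rw [norm_smul, Real.norm_eq_abs, abs_div, abs_of_pos (by positivity : 0 < R y ^ 3)]
      calc _ ≤ R y * ‖ξ‖ / R y ^ 3 * R y := by
            gcongr
            · exact (abs_real_inner_le_norm _ _).trans
                (mul_le_mul_of_nonneg_right (R1 y) (norm_nonneg _))
            · exact R1 y
        _ = _ := by field_simp
    have a3 : (R y)⁻¹ * ‖ξ‖ ≤ t0⁻¹ * ‖ξ‖ := mul_le_mul_of_nonneg_right a1 (norm_nonneg _)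
    rw [hD]
    refine (norm_sub_le _ _).trans ?_
    rw [norm_smul, norm_inv, Real.norm_of_nonneg r.le, div_eq_mul_inv 2]
    linarith
  · have r := R0 y
    have e : √(t0 ^ 2 + ‖y‖ ^ 2) = R y := by rw [hR]
    have a1 : ⟪y, ξ⟫ ^ 2 ≤ ‖y‖ ^ 2 * ‖ξ‖ ^ 2 := by
      rw [← mul_pow, ← sq_abs]
      exact pow_le_pow_left₀ (abs_nonneg _) (abs_real_inner_le_norm _ _) 2
    rw [hD, e, inner_sub_right, inner_smul_right, inner_smul_right, real_inner_self_eq_norm_sq,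
      real_inner_comm y ξ]
    have a2 : (R y)⁻¹ * ‖ξ‖ ^ 2 - ⟪y, ξ⟫ / R y ^ 3 * ⟪y, ξ⟫ =
        (R y ^ 2 * ‖ξ‖ ^ 2 - ⟪y, ξ⟫ ^ 2) / R y ^ 3 := by field_simp
    rw [a2, R2, div_mul_eq_mul_div]
    gcongr
    nlinarith

/-- The test map of the energy estimate. -/
theorem fieldP {t0 s t : ℝ} (h0 : 0 < t0) (hs : t0 ≤ s) (hst : s < t) :
    ∃ (Φ : V m → V m) (χ : V m → ℝ), Nice Φ ∧ (∀ y, ‖Φ y‖ ≤ 1) ∧ (∀ y, ‖y‖ ≤ s → Φ y = 0) ∧
      (∀ y, 0 ≤ χ y) ∧ (∀ y, t ≤ ‖y‖ → χ y = 1) ∧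
      ∀ y ξ, χ y * (t0 ^ 2 / √(t0 ^ 2 + ‖y‖ ^ 2) ^ 3) * ‖ξ‖ ^ 2 ≤ ⟪ξ, fderiv ℝ Φ y ξ⟫ := by
  obtain ⟨C, C0, hC⟩ := ramp0
  obtain ⟨χ, c1, c2, c3, c4, c5, -, c7⟩ := hC m s t (h0.trans_le hs) hst
  obtain ⟨Y, y1, y2, y3, y4, y5⟩ := fieldY (m := m) h0
  have d0 : 0 < t - s := sub_pos.2 hst
  have hD : ∀ y ξ, fderiv ℝ (fun y => χ y • Y y) y ξ =
      χ y • fderiv ℝ Y y ξ + fderiv ℝ χ y ξ • Y y := by
    intro y ξ
    have h3 := ((c1.differentiable (by simp) y).hasFDerivAt.smul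
      (y1.differentiable (by simp) y).hasFDerivAt).fderiv
    have h4 : fderiv ℝ (fun y => χ y • Y y) y = _ := h3
    rw [h4]
    simp
  have b1 : ∀ y, ‖χ y • Y y‖ ≤ 1 := fun y => by
    rw [norm_smul, Real.norm_of_nonneg (c2 y).1]
    exact mul_le_one₀ (c2 y).2 (norm_nonneg _) (y2 y)
  refine ⟨fun y => χ y • Y y, χ, ⟨c1.smul y1, 1 + (2 / t0 + C / (t - s)), fun y => ⟨?_, ?_⟩⟩, b1,
    fun y hy => by simp [c3 y hy], fun y => (c2 y).1, c4, fun y ξ => ?_⟩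
  · exact (b1 y).trans (le_add_of_nonneg_right (by positivity))
  · refine ContinuousLinearMap.opNorm_le_bound _ (by positivity) fun ξ => ?_
    have a1 : ‖χ y • fderiv ℝ Y y ξ‖ ≤ 2 / t0 * ‖ξ‖ := by
      rw [norm_smul, Real.norm_of_nonneg (c2 y).1]
      exact (mul_le_of_le_one_left (norm_nonneg _) (c2 y).2).trans
        ((fderiv ℝ Y y).le_of_opNorm_le (y4 y) ξ)
    have a2 : ‖fderiv ℝ χ y ξ • Y y‖ ≤ C / (t - s) * ‖ξ‖ := by
      rw [norm_smul]
      exact (mul_le_of_le_one_right (norm_nonneg _) (y2 y)).trans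
        ((fderiv ℝ χ y).le_of_opNorm_le (c5 y) ξ)
    rw [hD]
    refine (norm_add_le _ _).trans ?_
    nlinarith [norm_nonneg ξ]
  · obtain ⟨c, c0, hc⟩ := y3 y
    have a1 := mul_le_mul_of_nonneg_left (y5 y ξ) (c2 y).1
    have a2 := mul_nonneg c0 (c7 y ξ)
    rw [hD, inner_add_right, inner_smul_right, inner_smul_right, hc, inner_smul_right,
      real_inner_comm y ξ]
    nlinarith

theorem cacc' (hn : 2 ≤ n) {μ : Measure (D n)} {u : D n → V m} {G : D n → D n →L[ℝ] V m}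
    {f : D n → V m} {Λ t0 : ℝ} (h : Tgt μ u G f Λ t0) {s t : ℝ} (hs : t0 ≤ s) (hst : s < t) :
    ∫ x in {x | t ≤ ‖u x‖}, fro (G x) ^ n * (t0 ^ 2 / √(t0 ^ 2 + ‖u x‖ ^ 2) ^ 3) ∂μ ≤
      Λ * sig μ u G s := by
  obtain ⟨Φ, χ, hN, p1, p2, p3, p4, p5⟩ := fieldP (m := m) h.tp hs hst
  have hT := h.T Φ hN fun y hy => p2 y (hy.trans hs)
  obtain ⟨hΦ, B, hB⟩ := hN
  have mn : Measurable fun x => ‖u x‖ := h.mu.norm.measurable
  have m1 : MeasurableSet {x | t ≤ ‖u x‖} := measurableSet_le measurable_const mn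
  have m2 : MeasurableSet {x | s < ‖u x‖} := measurableSet_lt measurable_const mn
  have e1 : ∀ A : D n →L[ℝ] V m, fro A ^ n = fro A ^ (n - 2) * fro A ^ 2 := fun A => by
    rw [← pow_add]; congr 1; omega
  have e2 : ∀ A : D n →L[ℝ] V m, fro A ^ n = fro A ^ (n - 1) * fro A := fun A => by
    rw [← pow_succ]; congr 1; omega
  have hi : Integrable (fun x => pr (G x) ((fderiv ℝ Φ (u x)).comp (G x))) μ := by
    have c0 : Continuous fun p : V m × (D n →L[ℝ] V m) => (fderiv ℝ Φ p.1).comp p.2 :=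
      ((hΦ.continuous_fderiv (by simp)).comp continuous_fst).clm_comp continuous_snd
    have c1 : StronglyMeasurable fun x => (fderiv ℝ Φ (u x)).comp (G x) :=
      c0.comp_stronglyMeasurable (h.mu.prodMk h.mG)
    have c2 := (continuous_pr (n := n) (m := m)).comp_stronglyMeasurable (h.mG.prodMk c1)
    refine (h.iG.const_mul (n * (B * n))).mono' c2.aestronglyMeasurable
      (ae_of_all _ fun x => ?_)
    have a1 : ‖(fderiv ℝ Φ (u x)).comp (G x)‖ ≤ B * (n * fro (G x)) :=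
      (ContinuousLinearMap.opNorm_comp_le _ _).trans
        (mul_le_mul (hB _).2 (norm_le_fro _) (norm_nonneg _) ((norm_nonneg _).trans (hB 0).1))
    have f0 := fro_nonneg (G x)
    rw [Real.norm_eq_abs]
    calc _ ≤ _ := abs_pr_le hn _ _
      _ ≤ n * (fro (G x) ^ (n - 1) * (B * (n * fro (G x)))) := by gcongr
      _ = _ := by rw [e2]; ring
  have t0p := h.tp
  calc _ = ∫ x, indicator {x | t ≤ ‖u x‖}
        (fun x => fro (G x) ^ n * (t0 ^ 2 / √(t0 ^ 2 + ‖u x‖ ^ 2) ^ 3)) x ∂μ :=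
        (integral_indicator m1).symm
    _ ≤ ∫ x, pr (G x) ((fderiv ℝ Φ (u x)).comp (G x)) ∂μ := by
        refine integral_mono_of_nonneg (ae_of_all _ fun x => indicator_nonneg (fun x _ => ?_) x)
          hi (ae_of_all _ fun x => ?_)
        · have f0 := fro_nonneg (G x)
          positivity
        · have f0 := fro_nonneg (G x)
          have a1 : χ (u x) * (t0 ^ 2 / √(t0 ^ 2 + ‖u x‖ ^ 2) ^ 3) * fro (G x) ^ 2 ≤
              ∑ α, ⟪col (G x) α, col ((fderiv ℝ Φ (u x)).comp (G x)) α⟫ := by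
            rw [fro_sq, Finset.mul_sum]
            exact Finset.sum_le_sum fun α _ => p5 (u x) (col (G x) α)
          have a2 := mul_le_mul_of_nonneg_left a1 (pow_nonneg f0 (n - 2))
          refine le_trans ?_ a2
          by_cases hx : x ∈ {x | t ≤ ‖u x‖}
          · rw [indicator_of_mem hx, p4 _ hx, e1]
            exact le_of_eq (by ring)
          · rw [indicator_of_notMem hx]
            have := p3 (u x)
            positivity
    _ = ∫ x, ⟪f x, Φ (u x)⟫ ∂μ := hT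
    _ ≤ ∫ x, indicator {x | s < ‖u x‖} (fun x => Λ * jac (G x)) x ∂μ := by
        refine (Real.le_norm_self _).trans (norm_integral_le_of_norm_le
          ((h.iJ.const_mul Λ).indicator m2) (ae_of_all _ fun x => ?_))
        by_cases hx : x ∈ {x | s < ‖u x‖}
        · rw [indicator_of_mem hx]
          exact (norm_inner_le_norm _ _).trans
            ((mul_le_of_le_one_right (norm_nonneg _) (p1 _)).trans (h.bd x))
        · rw [indicator_of_notMem hx, p2 _ (not_lt.1 hx), inner_zero_right, norm_zero]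
    _ = _ := by rw [integral_indicator m2, integral_const_mul, sig]

end Pool.Agent.Lib.MP_a785f2_an.HS
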