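import Mathlib
import Pool.Agent.Lib.MP_a785f2_an.Defs

/-!
Internal vocabulary for the continuity theorem (right-hand side bounded by the top minors).
Domain `D n` carries the sup norm (balls are cubes), target `V m` is Euclidean.
-/

open MeasureTheory Metric Set Filter Topology
open scoped ContDiff RealInnerProductSpace ENNReal

namespace Pool.Agent.Lib.MP_a785f2_an.HS

abbrev D (n : ℕ) : Type := Fin n → ℝ
abbrev V (m : ℕ) : Type := EuclideanSpace ℝ (Fin m)

variable {n m : ℕ}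

/-- Column `α` of a linear map. -/
noncomputable def col (A : D n →L[ℝ] V m) (α : Fin n) : V m := A (Pi.single α 1)

/-- Frobenius norm. -/
noncomputable def fro (A : D n →L[ℝ] V m) : ℝ := √(∑ α, ‖col A α‖ ^ 2)

/-- The square matrix formed by the rows `I a`. -/
noncomputable def mat (A : D n →L[ℝ] V m) (I : Fin n → Fin m) : Matrix (Fin n) (Fin n) ℝ :=
  Matrix.of fun a α => col A α (I a)

/-- Sum of the absolute values of all top minors. -/
noncomputable def jac (A : D n →L[ℝ] V m) : ℝ := ∑ I : Fin n → Fin m, |(mat A I).det|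

/-- The pairing `|A|^(n-2) A : B`. -/
noncomputable def pr (A B : D n →L[ℝ] V m) : ℝ :=
  fro A ^ (n - 2) * ∑ α, ⟪col A α, col B α⟫

/-- Weak solution on the open set `Ω`, all data measurable and extended to the whole space. -/
structure Sol (Ω : Set (D n)) (u : D n → V m) (G : D n → D n →L[ℝ] V m) (f : D n → V m)
    (Λ : ℝ) : Prop where
  op : IsOpen Ω
  mu : StronglyMeasurable u
  mG : StronglyMeasurable G
  mf : StronglyMeasurable f
  lu : MemLp u n volume
  lG : MemLp G n volume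
  wk : ∀ φ : D n → ℝ, ContDiff ℝ ∞ φ → HasCompactSupport φ → tsupport φ ⊆ Ω → ∀ v : D n,
    ∫ x, fderiv ℝ φ x v • u x = -∫ x, φ x • G x v
  eq : ∀ φ : D n → V m, ContDiff ℝ ∞ φ → HasCompactSupport φ → tsupport φ ⊆ Ω →
    ∫ x, pr (G x) (fderiv ℝ φ x) = ∫ x, ⟪f x, φ x⟫
  L0 : 0 ≤ Λ
  bd : ∀ x, ‖f x‖ ≤ Λ * jac (G x)

/-- Smooth maps `w k` approximate `(u, G)` on `K`. -/
structure Apx (K : Set (D n)) (u : D n → V m) (G : D n → D n →L[ℝ] V m)
    (w : ℕ → D n → V m) : Prop where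
  sm : ∀ k, ContDiff ℝ ∞ (w k)
  ae : ∀ᵐ x ∂(volume.restrict K), Tendsto (fun k => w k x) atTop (𝓝 (u x))
  lu : Tendsto (fun k => ∫⁻ x in K, ‖w k x - u x‖ₑ ^ n) atTop (𝓝 0)
  lG : Tendsto (fun k => ∫⁻ x in K, ‖fderiv ℝ (w k) x - G x‖ₑ ^ n) atTop (𝓝 0)

/-- Converging boxes on whose boundary `w k` stays in the open ball of radius `t0`. -/
structure Box (x0 : D n) (r t0 : ℝ) (w : ℕ → D n → V m) (a b : ℕ → D n) (a0 b0 : D n) :
    Prop where
  sub : ∀ k, Icc (a k) (b k) ⊆ closedBall x0 (2 * r)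
  ta : Tendsto a atTop (𝓝 a0)
  tb : Tendsto b atTop (𝓝 b0)
  bdry : ∀ k, ∀ x ∈ Icc (a k) (b k), (∃ i, x i = a k i ∨ x i = b k i) → ‖w k x‖ < t0
  lo : ball x0 r ⊆ Icc a0 b0
  hi : Icc a0 b0 ⊆ closedBall x0 (2 * r)

/-- The area inequality (with a constant) for all coordinate projections of `u`. -/
def Area (μ : Measure (D n)) (u : D n → V m) (G : D n → D n →L[ℝ] V m) : Prop :=
  ∀ (I : Fin n → Fin m) (A : Set (D n)), MeasurableSet A → ∃ A' ⊆ A,
    (∀ᵐ x ∂μ, x ∈ A → (mat (G x) I).det ≠ 0 → x ∈ A') ∧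
    volume ((fun x (a : Fin n) => u x (I a)) '' A') ≤
      2 ^ (n + 1) * ∫⁻ x in A, ENNReal.ofReal |(mat (G x) I).det| ∂μ

/-- Smooth, bounded, with bounded derivative. -/
def Nice {W : Type} [NormedAddCommGroup W] [NormedSpace ℝ W] (Φ : V m → W) : Prop :=
  ContDiff ℝ ∞ Φ ∧ ∃ B : ℝ, ∀ y, ‖Φ y‖ ≤ B ∧ ‖fderiv ℝ Φ y‖ ≤ B

/-- Everything the argument on the target side needs. -/
structure Tgt (μ : Measure (D n)) (u : D n → V m) (G : D n → D n →L[ℝ] V m) (f : D n → V m)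
    (Λ t0 : ℝ) : Prop where
  mu : StronglyMeasurable u
  mG : StronglyMeasurable G
  mf : StronglyMeasurable f
  iG : Integrable (fun x => fro (G x) ^ n) μ
  L0 : 0 ≤ Λ
  tp : 0 < t0
  bd : ∀ x, ‖f x‖ ≤ Λ * jac (G x)
  T : ∀ Φ : V m → V m, Nice Φ → (∀ y, ‖y‖ ≤ t0 → Φ y = 0) →
    ∫ x, pr (G x) ((fderiv ℝ Φ (u x)).comp (G x)) ∂μ = ∫ x, ⟪f x, Φ (u x)⟫ ∂μ
  area : Area μ u G

/-- Area carried above the level `t`. -/
noncomputable def sig (μ : Measure (D n)) (u : D n → V m) (G : D n → D n →L[ℝ] V m) (t : ℝ) : ℝ :=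
  ∫ x in {x | t < ‖u x‖}, jac (G x) ∂μ

theorem fro_nonneg (A : D n →L[ℝ] V m) : 0 ≤ fro A := Real.sqrt_nonneg _

theorem fro_sq (A : D n →L[ℝ] V m) : fro A ^ 2 = ∑ α, ‖col A α‖ ^ 2 :=
  Real.sq_sqrt (Finset.sum_nonneg fun _ _ => sq_nonneg _)

theorem col_le_fro (A : D n →L[ℝ] V m) (α : Fin n) : ‖col A α‖ ≤ fro A := by
  refine Real.le_sqrt_of_sq_le ?_
  exact Finset.single_le_sum (f := fun β => ‖col A β‖ ^ 2) (fun _ _ => sq_nonneg _)
    (Finset.mem_univ α)

theorem col_le_norm (A : D n →L[ℝ] V m) (α : Fin n) : ‖col A α‖ ≤ ‖A‖ := by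
  have h := A.le_opNorm (Pi.single α 1)
  rw [Pi.norm_single, norm_one, mul_one] at h
  exact h

theorem fro_le_norm (A : D n →L[ℝ] V m) : fro A ≤ n * ‖A‖ := by
  have h0 : 0 ≤ (n : ℝ) * ‖A‖ := by positivity
  refine Real.sqrt_le_iff.2 ⟨h0, ?_⟩
  calc ∑ α, ‖col A α‖ ^ 2 ≤ ∑ _α : Fin n, ‖A‖ ^ 2 :=
        Finset.sum_le_sum fun α _ => pow_le_pow_left₀ (norm_nonneg _) (col_le_norm A α) 2
    _ = n * ‖A‖ ^ 2 := by simp
    _ ≤ (n * ‖A‖) ^ 2 := by
        have : (n : ℝ) ≤ (n : ℝ) ^ 2 := by exact_mod_cast Nat.le_self_pow two_ne_zero n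
        rw [mul_pow]; exact mul_le_mul_of_nonneg_right this (sq_nonneg _)

theorem apply_eq_sum (A : D n →L[ℝ] V m) (v : D n) : A v = ∑ α, v α • col A α := by
  have h : v = ∑ α, v α • (Pi.single α 1 : D n) := by
    ext j; simp [Finset.sum_apply, Pi.single_apply]
  conv_lhs => rw [h]
  simp only [map_sum, map_smul, col]

theorem norm_le_fro (A : D n →L[ℝ] V m) : ‖A‖ ≤ n * fro A := by
  refine A.opNorm_le_bound (mul_nonneg (Nat.cast_nonneg _) (fro_nonneg A)) fun v => ?_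
  rw [apply_eq_sum]
  calc ‖∑ α, v α • col A α‖ ≤ ∑ α, ‖v α • col A α‖ := norm_sum_le _ _
    _ ≤ ∑ _α : Fin n, fro A * ‖v‖ := Finset.sum_le_sum fun α _ => by
        rw [norm_smul, mul_comm]
        exact mul_le_mul (col_le_fro A α) (norm_le_pi_norm v α) (norm_nonneg _) (fro_nonneg A)
    _ = n * fro A * ‖v‖ := by simp [mul_assoc]

theorem eq_zero_of_fro (A : D n →L[ℝ] V m) (h : fro A = 0) : A = 0 := by
  have := norm_le_fro A
  rw [h, mul_zero] at this
  exact norm_le_zero_iff.1 this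

theorem abs_det_le (A : D n →L[ℝ] V m) (I : Fin n → Fin m) :
    |(mat A I).det| ≤ n.factorial * fro A ^ n := by
  have h := Matrix.det_le (A := mat A I) (abv := AbsoluteValue.abs) (x := fro A) fun a α => by
    have h1 : |col A α (I a)| ≤ ‖col A α‖ := by
      simpa using PiLp.norm_apply_le (col A α) (I a)
    exact h1.trans (col_le_fro A α)
  simpa using h

theorem jac_nonneg (A : D n →L[ℝ] V m) : 0 ≤ jac A :=
  Finset.sum_nonneg fun _ _ => abs_nonneg _

theorem jac_le (A : D n →L[ℝ] V m) : jac A ≤ (m : ℝ) ^ n * n.factorial * fro A ^ n := by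
  calc jac A ≤ ∑ _I : Fin n → Fin m, (n.factorial : ℝ) * fro A ^ n :=
        Finset.sum_le_sum fun I _ => abs_det_le A I
    _ = _ := by simp [mul_assoc]

theorem abs_pr_le (hn : 2 ≤ n) (A B : D n →L[ℝ] V m) :
    |pr A B| ≤ n * (fro A ^ (n - 1) * ‖B‖) := by
  have h0 := fro_nonneg A
  have h1 : |∑ α, ⟪col A α, col B α⟫| ≤ n * (fro A * ‖B‖) := by
    calc |∑ α, ⟪col A α, col B α⟫| ≤ ∑ α, |⟪col A α, col B α⟫| := Finset.abs_sum_le_sum_abs _ _
      _ ≤ ∑ _α : Fin n, fro A * ‖B‖ := Finset.sum_le_sum fun α _ =>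
          (abs_real_inner_le_norm _ _).trans
            (mul_le_mul (col_le_fro A α) (col_le_norm B α) (norm_nonneg _) h0)
      _ = _ := by simp
  have h2 : fro A ^ (n - 1) = fro A ^ (n - 2) * fro A := by
    rw [← pow_succ]; congr 1; omega
  rw [pr, abs_mul, abs_of_nonneg (pow_nonneg h0 _), h2]
  calc fro A ^ (n - 2) * |∑ α, ⟪col A α, col B α⟫| ≤ fro A ^ (n - 2) * (n * (fro A * ‖B‖)) :=
        mul_le_mul_of_nonneg_left h1 (pow_nonneg h0 _)
    _ = _ := by ring

theorem continuous_col (α : Fin n) : Continuous fun A : D n →L[ℝ] V m => col A α := by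
  unfold col; fun_prop

theorem continuous_fro : Continuous fun A : D n →L[ℝ] V m => fro A := by
  unfold fro
  exact Real.continuous_sqrt.comp
    (continuous_finsetSum _ fun α _ => ((continuous_col α).norm).pow 2)

theorem continuous_det (I : Fin n → Fin m) :
    Continuous fun A : D n →L[ℝ] V m => (mat A I).det := by
  refine Continuous.matrix_det (continuous_matrix fun a α => ?_)
  exact (EuclideanSpace.proj (I a) : V m →L[ℝ] ℝ).continuous.comp (continuous_col α)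

theorem continuous_jac : Continuous fun A : D n →L[ℝ] V m => jac A :=
  continuous_finsetSum _ fun I _ => (continuous_det I).abs

theorem continuous_pr : Continuous fun p : (D n →L[ℝ] V m) × (D n →L[ℝ] V m) => pr p.1 p.2 := by
  unfold pr
  exact ((continuous_fro.comp continuous_fst).pow _).mul (continuous_finsetSum _ fun α _ =>
    ((continuous_col α).comp continuous_fst).inner ((continuous_col α).comp continuous_snd))

theorem Apx.mono {K K' : Set (D n)} {u : D n → V m} {G : D n → D n →L[ℝ] V m}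
    {w : ℕ → D n → V m} (h : Apx K u G w) (hK : K' ⊆ K) : Apx K' u G w where
  sm := h.sm
  ae := ae_restrict_of_ae_restrict_of_subset hK h.ae
  lu := tendsto_of_tendsto_of_tendsto_of_le_of_le tendsto_const_nhds h.lu (fun _ => zero_le)
    fun _ => lintegral_mono_set hK
  lG := tendsto_of_tendsto_of_tendsto_of_le_of_le tendsto_const_nhds h.lG (fun _ => zero_le)
    fun _ => lintegral_mono_set hK

theorem Tgt.iJ {μ : Measure (D n)} {u : D n → V m} {G : D n → D n →L[ℝ] V m} {f : D n → V m}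
    {Λ t0 : ℝ} (h : Tgt μ u G f Λ t0) : Integrable (fun x => jac (G x)) μ := by
  refine (h.iG.const_mul ((m : ℝ) ^ n * n.factorial)).mono'
    (continuous_jac.comp_stronglyMeasurable h.mG).aestronglyMeasurable
    (ae_of_all _ fun x => ?_)
  rw [Real.norm_of_nonneg (jac_nonneg _)]
  exact jac_le _

theorem sig_nonneg (μ : Measure (D n)) (u : D n → V m) (G : D n → D n →L[ℝ] V m) (t : ℝ) :
    0 ≤ sig μ u G t := integral_nonneg fun _ => jac_nonneg _

theorem Tgt.sig_anti {μ : Measure (D n)} {u : D n → V m} {G : D n → D n →L[ℝ] V m}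
    {f : D n → V m} {Λ t0 : ℝ} (h : Tgt μ u G f Λ t0) {s t : ℝ} (hst : s ≤ t) :
    sig μ u G t ≤ sig μ u G s :=
  setIntegral_mono_set h.iJ.integrableOn (ae_of_all _ fun _ => jac_nonneg _)
    (LE.le.eventuallyLE fun _ hx => lt_of_le_of_lt hst hx)

end Pool.Agent.Lib.MP_a785f2_an.HS
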