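import Pool.Agent.Lib.MP_a785f2_an.Defs

/-! The `H`-system has a right-hand side bounded by the top minors of the gradient. -/

open MeasureTheory

namespace Pool.Agent.Lib.MP_a785f2_an

variable {n : ℕ}

/-- The `i`-th coordinate of the cross product of `n` vectors of `ℝ^(n+1)`: the determinant of the
matrix with rows `v 1, ..., v n` and the `i`-th basis vector. -/
noncomputable def cross (v : Fin n → Fin (n + 1) → ℝ) (i : Fin (n + 1)) : ℝ :=
  (Matrix.of (Fin.snoc v (Pi.single i 1) : Fin (n + 1) → Fin (n + 1) → ℝ)).det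

theorem cross_eq (v : Fin n → Fin (n + 1) → ℝ) (i : Fin (n + 1)) :
    cross v i = (-1) ^ (n + i) * (Matrix.of fun a α => v α (i.succAbove a)).det := by
  rw [cross, Matrix.det_succ_row _ (Fin.last n), Finset.sum_eq_single i
    (fun j _ h => by simp [Pi.single_eq_of_ne h]) (by simp), ← Matrix.det_transpose]
  simp only [Matrix.of_apply, Fin.snoc_last, Pi.single_eq_same, mul_one, Fin.val_last]
  congr 2
  ext a α
  simp

theorem hsystem (u : Fin (n + 1) → E n → ℝ) (G : Fin (n + 1) → Fin n → E n → ℝ)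
    (gen : ∀ (f : Fin (n + 1) → E n → ℝ) (Λ : ℝ),
      (∀ i, AEStronglyMeasurable (f i) (ballMeasure n)) →
      (∀ i, ∀ᵐ x ∂(ballMeasure n), |f i x| ≤
        Λ * ∑ I : Fin n → Fin (n + 1), |(Matrix.of fun a α => G (I a) α x).det|) →
      (∀ i φ, IsTest φ →
        ∫ x, ∑ α, gradNorm G x ^ (n - 2) * G i α x * pd α φ x ∂(ballMeasure n) =
          ∫ x, f i x * φ x ∂(ballMeasure n)) → HasContinuousRep u)
    (hu : IsW1n u G) (H : E (n + 1) → ℝ) (hH : Measurable H) (Λ : ℝ) (hb : ∀ y, |H y| ≤ Λ)
    (he : ∀ i φ, IsTest φ →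
      ∫ x, ∑ α, gradNorm G x ^ (n - 2) * G i α x * pd α φ x ∂(ballMeasure n) =
        ∫ x, H (WithLp.toLp 2 fun j => u j x) * cross (fun α j => G j α x) i * φ x
          ∂(ballMeasure n)) : HasContinuousRep u := by
  refine gen _ Λ (fun i => ?_) (fun i => ae_of_all _ fun x => ?_) he
  · refine AEStronglyMeasurable.mul (hH.comp_aemeasurable ?_).aestronglyMeasurable ?_
    · exact (PiLp.continuous_toLp 2 _).measurable.comp_aemeasurable
        (aemeasurable_pi_lambda _ fun j => (hu.1 j).1.aemeasurable)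
    · simp only [cross_eq, Matrix.det_apply', Matrix.of_apply]
      exact AEStronglyMeasurable.const_mul (Finset.aestronglyMeasurable_fun_sum _ fun σ _ =>
        AEStronglyMeasurable.const_mul (Finset.aestronglyMeasurable_fun_prod _ fun a _ =>
          (hu.2.1 _ _).1) _) _
  · rw [abs_mul, cross_eq, abs_mul, abs_pow, abs_neg, abs_one, one_pow, one_mul]
    exact mul_le_mul (hb _) (Finset.single_le_sum
      (f := fun I : Fin n → Fin (n + 1) => |(Matrix.of fun a α => G (I a) α x).det|)
      (fun _ _ => abs_nonneg _) (Finset.mem_univ i.succAbove)) (abs_nonneg _)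
      ((abs_nonneg _).trans (hb 0))

end Pool.Agent.Lib.MP_a785f2_an
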