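import Pool.Agent.Lib.MP_a785f2_an.HS.MA2

/-! The smooth monotone field obtained by mollifying the transport potential. -/

namespace Pool.Agent.Lib.MP_a785f2_an.HS

open MeasureTheory Set Finset Filter Topology Matrix Metric
open scoped Convolution ContDiff

variable {n : ℕ}

theorem snd_ge {H H' : ℝ → ℝ} {a c : ℝ} (h1 : ∀ s, HasDerivAt H (H' s) s) (h2 : HasDerivAt H' a 0)
    (e1 : H 0 = 0) (e2 : H' 0 = 0) (k : ∀ᶠ s in 𝓝[>] (0 : ℝ), c * s ^ 2 ≤ H s) : 2 * c ≤ a := by
  by_contra hc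
  have t := (h2.tendsto_slope_zero_right).eventually (gt_mem_nhds (not_le.1 hc))
  obtain ⟨δ, hδ, hd⟩ := mem_nhdsGT_iff_exists_Ioo_subset.1 (t.and k)
  have hδ' : 0 < δ := hδ
  have d : ∀ s, HasDerivAt (fun s => H s - c * s ^ 2) (H' s - c * (2 * s)) s := fun s =>
    (h1 s).sub (by simpa using (hasDerivAt_pow 2 s).const_mul c)
  obtain ⟨x, hx, e⟩ := exists_hasDerivAt_eq_slope _ _ (by linarith : 0 < δ / 2)
    (fun s _ => (d s).continuousAt.continuousWithinAt) fun s _ => d s
  have a1 := (hd ⟨hx.1, by linarith [hx.2]⟩).1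
  have a2 := (hd (⟨by linarith, by linarith⟩ : δ / 2 ∈ Ioo 0 δ)).2
  rw [zero_add, e2, sub_zero, smul_eq_mul, inv_mul_lt_iff₀ hx.1] at a1
  have a3 : 0 ≤ (H (δ / 2) - c * (δ / 2) ^ 2 - (H 0 - c * 0 ^ 2)) / (δ / 2 - 0) :=
    div_nonneg (by rw [e1]; linarith) (by linarith)
  linarith

/-- The gradient in coordinates. -/
noncomputable def gr (f : (Fin n → ℝ) → ℝ) (y : Fin n → ℝ) : Fin n → ℝ :=
  fun k => fderiv ℝ f y (Pi.single k 1)

theorem dot_gr (f : (Fin n → ℝ) → ℝ) (y v : Fin n → ℝ) : v ⬝ᵥ gr f y = fderiv ℝ f y v := by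
  conv_rhs => rw [← Finset.univ_sum_single v, map_sum]
  refine Finset.sum_congr rfl fun k _ => ?_
  rw [gr, ← smul_eq_mul, ← map_smul, ← Pi.single_smul', smul_eq_mul, mul_one]

theorem gr_smooth {f : (Fin n → ℝ) → ℝ} (h : ContDiff ℝ ∞ f) : ContDiff ℝ ∞ (gr f) :=
  contDiff_pi.2 fun _ => (h.fderiv_right (m := ∞) (by simp)).clm_apply contDiff_const

theorem line_der {f : (Fin n → ℝ) → ℝ} (h : ContDiff ℝ ∞ f) (y v : Fin n → ℝ) :
    (∀ s : ℝ, HasDerivAt (fun s : ℝ => f (y + s • v)) (v ⬝ᵥ gr f (y + s • v)) s) ∧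
      HasDerivAt (fun s : ℝ => v ⬝ᵥ gr f (y + s • v)) (v ⬝ᵥ fderiv ℝ (gr f) y v) 0 := by
  have l : ∀ s : ℝ, HasDerivAt (fun s : ℝ => y + s • v) v s := fun s => by
    simpa using ((hasDerivAt_id s).smul_const v).const_add y
  refine ⟨fun s => ?_, ?_⟩
  · rw [dot_gr]
    exact ((h.differentiable (by simp)) _).hasFDerivAt.comp_hasDerivAt s (l s)
  · have a : HasDerivAt (fun s : ℝ => gr f (y + s • v)) (fderiv ℝ (gr f) y v) 0 :=
      (((gr_smooth h).differentiable (by simp)) y).hasFDerivAt.comp_hasDerivAt_of_eq 0 (l 0)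
        (by simp)
    exact HasDerivAt.fun_sum fun k _ => (hasDerivAt_pi.1 a k).const_mul (v k)

theorem hess_ge {ι : Type} [Fintype ι] {f : (Fin n → ℝ) → ℝ} (h : ContDiff ℝ ∞ f) (y : Fin n → ℝ)
    (v : ι → Fin n → ℝ) {c : ℝ}
    (k : ∀ᶠ s in 𝓝[>] (0 : ℝ), c * s ^ 2 ≤ ∑ i, (f (y + s • v i) + f (y - s • v i) - 2 * f y)) :
    c ≤ ∑ i, v i ⬝ᵥ fderiv ℝ (gr f) y (v i) := by
  have := snd_ge (c := c) (H := fun s => ∑ i, (f (y + s • v i) + f (y + s • -v i) - 2 * f y))
    (fun s => HasDerivAt.fun_sum fun i _ =>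
      (((line_der h y (v i)).1 s).add ((line_der h y (-v i)).1 s)).sub_const _)
    (HasDerivAt.fun_sum fun i _ => (line_der h y (v i)).2.add (line_der h y (-v i)).2)
    (Finset.sum_eq_zero fun i _ => by simp [two_mul]) (by simp)
    (by simpa only [smul_neg, ← sub_eq_add_neg] using k)
  simp only [map_neg, neg_dotProduct_neg, ← two_mul, ← Finset.mul_sum] at this
  linarith

/-- The mollified transport field. -/
theorem ma_field (hn : 0 < n) {U : Set (Fin n → ℝ)} (hU : MeasurableSet U)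
    (hb : Bornology.IsBounded U) {R ε : ℝ} (hR : 0 < R) (hv : volume.real U ≤ (2 * R) ^ n)
    (hε : 0 < ε) :
    ∃ g : (Fin n → ℝ) → Fin n → ℝ, ContDiff ℝ ∞ g ∧ (∀ y k, |g y k| ≤ R) ∧
      (∃ K, ∀ y, ‖fderiv ℝ g y‖ ≤ K) ∧ (∀ y v, 0 ≤ v ⬝ᵥ fderiv ℝ g y v) ∧
      ∀ y, closedBall y (2 * ε) ⊆ U → ∀ T : Matrix (Fin n) (Fin n) ℝ,
        T.det ^ 2 ≤ (8 * n * ∑ k, T.col k ⬝ᵥ fderiv ℝ g y (T.col k)) ^ n := by
  obtain ⟨θ, cv, lp, ma⟩ := ma_lemma hn hU hb hR hv
  have ct := cont_of_lip lp
  let φ : ContDiffBump (0 : Fin n → ℝ) := ⟨ε / 2, ε, by positivity, by linarith⟩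
  let η := φ.normed volume
  have cs : HasCompactSupport η := φ.hasCompactSupport_normed
  have sm : ContDiff ℝ ∞ η := φ.contDiff_normed
  have η0 : ∀ t, 0 ≤ η t := φ.nonneg_normed
  have η1 : ∫ t, η t = 1 := φ.integral_normed
  let L := ContinuousLinearMap.lsmul ℝ ℝ (E := ℝ)
  let f := η ⋆[L, volume] θ
  have hf : ContDiff ℝ ∞ f := cs.contDiff_convolution_left L sm ct.locallyIntegrable
  have fe : ∀ y, f y = ∫ t, η t * θ (y - t) := fun y => rfl
  have it : ∀ {k : (Fin n → ℝ) → ℝ}, Continuous k → Integrable fun t => η t * k t := fun hk =>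
    (sm.continuous.mul hk).integrable_of_hasCompactSupport cs.mul_right
  have avg : ∀ {k : (Fin n → ℝ) → ℝ} {c : ℝ}, Continuous k → (∀ t ∈ ball 0 ε, c ≤ k t) →
      c ≤ ∫ t, η t * k t := fun {k c} hk h => by
    have := integral_mono (it (continuous_const (y := c))) (it hk) fun t => by
      by_cases a : η t = 0
      · simp only [a, zero_mul, le_refl]
      · exact mul_le_mul_of_nonneg_left (h t ((φ.support_normed_eq (μ := volume)).subset a)) (η0 t)
    rwa [integral_mul_const, η1, one_mul] at this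
  have sub : ∀ p q, f p - f q = ∫ t, η t * (θ (p - t) - θ (q - t)) := fun p q => by
    rw [fe, fe, ← integral_sub (it (by fun_prop)) (it (by fun_prop))]
    simp only [mul_sub]
  have dif : ∀ {ι : Type} [Fintype ι] (y : Fin n → ℝ) (v : ι → Fin n → ℝ),
      ∑ i, (f (y + v i) + f (y - v i) - 2 * f y) =
        ∫ t, η t * ∑ i, (θ (y - t + v i) + θ (y - t - v i) - 2 * θ (y - t)) := fun y v => by
    simp only [Finset.mul_sum]
    rw [integral_finsetSum _ fun i _ => it (by fun_prop)]
    refine Finset.sum_congr rfl fun i _ => ?_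
    have : f (y + v i) + f (y - v i) - 2 * f y = (f (y + v i) - f y) + (f (y - v i) - f y) := by
      ring
    rw [this, sub, sub, ← integral_add (it (by fun_prop)) (it (by fun_prop))]
    refine integral_congr_ae (Eventually.of_forall fun t => ?_)
    beta_reduce
    rw [add_sub_right_comm, sub_right_comm y (v i)]
    ring
  have fl : ∀ p q, f p - f q ≤ R * ∑ i, |p i - q i| := fun p q => by
    have := avg (k := fun t => θ (q - t) - θ (p - t)) (c := -(R * ∑ i, |p i - q i|)) (by fun_prop)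
      fun t _ => by
        have := (abs_le.1 (lp (p - t) (q - t))).2
        simp only [Pi.sub_apply, sub_sub_sub_cancel_right] at this
        linarith
    rw [← sub] at this
    linarith
  refine ⟨gr f, gr_smooth hf, fun y k => ?_, ?_, fun y v => ?_, fun y hy T => ?_⟩
  · have a := (line_der hf y (Pi.single k 1)).1 0
    rw [single_dotProduct, one_mul, zero_smul, add_zero] at a
    refine a.le_of_lip' hR.le (Eventually.of_forall fun s => ?_)
    have e : ∑ i, |(s • Pi.single k 1 : Fin n → ℝ) i| = |s| := by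
      rw [Finset.sum_eq_single k (fun j _ hj => by simp [hj]) (by simp)]
      simp
    have b1 := fl (y + s • Pi.single k 1) y
    have b2 := fl y (y + s • Pi.single k 1)
    simp only [Pi.add_apply, add_sub_cancel_left, sub_add_cancel_left, abs_neg, e] at b1 b2
    rw [zero_smul, add_zero, sub_zero, Real.norm_eq_abs, Real.norm_eq_abs]
    exact abs_le.2 ⟨by linarith, b1⟩
  · let L' := L.precompL (Fin n → ℝ)
    have c1 : Continuous (fderiv ℝ η) := sm.continuous_fderiv (by simp)
    have le : ∀ A a, L' A a = a • A := fun A a => by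
      ext
      simp [L', L, mul_comm]
    have de : ∀ y, fderiv ℝ f y = ∫ t, θ (y - t) • fderiv ℝ η t := fun y => by
      simp only [← le]
      exact (cs.hasFDerivAt_convolution_left L (sm.of_le (by simp)) ct.locallyIntegrable y).fderiv
    have ie : ∀ y, Integrable fun t => θ (y - t) • fderiv ℝ η t := fun y => by
      simp only [← le]
      exact (cs.fderiv ℝ).convolutionExists_left L' c1 ct.locallyIntegrable y
    let K : ℝ := ∫ t, ‖fderiv ℝ η t‖ * (R * n)
    have iK : Integrable fun t => ‖fderiv ℝ η t‖ * (R * n) :=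
      (c1.integrable_of_hasCompactSupport (cs.fderiv ℝ)).norm.mul_const _
    have K0 : 0 ≤ K := integral_nonneg fun t => by positivity
    have lF : ∀ p q, ‖fderiv ℝ f p - fderiv ℝ f q‖ ≤ K * ‖p - q‖ := fun p q => by
      rw [de, de, ← integral_sub (ie p) (ie q), ← integral_mul_const]
      refine norm_integral_le_of_norm_le (iK.mul_const _) (Eventually.of_forall fun t => ?_)
      have e : θ (p - t) • fderiv ℝ η t - θ (q - t) • fderiv ℝ η t =
          (θ (p - t) - θ (q - t)) • fderiv ℝ η t := (sub_smul _ _ _).symm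
      have e' : ‖(θ (p - t) - θ (q - t)) • fderiv ℝ η t‖ =
          ‖θ (p - t) - θ (q - t)‖ * ‖fderiv ℝ η t‖ := norm_smul _ _
      rw [e, e', mul_comm, mul_assoc, mul_assoc R]
      refine mul_le_mul_of_nonneg_left ((lp _ _).trans
        (mul_le_mul_of_nonneg_left ?_ hR.le)) (by positivity)
      simpa using Finset.sum_le_card_nsmul Finset.univ (fun i => |p i - q i|) _
        fun i _ => norm_le_pi_norm (p - q) i
    refine ⟨K, fun y => norm_fderiv_le_of_lip' ℝ K0 (Eventually.of_forall fun p => ?_)⟩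
    refine (pi_norm_le_iff_of_nonneg (by positivity)).2 fun k => ?_
    have := (fderiv ℝ f p - fderiv ℝ f y).le_opNorm (Pi.single k 1)
    rw [Pi.norm_single, norm_one, mul_one] at this
    exact this.trans (lF p y)
  · have := hess_ge hf y (fun _ : Unit => v) (c := 0) (Eventually.of_forall fun s => by
      rw [zero_mul, dif y fun _ : Unit => s • v]
      refine avg (by fun_prop) fun t _ => Finset.sum_nonneg fun _ _ => ?_
      have := cv.2 (mem_univ (y - t + s • v)) (mem_univ (y - t - s • v))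
        (by norm_num : (0 : ℝ) ≤ 1 / 2) (by norm_num : (0 : ℝ) ≤ 1 / 2) (by norm_num)
      have e : (1 / 2 : ℝ) • (y - t + s • v) + (1 / 2 : ℝ) • (y - t - s • v) = y - t := by module
      rw [e] at this
      simp only [smul_eq_mul] at this
      linarith)
    simpa using this
  · have n0 : (0 : ℝ) < n := by exact_mod_cast hn
    let d : ℝ := (T.det ^ 2) ^ ((n : ℝ)⁻¹)
    have d0 : 0 ≤ d := Real.rpow_nonneg (sq_nonneg _) _
    have dn : d ^ n = T.det ^ 2 := Real.rpow_inv_natCast_pow (sq_nonneg _) hn.ne'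
    let M : ℝ := ‖LinearMap.toContinuousLinearMap (toLin' T)‖
    have M0 : 0 ≤ M := norm_nonneg _
    have key := hess_ge hf y T.col (c := d / (8 * n)) (by
      filter_upwards [Ioo_mem_nhdsGT (by positivity : 0 < ε / (M + 1))] with s hs
      rw [dif y fun k => s • T.col k]
      refine avg (by fun_prop) fun t ht => ?_
      have a := ma (y - t) (s • T) fun ξ hξ => hy (by
        have b1 : ‖ξ‖ ≤ 1 := (pi_norm_le_iff_of_nonneg zero_le_one).2 fun i =>
          (Finset.single_le_sum (f := fun i => |ξ i|) (fun _ _ => abs_nonneg _)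
            (Finset.mem_univ i)).trans hξ
        have b2 : ‖T *ᵥ ξ‖ ≤ M * 1 :=
          (LinearMap.toContinuousLinearMap (toLin' T)).le_opNorm_of_le b1
        have b3 := (lt_div_iff₀ (by positivity)).1 hs.2
        have b4 := norm_add_le (-t) (s • T *ᵥ ξ)
        rw [mem_ball_zero_iff] at ht
        rw [norm_neg, norm_smul, Real.norm_eq_abs, abs_of_pos hs.1] at b4
        rw [mem_closedBall, dist_eq_norm, smul_mulVec,
          show y - t + s • T *ᵥ ξ - y = -t + s • T *ᵥ ξ by abel]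
        nlinarith [hs.1])
      have s0 := (slope_bd cv (y - t) (s • T)).1
      rw [det_smul, Fintype.card_fin, mul_pow, ← dn, ← pow_mul, mul_comm n 2, pow_mul, ← mul_pow,
        pow_le_pow_iff_left₀ (by positivity) (by positivity) hn.ne'] at a
      rw [div_mul_eq_mul_div, div_le_iff₀ (by positivity)]
      exact (mul_comm d _).trans_le (a.trans (mul_comm _ _).le))
    rw [← dn]
    refine pow_le_pow_left₀ d0 ?_ n
    rwa [div_le_iff₀' (by positivity)] at key

end Pool.Agent.Lib.MP_a785f2_an.HS
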