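import Pool.Agent.Lib.MP_a785f2_an.HS.Defs
import Pool.Agent.Lib.MP_a785f2_an.HS.MA3

open MeasureTheory Metric Set Filter Topology
open scoped ContDiff RealInnerProductSpace ENNReal

namespace Pool.Agent.Lib.MP_a785f2_an.HS

variable {n m : ℕ}

/-- A smooth monotone field whose derivative has determinant bounded below deep inside `U`. -/
theorem ma_smooth (hn : 0 < n) {U : Set (D n)} (hU : MeasurableSet U)
    (hb : Bornology.IsBounded U) {R : ℝ} (hR : 0 < R) (hv : volume.real U ≤ (2 * R) ^ n)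
    {ε : ℝ} (hε : 0 < ε) :
    ∃ X : D n → D n, ContDiff ℝ ∞ X ∧ (∀ y, ‖X y‖ ≤ R) ∧ (∃ B : ℝ, ∀ y, ‖fderiv ℝ X y‖ ≤ B) ∧
      (∀ y v, 0 ≤ ∑ k, v k * fderiv ℝ X y v k) ∧
      ∀ y, closedBall y ε ⊆ U → ∀ T : Matrix (Fin n) (Fin n) ℝ,
        T.det ^ 2 ≤ (8 * n * ∑ α, ∑ k, T k α * fderiv ℝ X y (fun j => T j α) k) ^ n := by
  obtain ⟨g, a, b, c, d, e⟩ := ma_field hn hU hb hR hv (half_pos hε)
  exact ⟨g, a, fun y => (pi_norm_le_iff_of_nonneg hR.le).2 (b y), c, d,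
    fun y hy T => e y (by rwa [mul_div_cancel₀ _ two_ne_zero]) T⟩

end Pool.Agent.Lib.MP_a785f2_an.HS
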