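import Pool.Agent.Lib.MP_a785f2_an.HS.Cacc
import Pool.Agent.Lib.MP_a785f2_an.HS.MA4

/-!
Pointwise algebra for the test map built from a ramp and a monotone field.
-/

open MeasureTheory Metric Set Filter Topology
open scoped ContDiff RealInnerProductSpace ENNReal

namespace Pool.Agent.Lib.MP_a785f2_an.HS

variable {n m : ℕ}

/-- The coordinates `I a` of a target vector. -/
noncomputable def isoP (I : Fin n → Fin m) : V m →L[ℝ] D n :=
  ContinuousLinearMap.pi fun a => (EuclideanSpace.proj (I a) : V m →L[ℝ] ℝ)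

/-- The adjoint of `isoP`. -/
noncomputable def isoQ (I : Fin n → Fin m) : D n →L[ℝ] V m :=
  ∑ a, (ContinuousLinearMap.proj a : D n →L[ℝ] ℝ).smulRight (EuclideanSpace.single (I a) (1 : ℝ))

theorem isoP_apply (I : Fin n → Fin m) (y : V m) : isoP I y = fun a => y (I a) := rfl

theorem isoQ_apply (I : Fin n → Fin m) (w : D n) :
    isoQ I w = ∑ a, w a • (EuclideanSpace.single (I a) (1 : ℝ) : V m) := by
  simp [isoQ]

theorem inner_isoQ (I : Fin n → Fin m) (ξ : V m) (w : D n) :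
    ⟪ξ, isoQ I w⟫ = ∑ a, ξ (I a) * w a := by
  rw [isoQ_apply, inner_sum]
  refine Finset.sum_congr rfl fun a _ => ?_
  rw [inner_smul_right, EuclideanSpace.inner_single_right]
  simp [mul_comm]

theorem norm_isoQ_le (I : Fin n → Fin m) (w : D n) : ‖isoQ I w‖ ≤ n * ‖w‖ := by
  rw [isoQ_apply]
  calc ‖∑ a, w a • (EuclideanSpace.single (I a) (1 : ℝ) : V m)‖
      ≤ ∑ a, ‖w a • (EuclideanSpace.single (I a) (1 : ℝ) : V m)‖ := norm_sum_le _ _
    _ ≤ ∑ _a : Fin n, ‖w‖ := Finset.sum_le_sum fun a _ => by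
        rw [norm_smul]
        have h1 : ‖(EuclideanSpace.single (I a) (1 : ℝ) : V m)‖ = 1 := by simp
        rw [h1, mul_one]
        exact norm_le_pi_norm w a
    _ = n * ‖w‖ := by simp

/-- The test map. -/
noncomputable def isoPhi (I : Fin n → Fin m) (χ : V m → ℝ) (X : D n → D n) (y : V m) : V m :=
  χ y • isoQ I (X (isoP I y))

theorem isoPhi_smooth (I : Fin n → Fin m) {χ : V m → ℝ} {X : D n → D n}
    (hχ : ContDiff ℝ ∞ χ) (hX : ContDiff ℝ ∞ X) : ContDiff ℝ ∞ (isoPhi I χ X) :=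
  hχ.smul ((isoQ I).contDiff.comp (hX.comp (isoP I).contDiff))

theorem isoPhi_fderiv (I : Fin n → Fin m) {χ : V m → ℝ} {X : D n → D n}
    (hχ : ContDiff ℝ ∞ χ) (hX : ContDiff ℝ ∞ X) (y ξ : V m) :
    fderiv ℝ (isoPhi I χ X) y ξ =
      χ y • isoQ I (fderiv ℝ X (isoP I y) (isoP I ξ)) +
        fderiv ℝ χ y ξ • isoQ I (X (isoP I y)) := by
  have h1 : HasFDerivAt χ (fderiv ℝ χ y) y :=
    (hχ.differentiable (by simp) y).hasFDerivAt
  have h2 : HasFDerivAt X (fderiv ℝ X (isoP I y)) (isoP I y) :=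
    (hX.differentiable (by simp) _).hasFDerivAt
  have h3 : HasFDerivAt (fun z : V m => isoQ I (X (isoP I z)))
      ((isoQ I).comp ((fderiv ℝ X (isoP I y)).comp (isoP I))) y :=
    (isoQ I).hasFDerivAt.comp y (h2.comp y (isoP I).hasFDerivAt)
  have h4 := (h1.smul h3).fderiv
  have h5 : isoPhi I χ X = χ • fun z : V m => isoQ I (X (isoP I z)) := rfl
  rw [h5, h4]
  simp

theorem norm_isoPhi_le (I : Fin n → Fin m) {χ : V m → ℝ} {X : D n → D n} {R : ℝ}
    (h01 : ∀ y, 0 ≤ χ y ∧ χ y ≤ 1) (hR : ∀ y, ‖X y‖ ≤ R) (y : V m) :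
    ‖isoPhi I χ X y‖ ≤ n * R := by
  rw [isoPhi, norm_smul, Real.norm_of_nonneg (h01 y).1]
  have h1 : ‖isoQ I (X (isoP I y))‖ ≤ n * R :=
    (norm_isoQ_le I _).trans (mul_le_mul_of_nonneg_left (hR _) (Nat.cast_nonneg _))
  calc χ y * ‖isoQ I (X (isoP I y))‖ ≤ 1 * (n * R) :=
        mul_le_mul (h01 y).2 h1 (norm_nonneg _) zero_le_one
    _ = n * R := one_mul _

theorem isoPhi_nice (I : Fin n → Fin m) {χ : V m → ℝ} {X : D n → D n} {R B c : ℝ}
    (hχ : ContDiff ℝ ∞ χ) (hX : ContDiff ℝ ∞ X) (h01 : ∀ y, 0 ≤ χ y ∧ χ y ≤ 1)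
    (hc : ∀ y, ‖fderiv ℝ χ y‖ ≤ c) (hR : ∀ y, ‖X y‖ ≤ R) (hB : ∀ y, ‖fderiv ℝ X y‖ ≤ B) :
    Nice (isoPhi I χ X) := by
  have hB0 : 0 ≤ B := (norm_nonneg _).trans (hB 0)
  have hc0 : 0 ≤ c := (norm_nonneg _).trans (hc 0)
  have hR0 : 0 ≤ R := (norm_nonneg _).trans (hR 0)
  refine ⟨isoPhi_smooth I hχ hX, n * R + (n * (B * ‖isoP I‖) + c * (n * R)), fun y => ⟨?_, ?_⟩⟩
  · have h1 := norm_isoPhi_le I h01 hR y
    have h2 : 0 ≤ (n : ℝ) * (B * ‖isoP I‖) + c * (n * R) := by positivity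
    linarith
  · have h2 : 0 ≤ (n : ℝ) * R := by positivity
    have h3 : ‖fderiv ℝ (isoPhi I χ X) y‖ ≤ n * (B * ‖isoP I‖) + c * (n * R) := by
      refine ContinuousLinearMap.opNorm_le_bound _ (by positivity) fun ξ => ?_
      rw [isoPhi_fderiv I hχ hX]
      have a1 : ‖fderiv ℝ X (isoP I y) (isoP I ξ)‖ ≤ B * (‖isoP I‖ * ‖ξ‖) :=
        ((fderiv ℝ X (isoP I y)).le_opNorm _).trans
          (mul_le_mul (hB _) ((isoP I).le_opNorm ξ) (norm_nonneg _) hB0)
      have a2 : ‖χ y • isoQ I (fderiv ℝ X (isoP I y) (isoP I ξ))‖ ≤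
          1 * (n * (B * (‖isoP I‖ * ‖ξ‖))) := by
        rw [norm_smul, Real.norm_of_nonneg (h01 y).1]
        exact mul_le_mul (h01 y).2 ((norm_isoQ_le I _).trans
          (mul_le_mul_of_nonneg_left a1 (Nat.cast_nonneg _))) (norm_nonneg _) zero_le_one
      have a3 : ‖fderiv ℝ χ y ξ • isoQ I (X (isoP I y))‖ ≤ c * ‖ξ‖ * (n * R) := by
        rw [norm_smul]
        exact mul_le_mul (((fderiv ℝ χ y).le_opNorm ξ).trans
          (mul_le_mul_of_nonneg_right (hc y) (norm_nonneg _)))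
          ((norm_isoQ_le I _).trans (mul_le_mul_of_nonneg_left (hR _) (Nat.cast_nonneg _)))
          (norm_nonneg _) (by positivity)
      calc _ ≤ 1 * (n * (B * (‖isoP I‖ * ‖ξ‖))) + c * ‖ξ‖ * (n * R) :=
            (norm_add_le _ _).trans (add_le_add a2 a3)
        _ = _ := by ring
    linarith

/-- The trace term of the monotone field. -/
noncomputable def isoS (I : Fin n → Fin m) (X : D n → D n) (y : V m) (A : D n →L[ℝ] V m) : ℝ :=
  ∑ α, ∑ k, mat A I k α * fderiv ℝ X (isoP I y) (fun j => mat A I j α) k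

theorem pr_isoPhi (I : Fin n → Fin m) {χ : V m → ℝ} {X : D n → D n}
    (hχ : ContDiff ℝ ∞ χ) (hX : ContDiff ℝ ∞ X) (y : V m) (A : D n →L[ℝ] V m) :
    pr A ((fderiv ℝ (isoPhi I χ X) y).comp A) =
      χ y * (fro A ^ (n - 2) * isoS I X y A) +
        fro A ^ (n - 2) * ∑ α, fderiv ℝ χ y (col A α) * ⟪col A α, isoQ I (X (isoP I y))⟫ := by
  have h : ∀ α, ⟪col A α, col ((fderiv ℝ (isoPhi I χ X) y).comp A) α⟫ =
      χ y * (∑ k, mat A I k α * fderiv ℝ X (isoP I y) (fun j => mat A I j α) k) +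
        fderiv ℝ χ y (col A α) * ⟪col A α, isoQ I (X (isoP I y))⟫ := by
    intro α
    have e1 : col ((fderiv ℝ (isoPhi I χ X) y).comp A) α =
        fderiv ℝ (isoPhi I χ X) y (col A α) := rfl
    rw [e1, isoPhi_fderiv I hχ hX, inner_add_right, inner_smul_right, inner_smul_right,
      inner_isoQ]
    rfl
  rw [pr, Finset.sum_congr rfl fun α _ => h α, Finset.sum_add_distrib, ← Finset.mul_sum, isoS]
  ring

theorem iso_err_le (hn : 2 ≤ n) (I : Fin n → Fin m) {χ : V m → ℝ} {X : D n → D n} {R c : ℝ}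
    (y : V m) (hc : ‖fderiv ℝ χ y‖ ≤ c) (hR : ∀ y, ‖X y‖ ≤ R) (A : D n →L[ℝ] V m) :
    |fro A ^ (n - 2) * ∑ α, fderiv ℝ χ y (col A α) * ⟪col A α, isoQ I (X (isoP I y))⟫| ≤
      c * (n * R) * fro A ^ n := by
  have hc0 : 0 ≤ c := (norm_nonneg _).trans hc
  have hq : ‖isoQ I (X (isoP I y))‖ ≤ n * R :=
    (norm_isoQ_le I _).trans (mul_le_mul_of_nonneg_left (hR _) (Nat.cast_nonneg _))
  have h1 : |∑ α, fderiv ℝ χ y (col A α) * ⟪col A α, isoQ I (X (isoP I y))⟫| ≤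
      c * (n * R) * fro A ^ 2 := by
    rw [fro_sq, Finset.mul_sum]
    refine (Finset.abs_sum_le_sum_abs _ _).trans (Finset.sum_le_sum fun α _ => ?_)
    rw [abs_mul]
    have a1 : |fderiv ℝ χ y (col A α)| ≤ c * ‖col A α‖ :=
      ((fderiv ℝ χ y).le_opNorm _).trans (mul_le_mul_of_nonneg_right hc (norm_nonneg _))
    have a2 : |⟪col A α, isoQ I (X (isoP I y))⟫| ≤ ‖col A α‖ * (n * R) :=
      (abs_real_inner_le_norm _ _).trans (mul_le_mul_of_nonneg_left hq (norm_nonneg _))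
    calc _ ≤ c * ‖col A α‖ * (‖col A α‖ * (n * R)) :=
          mul_le_mul a1 a2 (abs_nonneg _) (by positivity)
      _ = _ := by ring
  have h0 : 0 ≤ fro A ^ (n - 2) := pow_nonneg (fro_nonneg A) _
  have h2 : fro A ^ n = fro A ^ (n - 2) * fro A ^ 2 := by
    rw [← pow_add]; congr 1; omega
  rw [abs_mul, abs_of_nonneg h0, h2]
  calc _ ≤ fro A ^ (n - 2) * (c * (n * R) * fro A ^ 2) := mul_le_mul_of_nonneg_left h1 h0
    _ = _ := by ring

theorem iso_det_le (hn : 2 ≤ n) (I : Fin n → Fin m) (A : D n →L[ℝ] V m) {S : ℝ} (hS : 0 ≤ S)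
    (h : (mat A I).det ^ 2 ≤ (8 * n * S) ^ n) :
    |(mat A I).det| ≤ 8 * n * n.factorial * (fro A ^ (n - 2) * S) := by
  have hf : (1 : ℝ) ≤ n.factorial := by exact_mod_cast Nat.factorial_pos n
  have h0 := fro_nonneg A
  have hd := abs_det_le A I
  refine le_of_pow_le_pow_left₀ (n := n) (by omega) (by positivity) ?_
  have e1 : |(mat A I).det| ^ n = (mat A I).det ^ 2 * |(mat A I).det| ^ (n - 2) := by
    rw [← sq_abs, ← pow_add]; congr 1; omega
  have e2 : |(mat A I).det| ^ (n - 2) ≤ (n.factorial : ℝ) ^ n * (fro A ^ (n - 2)) ^ n := by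
    calc |(mat A I).det| ^ (n - 2) ≤ (n.factorial * fro A ^ n) ^ (n - 2) :=
          pow_le_pow_left₀ (abs_nonneg _) hd _
      _ = (n.factorial : ℝ) ^ (n - 2) * (fro A ^ (n - 2)) ^ n := by
          rw [mul_pow, ← pow_mul, ← pow_mul, mul_comm n]
      _ ≤ _ := mul_le_mul_of_nonneg_right (pow_le_pow_right₀ hf (Nat.sub_le _ _))
          (by positivity)
  rw [e1]
  calc (mat A I).det ^ 2 * |(mat A I).det| ^ (n - 2)
      ≤ (8 * n * S) ^ n * ((n.factorial : ℝ) ^ n * (fro A ^ (n - 2)) ^ n) :=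
        mul_le_mul h e2 (by positivity) (by positivity)
    _ = _ := by rw [← mul_pow, ← mul_pow]; congr 1; ring

/-- The pairing with a nice test map is integrable. -/
theorem Tgt.iso_int (hn : 2 ≤ n) {μ : Measure (D n)} {u : D n → V m}
    {G : D n → D n →L[ℝ] V m} {f : D n → V m} {Λ t0 : ℝ} (h : Tgt μ u G f Λ t0)
    {Φ : V m → V m} (hΦ : Nice Φ) :
    Integrable (fun x => pr (G x) ((fderiv ℝ Φ (u x)).comp (G x))) μ := by
  obtain ⟨hs, B, hB⟩ := hΦ
  have hB0 : 0 ≤ B := (norm_nonneg _).trans (hB 0).1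
  have c1 : Continuous (fderiv ℝ Φ) := hs.continuous_fderiv (by simp)
  have c2 : Continuous fun p : (V m →L[ℝ] V m) × (D n →L[ℝ] V m) => p.1.comp p.2 :=
    continuous_fst.clm_comp continuous_snd
  have m1 : StronglyMeasurable fun x => fderiv ℝ Φ (u x) := c1.comp_stronglyMeasurable h.mu
  have m2 : StronglyMeasurable fun x => (fderiv ℝ Φ (u x)).comp (G x) :=
    c2.comp_stronglyMeasurable (f := fun x => (fderiv ℝ Φ (u x), G x)) (m1.prodMk h.mG)
  have m3 : StronglyMeasurable fun x => pr (G x) ((fderiv ℝ Φ (u x)).comp (G x)) :=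
    continuous_pr.comp_stronglyMeasurable
      (f := fun x => (G x, (fderiv ℝ Φ (u x)).comp (G x))) (h.mG.prodMk m2)
  refine (h.iG.const_mul ((n : ℝ) * (B * n))).mono' m3.aestronglyMeasurable
    (ae_of_all _ fun x => ?_)
  have h0 := fro_nonneg (G x)
  have a1 : ‖(fderiv ℝ Φ (u x)).comp (G x)‖ ≤ B * (n * fro (G x)) :=
    (ContinuousLinearMap.opNorm_comp_le _ _).trans
      (mul_le_mul (hB _).2 (norm_le_fro _) (norm_nonneg _) hB0)
  have e : fro (G x) ^ n = fro (G x) ^ (n - 1) * fro (G x) := by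
    rw [← pow_succ]; congr 1; omega
  rw [Real.norm_eq_abs, e]
  calc _ ≤ n * (fro (G x) ^ (n - 1) * ‖(fderiv ℝ Φ (u x)).comp (G x)‖) := abs_pr_le hn _ _
    _ ≤ n * (fro (G x) ^ (n - 1) * (B * (n * fro (G x)))) :=
        mul_le_mul_of_nonneg_left (mul_le_mul_of_nonneg_left a1 (pow_nonneg h0 _))
          (Nat.cast_nonneg _)
    _ = _ := by ring

theorem iso_core_aux (hn : 2 ≤ n) : ∃ C : ℝ, 0 < C ∧
    ∀ (m : ℕ) (μ : Measure (D n)) (u : D n → V m) (G : D n → D n →L[ℝ] V m) (f : D n → V m)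
      (Λ t0 : ℝ), Tgt μ u G f Λ t0 → ∀ s t t' : ℝ, t0 ≤ s → s < t → t < t' → t' ≤ 2 * t0 →
      ∀ (I : Fin n → Fin m) (U : Set (D n)) (R ε : ℝ), IsOpen U → Bornology.IsBounded U →
        0 < R → volume.real U ≤ (2 * R) ^ n → 0 < ε →
        ∫ x in {x | t' < ‖u x‖ ∧ ε < infDist (fun a : Fin n => u x (I a)) Uᶜ},
            |(mat (G x) I).det| ∂μ ≤
          C * R * (Λ * sig μ u G s * (1 + t0 / (t' - t))) := by
  obtain ⟨C0, hC0, hramp⟩ := ramp
  have hn0 : (0 : ℝ) < n := by exact_mod_cast (by omega : 0 < n)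
  have hfac : (0 : ℝ) < n.factorial := by exact_mod_cast Nat.factorial_pos n
  refine ⟨8 * n * n.factorial * (n * (1 + 12 * C0)), by positivity, ?_⟩
  intro m μ u G f Λ t0 h s t t' hs hst htt ht2 I U R ε hU hb hR hv hε
  have ht0 := h.tp
  have hL := h.L0
  have hd : 0 < t' - t := sub_pos.2 htt
  obtain ⟨χ, hχ, h01, hz, ho, hc, hdz, -⟩ := hramp m t t' (by linarith) htt
  obtain ⟨X, hX, hXR, ⟨B, hB⟩, hmon, hdet⟩ :=
    ma_smooth (by omega : 0 < n) hU.measurableSet hb hR hv hε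
  have hN : Nice (isoPhi I χ X) := isoPhi_nice I hχ hX h01 hc hXR hB
  have hT := h.T _ hN fun y hy => by
    rw [isoPhi, hz y (by linarith), zero_smul]
  have hI := h.iso_int hn hN
  have mun : Measurable fun x => ‖u x‖ := h.mu.norm.measurable
  have mP : Measurable fun x => infDist (fun a : Fin n => u x (I a)) Uᶜ :=
    (((continuous_infDist_pt Uᶜ).comp (isoP I).continuous).comp_stronglyMeasurable
      h.mu).measurable
  have mA : MeasurableSet {x | t' < ‖u x‖ ∧ ε < infDist (fun a : Fin n => u x (I a)) Uᶜ} :=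
    (measurableSet_lt measurable_const mun).inter (measurableSet_lt measurable_const mP)
  have mB : MeasurableSet {x | t ≤ ‖u x‖ ∧ ‖u x‖ ≤ 2 * t0} :=
    (measurableSet_le measurable_const mun).inter (measurableSet_le mun measurable_const)
  have mS : MeasurableSet {x | s < ‖u x‖} := measurableSet_lt measurable_const mun
  set K : ℝ := 8 * n * n.factorial with hK
  have hK0 : 0 < K := by positivity
  set c : ℝ := C0 / (t' - t) * (n * R) with hcdef
  have hc0 : 0 ≤ c := by positivity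
  have hS0 : ∀ x, 0 ≤ isoS I X (u x) (G x) := fun x =>
    Finset.sum_nonneg fun α _ => hmon _ fun j => mat (G x) I j α
  have hpt : ∀ x,
      indicator {x | t' < ‖u x‖ ∧ ε < infDist (fun a : Fin n => u x (I a)) Uᶜ}
          (fun x => |(mat (G x) I).det|) x ≤
        K * (pr (G x) ((fderiv ℝ (isoPhi I χ X) (u x)).comp (G x)) +
          c * indicator {x | t ≤ ‖u x‖ ∧ ‖u x‖ ≤ 2 * t0} (fun x => fro (G x) ^ n) x) := by
    intro x
    have hb0 : 0 ≤ fro (G x) ^ (n - 2) * isoS I X (u x) (G x) :=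
      mul_nonneg (pow_nonneg (fro_nonneg _) _) (hS0 x)
    have a1 : χ (u x) * (fro (G x) ^ (n - 2) * isoS I X (u x) (G x)) ≤
        pr (G x) ((fderiv ℝ (isoPhi I χ X) (u x)).comp (G x)) +
          c * indicator {x | t ≤ ‖u x‖ ∧ ‖u x‖ ≤ 2 * t0} (fun x => fro (G x) ^ n) x := by
      rw [pr_isoPhi I hχ hX]
      by_cases hx : x ∈ {x | t ≤ ‖u x‖ ∧ ‖u x‖ ≤ 2 * t0}
      · rw [indicator_of_mem hx]
        have := (abs_le.1 (iso_err_le hn I (u x) (hc (u x)) hXR (G x))).1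
        linarith
      · rw [indicator_of_notMem hx]
        have hx' : ‖u x‖ < t ∨ t' < ‖u x‖ := by
          by_contra hcon
          rw [not_or, not_lt, not_lt] at hcon
          exact hx ⟨hcon.1, hcon.2.trans ht2⟩
        rw [hdz _ hx']
        simp
    by_cases hx : x ∈ {x | t' < ‖u x‖ ∧ ε < infDist (fun a : Fin n => u x (I a)) Uᶜ}
    · rw [indicator_of_mem hx]
      have hball : closedBall (isoP I (u x)) ε ⊆ U := fun z hz' => by
        by_contra hzU
        have h1 : infDist (isoP I (u x)) Uᶜ ≤ dist (isoP I (u x)) z :=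
          infDist_le_dist_of_mem hzU
        have h2 : ε < infDist (isoP I (u x)) Uᶜ := hx.2
        have h3 : dist (isoP I (u x)) z ≤ ε := by rw [dist_comm]; exact hz'
        linarith
      have h1 := iso_det_le hn I (G x) (hS0 x) (hdet _ hball (mat (G x) I))
      rw [ho _ hx.1.le, one_mul] at a1
      exact h1.trans (mul_le_mul_of_nonneg_left a1 hK0.le)
    · rw [indicator_of_notMem hx]
      exact mul_nonneg hK0.le ((mul_nonneg (h01 _).1 hb0).trans a1)
  have hIB : Integrable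
      (indicator {x | t ≤ ‖u x‖ ∧ ‖u x‖ ≤ 2 * t0} (fun x => fro (G x) ^ n)) μ :=
    h.iG.indicator mB
  have b1 := integral_mono_of_nonneg (μ := μ)
    (ae_of_all _ fun x => indicator_nonneg (fun y _ => abs_nonneg _) x)
    ((hI.add (hIB.const_mul c)).const_mul K) (ae_of_all _ hpt)
  rw [integral_indicator mA, integral_const_mul] at b1
  have b2 : ∫ x, (pr (G x) ((fderiv ℝ (isoPhi I χ X) (u x)).comp (G x)) +
        c * indicator {x | t ≤ ‖u x‖ ∧ ‖u x‖ ≤ 2 * t0} (fun x => fro (G x) ^ n) x) ∂μ =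
      ∫ x, ⟪f x, isoPhi I χ X (u x)⟫ ∂μ +
        c * ∫ x in {x | t ≤ ‖u x‖ ∧ ‖u x‖ ≤ 2 * t0}, fro (G x) ^ n ∂μ := by
    rw [integral_add hI (hIB.const_mul c), integral_const_mul, integral_indicator mB, hT]
  have b3 : ∫ x, ⟪f x, isoPhi I χ X (u x)⟫ ∂μ ≤ n * R * (Λ * sig μ u G s) := by
    have h1 : ‖∫ x, ⟪f x, isoPhi I χ X (u x)⟫ ∂μ‖ ≤
        ∫ x, n * R * (Λ * indicator {x | s < ‖u x‖} (fun x => jac (G x)) x) ∂μ := by
      refine norm_integral_le_of_norm_le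
        (((h.iJ.indicator mS).const_mul Λ).const_mul (n * R)) (ae_of_all _ fun x => ?_)
      by_cases hx : x ∈ {x | s < ‖u x‖}
      · rw [indicator_of_mem hx]
        calc ‖⟪f x, isoPhi I χ X (u x)⟫‖ ≤ ‖f x‖ * ‖isoPhi I χ X (u x)‖ := norm_inner_le_norm _ _
          _ ≤ Λ * jac (G x) * (n * R) := mul_le_mul (h.bd x) (norm_isoPhi_le I h01 hXR _)
              (norm_nonneg _) (mul_nonneg hL (jac_nonneg _))
          _ = _ := by ring
      · have hx' : ‖u x‖ ≤ t := (not_lt.1 hx).trans hst.le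
        rw [indicator_of_notMem hx, isoPhi, hz _ hx']
        simp
    rw [integral_const_mul, integral_const_mul, integral_indicator mS] at h1
    exact (le_abs_self _).trans h1
  have b4 := cacc1 hn h hs hst
  have hσ : 0 ≤ Λ * sig μ u G s := mul_nonneg hL (sig_nonneg _ _ _ _)
  have b5 : c * ∫ x in {x | t ≤ ‖u x‖ ∧ ‖u x‖ ≤ 2 * t0}, fro (G x) ^ n ∂μ ≤
      n * R * (Λ * sig μ u G s) * (12 * C0 * (t0 / (t' - t))) := by
    calc _ ≤ c * (12 * t0 * (Λ * sig μ u G s)) := mul_le_mul_of_nonneg_left b4 hc0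
      _ = _ := by rw [hcdef]; ring
  have hq : 0 ≤ t0 / (t' - t) := by positivity
  have b6 : 1 + 12 * C0 * (t0 / (t' - t)) ≤ (1 + 12 * C0) * (1 + t0 / (t' - t)) := by
    nlinarith
  have hnR : 0 ≤ n * R * (Λ * sig μ u G s) := by positivity
  calc _ ≤ K * (∫ x, ⟪f x, isoPhi I χ X (u x)⟫ ∂μ +
          c * ∫ x in {x | t ≤ ‖u x‖ ∧ ‖u x‖ ≤ 2 * t0}, fro (G x) ^ n ∂μ) := by
        rw [← b2]; exact b1
    _ ≤ K * (n * R * (Λ * sig μ u G s) * (1 + 12 * C0 * (t0 / (t' - t)))) :=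
        mul_le_mul_of_nonneg_left (by linarith) hK0.le
    _ ≤ K * (n * R * (Λ * sig μ u G s) * ((1 + 12 * C0) * (1 + t0 / (t' - t)))) :=
        mul_le_mul_of_nonneg_left (mul_le_mul_of_nonneg_left b6 hnR) hK0.le
    _ = _ := by ring

end Pool.Agent.Lib.MP_a785f2_an.HS
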