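import Pool.Agent.Lib.MP_a785f2_an.HS.Defs

open MeasureTheory Metric Set Filter Topology
open scoped ContDiff RealInnerProductSpace ENNReal

namespace Pool.Agent.Lib.MP_a785f2_an.HS

variable {n m : ℕ}

theorem Tgt.iDet {μ : Measure (D n)} {u : D n → V m} {G : D n → D n →L[ℝ] V m} {f : D n → V m}
    {Λ t0 : ℝ} (h : Tgt μ u G f Λ t0) (I : Fin n → Fin m) :
    Integrable (fun x => |(mat (G x) I).det|) μ := by
  refine (h.iG.const_mul (n.factorial : ℝ)).mono'
    ((continuous_det I).abs.comp_stronglyMeasurable h.mG).aestronglyMeasurable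
    (ae_of_all _ fun x => ?_)
  rw [Real.norm_of_nonneg (abs_nonneg _)]
  exact abs_det_le _ I

theorem root_step (hn : 2 ≤ n) {S b : ℝ} (hS : 0 ≤ S) (hb : 0 ≤ b)
    (h : ∀ g : ℝ, 0 < g → ∀ R : ℝ, 0 < R → (2 * R) ^ n = 2 ^ (n + 1) * S + g → S ≤ b * R) :
    S ^ (n - 1) ≤ 2 * b ^ n := by
  have h1 : ∀ g : ℝ, 0 < g → (2 * S) ^ n ≤ b ^ n * (2 ^ (n + 1) * S + g) := by
    intro g hg
    have hp : 0 < 2 ^ (n + 1) * S + g := by positivity
    have hr := Real.rpow_pos_of_pos hp ((n : ℝ)⁻¹)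
    have he : (2 * ((2 ^ (n + 1) * S + g) ^ ((n : ℝ)⁻¹) / 2)) ^ n = 2 ^ (n + 1) * S + g := by
      rw [mul_div_cancel₀ _ two_ne_zero, Real.rpow_inv_natCast_pow hp.le (by omega)]
    have h2 := h g hg _ (half_pos hr) he
    rw [← he, ← mul_pow]
    exact pow_le_pow_left₀ (by positivity) (by linarith) n
  have h2 : (2 * S) ^ n ≤ b ^ n * (2 ^ (n + 1) * S + 0) := by
    have hc : Continuous fun g : ℝ => b ^ n * (2 ^ (n + 1) * S + g) := by fun_prop
    exact ge_of_tendsto ((hc.tendsto 0).mono_left (nhdsWithin_le_nhds (s := Ioi 0)))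
      (eventually_mem_nhdsWithin.mono fun g hg => h1 g hg)
  rcases hS.eq_or_lt with h0 | h0
  · rw [← h0, zero_pow (by omega)]; positivity
  have e : (2 * S) ^ n = (2 ^ n * S) * S ^ (n - 1) := by
    rw [mul_pow, mul_assoc, ← pow_succ']; congr 2; omega
  have e2 : b ^ n * (2 ^ (n + 1) * S + 0) = (2 ^ n * S) * (2 * b ^ n) := by ring
  rw [e, e2] at h2
  exact le_of_mul_le_mul_left h2 (by positivity)

/-- One minor, bounded range of values. -/
theorem iso_one (hn : 2 ≤ n) {μ : Measure (D n)} {u : D n → V m} {G : D n → D n →L[ℝ] V m}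
    {f : D n → V m} {Λ t0 : ℝ} (h : Tgt μ u G f Λ t0) (I : Fin n → Fin m) {t' b : ℝ}
    (hb : 0 ≤ b)
    (hc : ∀ (U : Set (D n)) (R ε : ℝ), IsOpen U → Bornology.IsBounded U →
        0 < R → volume.real U ≤ (2 * R) ^ n → 0 < ε →
        ∫ x in {x | t' < ‖u x‖ ∧ ε < infDist (fun a : Fin n => u x (I a)) Uᶜ},
            |(mat (G x) I).det| ∂μ ≤ b * R) (L : ℝ) :
    (∫ x in {x | t' < ‖u x‖ ∧ ‖u x‖ ≤ L}, |(mat (G x) I).det| ∂μ) ^ (n - 1) ≤ 2 * b ^ n := by
  have hi := h.iDet I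
  have hm : Measurable fun x => ‖u x‖ := h.mu.norm.measurable
  have hw : Measurable fun x (a : Fin n) => u x (I a) :=
    measurable_pi_lambda _ fun a =>
      ((EuclideanSpace.proj (I a) : V m →L[ℝ] ℝ).continuous.comp_stronglyMeasurable
        h.mu).measurable
  have hA : MeasurableSet {x | t' < ‖u x‖ ∧ ‖u x‖ ≤ L} :=
    (measurableSet_lt measurable_const hm).inter (measurableSet_le hm measurable_const)
  obtain ⟨A', hA', hae, hvol⟩ := h.area I _ hA
  set S := ∫ x in {x | t' < ‖u x‖ ∧ ‖u x‖ ≤ L}, |(mat (G x) I).det| ∂μ with hS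
  have hS0 : 0 ≤ S := integral_nonneg fun _ => abs_nonneg _
  rw [← ofReal_integral_eq_lintegral_ofReal hi.integrableOn (ae_of_all _ fun _ => abs_nonneg _),
    ← hS] at hvol
  refine root_step hn hS0 hb fun g hg R hR hRe => ?_
  have hlt : volume ((fun x (a : Fin n) => u x (I a)) '' A') < ENNReal.ofReal ((2 * R) ^ n) := by
    refine hvol.trans_lt ?_
    have e : (2 : ℝ≥0∞) ^ (n + 1) * ENNReal.ofReal S = ENNReal.ofReal (2 ^ (n + 1) * S) := by
      rw [ENNReal.ofReal_mul (by positivity), ENNReal.ofReal_pow zero_le_two,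
        ENNReal.ofReal_ofNat]
    rw [e, hRe]
    exact (ENNReal.ofReal_lt_ofReal_iff (by positivity)).2 (lt_add_of_pos_right _ hg)
  obtain ⟨U0, hU0, hUo, hUv⟩ := Set.exists_isOpen_lt_of_lt _ _ hlt
  have hU : IsOpen (U0 ∩ ball (0 : D n) (|L| + 1)) := hUo.inter isOpen_ball
  have hUb : Bornology.IsBounded (U0 ∩ ball (0 : D n) (|L| + 1)) :=
    isBounded_ball.subset inter_subset_right
  have hUr : volume.real (U0 ∩ ball (0 : D n) (|L| + 1)) ≤ (2 * R) ^ n :=
    ENNReal.toReal_le_of_le_ofReal (by positivity)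
      ((measure_mono inter_subset_left).trans hUv.le)
  set U := U0 ∩ ball (0 : D n) (|L| + 1) with hUd
  have hne : (Uᶜ).Nonempty := by
    refine ⟨fun _ => |L| + 1, fun hx => ?_⟩
    have h1 := mem_ball_zero_iff.1 hx.2
    have h2 := norm_le_pi_norm (fun _ : Fin n => |L| + 1) ⟨0, by omega⟩
    rw [Real.norm_of_nonneg (by positivity)] at h2
    linarith
  have hB : ∀ j : ℕ, MeasurableSet {x | t' < ‖u x‖ ∧
      1 / ((j : ℝ) + 1) < infDist (fun a : Fin n => u x (I a)) Uᶜ} := fun j =>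
    (measurableSet_lt measurable_const hm).inter
      (measurableSet_lt measurable_const ((continuous_infDist_pt _).measurable.comp hw))
  have hlim := tendsto_setIntegral_of_monotone (μ := μ) (f := fun x => |(mat (G x) I).det|) hB
    (fun j k hjk x hx => ⟨hx.1, (Nat.one_div_le_one_div hjk).trans_lt hx.2⟩) hi.integrableOn
  refine le_trans ?_ (le_of_tendsto' hlim fun j => hc U R _ hU hUb hR hUr (by positivity))
  rw [hS, ← integral_indicator hA, ← integral_indicator (MeasurableSet.iUnion hB)]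
  refine integral_mono_ae (hi.indicator hA) (hi.indicator (MeasurableSet.iUnion hB)) ?_
  filter_upwards [hae] with x hx
  by_cases hxA : x ∈ {x | t' < ‖u x‖ ∧ ‖u x‖ ≤ L}
  · rw [indicator_of_mem hxA]
    by_cases hd : (mat (G x) I).det = 0
    · rw [hd, abs_zero]
      exact indicator_nonneg (fun _ _ => abs_nonneg _) x
    · have hxU : (fun a : Fin n => u x (I a)) ∈ U := by
        refine ⟨hU0 (mem_image_of_mem _ (hx hxA hd)), mem_ball_zero_iff.2 ?_⟩
        refine (pi_norm_lt_iff (by positivity)).2 fun a => ?_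
        have h1 := PiLp.norm_apply_le (u x) (I a)
        have h2 := hxA.2
        have h3 := le_abs_self L
        linarith
      have hp := (hU.isClosed_compl.notMem_iff_infDist_pos hne).1 (not_not.2 hxU)
      obtain ⟨j, hj⟩ := exists_nat_one_div_lt hp
      refine le_of_eq (indicator_of_mem ?_ (fun x => |(mat (G x) I).det|)).symm
      exact mem_iUnion.2 ⟨j, hxA.1, hj⟩
  · rw [indicator_of_notMem hxA]
    exact indicator_nonneg (fun _ _ => abs_nonneg _) x

/-- One minor. -/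
theorem iso_two (hn : 2 ≤ n) {μ : Measure (D n)} {u : D n → V m} {G : D n → D n →L[ℝ] V m}
    {f : D n → V m} {Λ t0 : ℝ} (h : Tgt μ u G f Λ t0) (I : Fin n → Fin m) {t' b : ℝ}
    (hb : 0 ≤ b)
    (hc : ∀ (U : Set (D n)) (R ε : ℝ), IsOpen U → Bornology.IsBounded U →
        0 < R → volume.real U ≤ (2 * R) ^ n → 0 < ε →
        ∫ x in {x | t' < ‖u x‖ ∧ ε < infDist (fun a : Fin n => u x (I a)) Uᶜ},
            |(mat (G x) I).det| ∂μ ≤ b * R) :
    (∫ x in {x | t' < ‖u x‖}, |(mat (G x) I).det| ∂μ) ^ (n - 1) ≤ 2 * b ^ n := by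
  have hm : Measurable fun x => ‖u x‖ := h.mu.norm.measurable
  have hlim := tendsto_setIntegral_of_monotone (μ := μ) (f := fun x => |(mat (G x) I).det|)
    (s := fun L : ℕ => {x | t' < ‖u x‖ ∧ ‖u x‖ ≤ L})
    (fun L => (measurableSet_lt measurable_const hm).inter (measurableSet_le hm measurable_const))
    (fun j k hjk x hx => ⟨hx.1, hx.2.trans (Nat.cast_le.2 hjk)⟩) (h.iDet I).integrableOn
  have e : (⋃ L : ℕ, {x | t' < ‖u x‖ ∧ ‖u x‖ ≤ L}) = {x | t' < ‖u x‖} := by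
    ext x
    simp only [mem_iUnion, mem_ofPred_eq]
    exact ⟨fun ⟨_, hx⟩ => hx.1, fun hx => (exists_nat_ge ‖u x‖).imp fun _ hL => ⟨hx, hL⟩⟩
  rw [e] at hlim
  exact le_of_tendsto' (hlim.pow _) fun L => iso_one hn h I hb hc L

/-- All minors. -/
theorem iso_sum (hn : 2 ≤ n) {μ : Measure (D n)} {u : D n → V m} {G : D n → D n →L[ℝ] V m}
    {f : D n → V m} {Λ t0 : ℝ} (h : Tgt μ u G f Λ t0) {t' b : ℝ}
    (hc : ∀ I : Fin n → Fin m,
      (∫ x in {x | t' < ‖u x‖}, |(mat (G x) I).det| ∂μ) ^ (n - 1) ≤ b) :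
    sig μ u G t' ^ (n - 1) ≤ ((m : ℝ) ^ n) ^ (n - 1) * b := by
  have e : sig μ u G t' =
      ∑ I : Fin n → Fin m, ∫ x in {x | t' < ‖u x‖}, |(mat (G x) I).det| ∂μ :=
    integral_finsetSum _ fun I _ => (h.iDet I).integrableOn
  obtain ⟨k, hk⟩ : ∃ k, n - 1 = k + 1 := ⟨n - 2, by omega⟩
  rw [hk] at hc ⊢
  rw [e]
  refine (pow_sum_le_card_mul_sum_pow (fun I _ => integral_nonneg fun _ => abs_nonneg _) k).trans ?_
  have h1 := Finset.sum_le_sum fun I (_ : I ∈ Finset.univ) => hc I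
  refine (mul_le_mul_of_nonneg_left h1 (by positivity)).trans (le_of_eq ?_)
  simp only [Finset.card_univ, Fintype.card_fun, Fintype.card_fin, Finset.sum_const, nsmul_eq_mul,
    Nat.cast_pow]
  ring

end Pool.Agent.Lib.MP_a785f2_an.HS
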