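import Pool.Agent.Lib.MP_a785f2_an.HS.Cacc
import Pool.Agent.Lib.MP_a785f2_an.HS.MA4
import Pool.Agent.Lib.MP_a785f2_an.HS.IsoA
import Pool.Agent.Lib.MP_a785f2_an.HS.IsoB

open MeasureTheory Metric Set Filter Topology
open scoped ContDiff RealInnerProductSpace ENNReal

namespace Pool.Agent.Lib.MP_a785f2_an.HS

variable {n m : ℕ}

/-- Testing with the transport field: lower bound on the left, upper bound on the right. -/
theorem iso_core (hn : 2 ≤ n) : ∃ C : ℝ, 0 < C ∧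
    ∀ (m : ℕ) (μ : Measure (D n)) (u : D n → V m) (G : D n → D n →L[ℝ] V m) (f : D n → V m)
      (Λ t0 : ℝ), Tgt μ u G f Λ t0 → ∀ s t t' : ℝ, t0 ≤ s → s < t → t < t' → t' ≤ 2 * t0 →
      ∀ (I : Fin n → Fin m) (U : Set (D n)) (R ε : ℝ), IsOpen U → Bornology.IsBounded U →
        0 < R → volume.real U ≤ (2 * R) ^ n → 0 < ε →
        ∫ x in {x | t' < ‖u x‖ ∧ ε < infDist (fun a : Fin n => u x (I a)) Uᶜ},
            |(mat (G x) I).det| ∂μ ≤
          C * R * (Λ * sig μ u G s * (1 + t0 / (t' - t))) :=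
  iso_core_aux hn

/-- The isoperimetric step. -/
theorem iso (hn : 2 ≤ n) (m : ℕ) : ∃ C : ℝ, 0 < C ∧
    ∀ (μ : Measure (D n)) (u : D n → V m) (G : D n → D n →L[ℝ] V m) (f : D n → V m)
      (Λ t0 : ℝ), Tgt μ u G f Λ t0 → ∀ s t t' : ℝ, t0 ≤ s → s < t → t < t' → t' ≤ 2 * t0 →
      sig μ u G t' ^ (n - 1) ≤ C * (Λ * sig μ u G s * (1 + t0 / (t' - t))) ^ n := by
  obtain ⟨C, hC, hcore⟩ := iso_core hn
  refine ⟨(((m : ℝ) ^ n) ^ (n - 1) + 1) * (2 * C ^ n), by positivity,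
    fun μ u G f Λ t0 h s t t' hs hst htt ht => ?_⟩
  have hD : 0 ≤ Λ * sig μ u G s * (1 + t0 / (t' - t)) := by
    have h1 := h.L0
    have h2 := sig_nonneg μ u G s
    have h3 := h.tp
    have h4 := sub_pos.2 htt
    positivity
  have h1 := iso_sum hn h fun I => iso_two hn h I (t' := t') (mul_nonneg hC.le hD)
    fun U R ε hU hb hR hv hε =>
      (hcore m μ u G f Λ t0 h s t t' hs hst htt ht I U R ε hU hb hR hv hε).trans
        (le_of_eq (by ring))
  refine h1.trans ?_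
  rw [mul_pow C, ← mul_assoc 2, ← mul_assoc]
  exact mul_le_mul_of_nonneg_right (mul_le_mul_of_nonneg_right (by linarith) (by positivity))
    (pow_nonneg hD n)

end Pool.Agent.Lib.MP_a785f2_an.HS
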