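import Pool.Agent.Lib.MP_a785f2_an.HS.LimT

open MeasureTheory Metric Set Filter Topology
open scoped ContDiff RealInnerProductSpace ENNReal

namespace Pool.Agent.Lib.MP_a785f2_an.HS

variable {n m : ℕ}

/-- A composed map cut along the boundary of a box is an admissible test map. -/
theorem cut_test {W : Type} [NormedAddCommGroup W] [NormedSpace ℝ W] {w : D n → V m}
    (hw : ContDiff ℝ ∞ w) {a b : D n} {t0 : ℝ}
    (hb : ∀ x ∈ Icc a b, (∃ i, x i = a i ∨ x i = b i) → ‖w x‖ < t0)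
    {Φ : V m → W} (hΦ : ContDiff ℝ ∞ Φ) (h0 : ∀ y, ‖y‖ ≤ t0 → Φ y = 0) :
    ContDiff ℝ ∞ ((Icc a b).indicator fun x => Φ (w x)) ∧
    HasCompactSupport ((Icc a b).indicator fun x => Φ (w x)) ∧
    tsupport ((Icc a b).indicator fun x => Φ (w x)) ⊆ Icc a b ∧
    ∀ x, fderiv ℝ ((Icc a b).indicator fun x => Φ (w x)) x =
      (Icc a b).indicator (fun x => (fderiv ℝ Φ (w x)).comp (fderiv ℝ w x)) x := by
  have hF : ContDiff ℝ ∞ fun x => Φ (w x) := hΦ.comp hw
  have hin : ∀ x ∈ Icc a b,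
      ((Icc a b).indicator fun x => Φ (w x)) =ᶠ[𝓝 x] fun x => Φ (w x) := by
    intro x hx
    by_cases h : ∃ i, x i = a i ∨ x i = b i
    · have h1 : ∀ᶠ y in 𝓝 x, ‖w y‖ < t0 :=
        (hw.continuous.norm.tendsto x).eventually (gt_mem_nhds (hb x hx h))
      filter_upwards [h1] with y hy
      by_cases hy' : y ∈ Icc a b
      · exact indicator_of_mem hy' _
      · rw [indicator_of_notMem hy', h0 _ hy.le]
    · push Not at h
      have h1 : Icc a b ∈ 𝓝 x :=
        pi_Icc_mem_nhds' (fun i => lt_of_le_of_ne (hx.1 i) (h i).1.symm)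
          (fun i => lt_of_le_of_ne (hx.2 i) (h i).2)
      filter_upwards [h1] with y hy
      exact indicator_of_mem hy _
  have hout : ∀ x ∉ Icc a b,
      ((Icc a b).indicator fun x => Φ (w x)) =ᶠ[𝓝 x] fun _ => (0 : W) := by
    intro x hx
    filter_upwards [isClosed_Icc.isOpen_compl.mem_nhds hx] with y hy
    exact indicator_of_notMem hy _
  have hts : tsupport ((Icc a b).indicator fun x => Φ (w x)) ⊆ Icc a b :=
    closure_minimal support_indicator_subset isClosed_Icc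
  refine ⟨contDiff_iff_contDiffAt.2 fun x => ?_,
    isCompact_Icc.of_isClosed_subset (isClosed_tsupport _) hts, hts, fun x => ?_⟩
  · by_cases hx : x ∈ Icc a b
    · exact hF.contDiffAt.congr_of_eventuallyEq (hin x hx)
    · exact contDiffAt_const.congr_of_eventuallyEq (hout x hx)
  · by_cases hx : x ∈ Icc a b
    · rw [indicator_of_mem hx, (hin x hx).fderiv_eq]
      exact fderiv_comp x (hΦ.differentiable (by simp) _) (hw.differentiable (by simp) _)
    · rw [indicator_of_notMem hx, (hout x hx).fderiv_eq]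
      simp

/-- The equation tested with `Φ(u)` on the limit box. -/
theorem lim_T (hn : 2 ≤ n) {Ω : Set (D n)} {u0 u : D n → V m} {G : D n → D n →L[ℝ] V m}
    {f : D n → V m} {Λ : ℝ} (S : Sol Ω u0 G f Λ) (hu : StronglyMeasurable u) {x0 : D n}
    {r t0 : ℝ} (hr : 0 < r) (hK : closedBall x0 (3 * r) ⊆ Ω) {w : ℕ → D n → V m}
    (hw : Apx (closedBall x0 (3 * r)) u G w) {a b : ℕ → D n} {a0 b0 : D n}
    (hB : Box x0 r t0 w a b a0 b0) {Φ : V m → V m} (hΦ : Nice Φ)
    (h0 : ∀ y, ‖y‖ ≤ t0 → Φ y = 0) :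
    ∫ x in Icc a0 b0, pr (G x) ((fderiv ℝ Φ (u x)).comp (G x)) =
      ∫ x in Icc a0 b0, ⟪f x, Φ (u x)⟫ := by
  refine limT_main hn S hr hw hB hΦ fun k => ?_
  obtain ⟨c1, c2, c3, c4⟩ := cut_test (hw.sm k) (hB.bdry k) hΦ.1 h0
  have h := S.eq _ c1 c2 (c3.trans ((hB.sub k).trans
    ((closedBall_subset_closedBall (by linarith)).trans hK)))
  rw [← integral_indicator measurableSet_Icc, ← integral_indicator measurableSet_Icc]
  refine (integral_congr_ae (ae_of_all _ fun x => ?_)).trans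
    (h.trans (integral_congr_ae (ae_of_all _ fun x => ?_)))
  · by_cases hx : x ∈ Icc (a k) (b k)
    · simp only [c4, indicator_of_mem hx]
    · simp [c4, indicator_of_notMem hx, pr, col]
  · by_cases hx : x ∈ Icc (a k) (b k)
    · simp only [indicator_of_mem hx]
    · simp [indicator_of_notMem hx]

theorem limP_zeta (m : ℕ) {s : ℝ} (hs : 0 < s) : ∃ (ζ : V m → ℝ) (B : ℝ), ContDiff ℝ ∞ ζ ∧
    (∀ y, ‖y‖ ≤ s → ζ y = 0) ∧ (∀ y, ζ y = 0 → ‖y‖ ≤ s) ∧
    (∀ y, ‖y‖ ≤ s → fderiv ℝ ζ y = 0) ∧ ∀ y, ‖fderiv ℝ ζ y‖ ≤ B := by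
  have hc : ContDiff ℝ ∞ fun y : V m => Real.smoothTransition (‖y‖ ^ 2 - s ^ 2) :=
    Real.smoothTransition.contDiff.comp ((contDiff_norm_sq ℝ).sub contDiff_const)
  have h0 : ∀ y : V m, ‖y‖ ≤ s → Real.smoothTransition (‖y‖ ^ 2 - s ^ 2) = 0 := fun y hy =>
    Real.smoothTransition.zero_of_nonpos
      (sub_nonpos.2 (pow_le_pow_left₀ (norm_nonneg _) hy 2))
  have hd : Continuous fun y : V m =>
      fderiv ℝ (fun y : V m => Real.smoothTransition (‖y‖ ^ 2 - s ^ 2)) y :=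
    hc.continuous_fderiv (by simp)
  obtain ⟨B, hB⟩ := (isCompact_closedBall (0 : V m) (s + 1)).exists_bound_of_continuousOn
    hd.continuousOn
  refine ⟨_, max B 0, hc, h0, fun y hy => ?_, fun y hy => ?_, fun y => ?_⟩
  · have h1 := Real.smoothTransition.zero_iff_nonpos.1 hy
    exact (pow_le_pow_iff_left₀ (norm_nonneg _) hs.le two_ne_zero).1 (sub_nonpos.1 h1)
  · refine IsLocalMin.fderiv_eq_zero (Eventually.of_forall fun z => ?_)
    show Real.smoothTransition (‖y‖ ^ 2 - s ^ 2) ≤ Real.smoothTransition (‖z‖ ^ 2 - s ^ 2)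
    rw [h0 y hy]
    exact Real.smoothTransition.nonneg _
  · by_cases hy : ‖y‖ ≤ s + 1
    · exact (hB y (mem_closedBall_zero_iff.2 hy)).trans (le_max_left _ _)
    · have : fderiv ℝ (fun y : V m => Real.smoothTransition (‖y‖ ^ 2 - s ^ 2)) y = 0 := by
        refine IsLocalMax.fderiv_eq_zero (Eventually.of_forall fun z => ?_)
        show Real.smoothTransition (‖z‖ ^ 2 - s ^ 2) ≤ Real.smoothTransition (‖y‖ ^ 2 - s ^ 2)
        rw [Real.smoothTransition.one_of_one_le (x := ‖y‖ ^ 2 - s ^ 2) (by nlinarith)]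
        exact Real.smoothTransition.le_one _
      rw [this, norm_zero]
      exact le_max_right _ _

theorem limP_one {X W : Type} [MeasurableSpace X] [NormedAddCommGroup W] {μ : Measure X}
    [IsFiniteMeasure μ] (hn : 1 ≤ n) {g : ℕ → X → W} (hg : ∀ k, AEStronglyMeasurable (g k) μ)
    (h : Tendsto (fun k => ∫⁻ x, ‖g k x‖ₑ ^ n ∂μ) atTop (𝓝 0)) :
    Tendsto (fun k => ∫⁻ x, ‖g k x‖ₑ ∂μ) atTop (𝓝 0) := by
  have hn0 : (n : ℝ≥0∞) ≠ 0 := by exact_mod_cast (by omega : n ≠ 0)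
  have hp : (0 : ℝ) < n := by exact_mod_cast (by omega : 0 < n)
  have h1 : ∀ k, ∫⁻ x, ‖g k x‖ₑ ∂μ ≤
      (∫⁻ x, ‖g k x‖ₑ ^ n ∂μ) ^ (1 / (n : ℝ)) * μ univ ^ (1 - 1 / (n : ℝ)) := by
    intro k
    have h2 := eLpNorm_le_eLpNorm_mul_rpow_measure_univ (p := 1) (q := n)
      (by exact_mod_cast hn) (hg k)
    rw [eLpNorm_one_eq_lintegral_enorm,
      eLpNorm_eq_lintegral_rpow_enorm_toReal hn0 (ENNReal.natCast_ne_top n)] at h2
    simpa using h2
  have h3 : Tendsto (fun k => (∫⁻ x, ‖g k x‖ₑ ^ n ∂μ) ^ (1 / (n : ℝ))) atTop (𝓝 0) := by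
    have := (ENNReal.continuous_rpow_const (y := 1 / (n : ℝ))).continuousAt.tendsto.comp h
    rwa [ENNReal.zero_rpow_of_pos (by positivity)] at this
  have h4 : μ univ ^ (1 - 1 / (n : ℝ)) ≠ ⊤ := by
    refine ENNReal.rpow_ne_top_of_nonneg ?_ (measure_ne_top _ _)
    have : 1 / (n : ℝ) ≤ 1 := by
      rw [div_le_one hp]; exact_mod_cast hn
    linarith
  have h5 := ENNReal.Tendsto.mul_const h3 (Or.inr h4)
  rw [zero_mul] at h5
  exact tendsto_of_tendsto_of_tendsto_of_le_of_le tendsto_const_nhds h5 (fun _ => zero_le) h1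

theorem limP_out {a b : ℕ → D n} {a0 b0 x : D n} (ta : Tendsto a atTop (𝓝 a0))
    (tb : Tendsto b atTop (𝓝 b0)) (hx : x ∉ Icc a0 b0) : ∀ᶠ k in atTop, x ∉ Icc (a k) (b k) := by
  by_contra hc
  rw [not_eventually] at hc
  simp only [not_not] at hc
  refine hx ⟨?_, ?_⟩
  · exact isClosed_Iic.mem_of_frequently_of_tendsto (hc.mono fun k hk => hk.1) ta
  · exact isClosed_Ici.mem_of_frequently_of_tendsto (hc.mono fun k hk => hk.2) tb

theorem limP_in {a b : ℕ → D n} {a0 b0 x : D n} (ta : Tendsto a atTop (𝓝 a0))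
    (tb : Tendsto b atTop (𝓝 b0)) (hx : x ∈ pi univ fun i => Ioo (a0 i) (b0 i)) :
    ∀ᶠ k in atTop, x ∈ Icc (a k) (b k) := by
  have h1 : ∀ i, ∀ᶠ k in atTop, a k i ≤ x i ∧ x i ≤ b k i := fun i =>
    (((tendsto_pi_nhds.1 ta i).eventually_lt_const (hx i (mem_univ _)).1).mono
      fun _ h => h.le).and
    (((tendsto_pi_nhds.1 tb i).eventually_const_lt (hx i (mem_univ _)).2).mono fun _ h => h.le)
  exact (eventually_all.2 h1).mono fun k hk => ⟨fun i => (hk i).1, fun i => (hk i).2⟩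

/-- Qualitative Poincare inequality on the limit box. -/
theorem lim_P (hn : 2 ≤ n) {u : D n → V m} {G : D n → D n →L[ℝ] V m}
    (hu : StronglyMeasurable u) (hG : StronglyMeasurable G) (lG : MemLp G n volume) {x0 : D n}
    {r t0 : ℝ} (hr : 0 < r) {w : ℕ → D n → V m}
    (hw : Apx (closedBall x0 (3 * r)) u G w) {a b : ℕ → D n} {a0 b0 : D n}
    (hB : Box x0 r t0 w a b a0 b0) {s : ℝ} (hs : t0 ≤ s) (ht : 0 < t0)
    (hz : ∀ᵐ x ∂(volume.restrict (Icc a0 b0)), s < ‖u x‖ → G x = 0) :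
    ∀ᵐ x ∂(volume.restrict (Icc a0 b0)), ‖u x‖ ≤ s := by
  obtain ⟨ζ, B, hζ, z0, z1, z2, zB⟩ := limP_zeta m (ht.trans_le hs)
  have hB0 : 0 ≤ B := (norm_nonneg _).trans (zB 0)
  set K : Set (D n) := closedBall x0 (3 * r) with hKdef
  have hKm : MeasurableSet K := measurableSet_closedBall
  have h23 : closedBall x0 (2 * r) ⊆ K := closedBall_subset_closedBall (by linarith)
  have : IsFiniteMeasure (volume.restrict K) :=
    isFiniteMeasure_restrict.2 (isCompact_closedBall x0 (3 * r)).measure_lt_top.ne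
  have hdζ : Continuous fun y => fderiv ℝ ζ y := hζ.continuous_fderiv (by simp)
  have hdw : ∀ k, Continuous fun x => fderiv ℝ (w k) x := fun k =>
    (hw.sm k).continuous_fderiv (by simp)
  have hct := fun k => cut_test (hw.sm k) (hB.bdry k) hζ fun y hy => z0 y (hy.trans hs)
  set φ : ℕ → D n → ℝ := fun k => (Icc (a k) (b k)).indicator fun x => ζ (w k x) with hφ
  set C : NNReal := eLpNormLESNormFDerivOfLeConst ℝ (volume : Measure (D n))
    (closedBall x0 (2 * r)) 1 1 with hC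
  have hP : ∀ k, ∫⁻ x, ‖φ k x‖ₑ ≤ (C : ℝ≥0∞) * ∫⁻ x, ‖fderiv ℝ (φ k) x‖ₑ := by
    intro k
    have h := eLpNorm_le_eLpNorm_fderiv (volume : Measure (D n)) (u := φ k)
      (s := closedBall x0 (2 * r)) ((hct k).1.of_le (by simp))
      (((subset_tsupport _).trans (hct k).2.2.1).trans (hB.sub k)) (p := 1) le_rfl
      (by
        rw [Module.finrank_fin_fun]
        exact_mod_cast (by omega : 1 < n)) isBounded_closedBall
    rwa [ENNReal.coe_one, eLpNorm_one_eq_lintegral_enorm, eLpNorm_one_eq_lintegral_enorm] at h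
  have hE : Tendsto (fun k => ∫⁻ x in K, ‖fderiv ℝ (w k) x - G x‖ₑ) atTop (𝓝 0) :=
    limP_one (by omega) (fun k => ((hdw k).stronglyMeasurable.sub hG).aestronglyMeasurable) hw.lG
  set F : ℕ → D n → ℝ≥0∞ := fun k =>
    (Icc (a k) (b k)).indicator fun x => ‖(fderiv ℝ ζ (w k x)).comp (G x)‖ₑ with hF
  have hcomp : Continuous fun p : (V m →L[ℝ] ℝ) × (D n →L[ℝ] V m) => p.1.comp p.2 :=
    continuous_fst.clm_comp continuous_snd
  have hFm : ∀ k, Measurable (F k) := fun k =>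
    ((hcomp.comp_stronglyMeasurable
      ((hdζ.comp (hw.sm k).continuous).stronglyMeasurable.prodMk hG)).enorm).indicator
      measurableSet_Icc
  have hop : ∀ (y : V m) (A : D n →L[ℝ] V m),
      ‖(fderiv ℝ ζ y).comp A‖ₑ ≤ ENNReal.ofReal B * ‖A‖ₑ := by
    intro y A
    rw [← ofReal_norm, ← ofReal_norm, ← ENNReal.ofReal_mul hB0]
    exact ENNReal.ofReal_le_ofReal (((fderiv ℝ ζ y).opNorm_comp_le A).trans
      (mul_le_mul_of_nonneg_right (zB y) (norm_nonneg _)))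
  have e0 : ‖(0 : D n →L[ℝ] ℝ)‖ₑ = 0 := by rw [← ofReal_norm, norm_zero, ENNReal.ofReal_zero]
  have eadd : ∀ A A' : D n →L[ℝ] ℝ, ‖A + A'‖ₑ ≤ ‖A‖ₑ + ‖A'‖ₑ := by
    intro A A'
    rw [← ofReal_norm, ← ofReal_norm, ← ofReal_norm,
      ← ENNReal.ofReal_add (norm_nonneg _) (norm_nonneg _)]
    exact ENNReal.ofReal_le_ofReal (norm_add_le _ _)
  have hF0 : Tendsto (fun k => ∫⁻ x in K, F k x) atTop (𝓝 0) := by
    have hz' := (ae_restrict_iff' measurableSet_Icc).1 hz
    have h := tendsto_lintegral_of_dominated_convergence' (μ := volume.restrict K) (F := F)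
      (f := fun _ => 0) (fun x => ENNReal.ofReal B * ‖G x‖ₑ) (fun k => (hFm k).aemeasurable)
      (fun k => ae_of_all _ fun x => (indicator_le_self _ _ x).trans (hop _ _)) ?_ ?_
    · simpa using h
    · rw [lintegral_const_mul' _ _ ENNReal.ofReal_ne_top]
      refine ENNReal.mul_ne_top ENNReal.ofReal_ne_top ?_
      have h1 : MemLp G 1 (volume.restrict K) :=
        (lG.restrict K).mono_exponent (by exact_mod_cast (by omega : 1 ≤ n))
      exact (memLp_one_iff_integrable.1 h1).2.ne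
    · filter_upwards [hw.ae, ae_restrict_of_ae hz'] with x hx hx'
      by_cases hQ : x ∈ Icc a0 b0
      · have h1 : (fderiv ℝ ζ (u x)).comp (G x) = 0 := by
          by_cases h2 : ‖u x‖ ≤ s
          · rw [z2 _ h2, ContinuousLinearMap.zero_comp]
          · rw [hx' hQ (not_le.1 h2), ContinuousLinearMap.comp_zero]
        have h3 : Tendsto (fun k => ‖(fderiv ℝ ζ (w k x)).comp (G x)‖ₑ) atTop (𝓝 0) := by
          have h4 := ((hdζ.clm_comp (continuous_const (y := G x))).enorm.tendsto (u x)).comp hx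
          rwa [h1, e0] at h4
        exact tendsto_of_tendsto_of_tendsto_of_le_of_le tendsto_const_nhds h3
          (fun _ => zero_le) fun k => indicator_le_self _ _ x
      · refine tendsto_const_nhds.congr' ((limP_out hB.ta hB.tb hQ).mono fun k hk => ?_)
        exact (indicator_of_notMem hk _).symm
  have hD : ∀ k, ∫⁻ x, ‖fderiv ℝ (φ k) x‖ₑ ≤
      (∫⁻ x in K, F k x) + ENNReal.ofReal B * ∫⁻ x in K, ‖fderiv ℝ (w k) x - G x‖ₑ := by
    intro k
    rw [← lintegral_const_mul' _ _ ENNReal.ofReal_ne_top, ← lintegral_add_left (hFm k),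
      ← lintegral_indicator hKm]
    refine lintegral_mono fun x => ?_
    rw [(hct k).2.2.2 x]
    by_cases hx : x ∈ Icc (a k) (b k)
    · rw [indicator_of_mem hx, indicator_of_mem (h23 (hB.sub k hx))]
      have h1 : (fderiv ℝ ζ (w k x)).comp (fderiv ℝ (w k) x) = (fderiv ℝ ζ (w k x)).comp (G x) +
          (fderiv ℝ ζ (w k x)).comp (fderiv ℝ (w k) x - G x) := by
        rw [← ContinuousLinearMap.comp_add, add_sub_cancel]
      rw [h1]
      refine (eadd _ _).trans (add_le_add (le_of_eq ?_) (hop _ _))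
      exact (indicator_of_mem hx fun x => ‖(fderiv ℝ ζ (w k x)).comp (G x)‖ₑ).symm
    · rw [indicator_of_notMem hx, e0]
      exact zero_le
  have hφ0 : Tendsto (fun k => ∫⁻ x, ‖φ k x‖ₑ) atTop (𝓝 0) := by
    have h1 := hF0.add (ENNReal.Tendsto.const_mul hE (Or.inr ENNReal.ofReal_ne_top)
      (a := ENNReal.ofReal B))
    have h2 := ENNReal.Tendsto.const_mul h1 (Or.inr ENNReal.coe_ne_top)
      (a := (C : ℝ≥0∞))
    simp only [mul_zero, add_zero] at h2
    exact tendsto_of_tendsto_of_tendsto_of_le_of_le tendsto_const_nhds h2 (fun _ => zero_le)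
      fun k => (hP k).trans (mul_le_mul_right (hD k) _)
  have hφm : ∀ k, Measurable fun x => ‖φ k x‖ₑ := fun k =>
    (hct k).1.continuous.enorm.measurable
  have hfat := lintegral_liminf_le' (μ := (volume : Measure (D n))) (u := atTop)
    fun k => (hφm k).aemeasurable
  rw [hφ0.liminf_eq, nonpos_iff_eq_zero,
    lintegral_eq_zero_iff (Measurable.liminf hφm)] at hfat
  have hO : (pi univ fun i => Ioo (a0 i) (b0 i)) =ᵐ[volume] Icc a0 b0 :=
    Measure.univ_pi_Ioo_ae_eq_Icc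
  rw [ae_restrict_iff' measurableSet_Icc]
  filter_upwards [hfat, hO, (ae_restrict_iff' hKm).1 hw.ae] with x h1 h2 h3 hx
  have hx' : x ∈ pi univ fun i => Ioo (a0 i) (b0 i) := (Eq.to_iff h2).2 hx
  have h4 : Tendsto (fun k => ‖φ k x‖ₑ) atTop (𝓝 ‖ζ (u x)‖ₑ) := by
    refine ((hζ.continuous.enorm.tendsto (u x)).comp (h3 (h23 (hB.hi hx)))).congr'
      ((limP_in hB.ta hB.tb hx').mono fun k hk => ?_)
    show ‖ζ (w k x)‖ₑ = ‖φ k x‖ₑ
    rw [hφ]
    simp only [indicator_of_mem hk]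
  have h5 : ‖ζ (u x)‖ₑ = 0 := h4.liminf_eq.symm.trans h1
  exact z1 _ (enorm_eq_zero.1 h5)

end Pool.Agent.Lib.MP_a785f2_an.HS
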