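import Pool.Agent.Lib.MP_a785f2_an.HS.Defs

/-! Limit passage in the tested equation. -/

open MeasureTheory Metric Set Filter Topology
open scoped ContDiff RealInnerProductSpace ENNReal

namespace Pool.Agent.Lib.MP_a785f2_an.HS

variable {n m : ℕ}

theorem limT_young (k : ℕ) {a b δ : ℝ} (ha : 0 ≤ a) (hb : 0 ≤ b) (hδ : 0 < δ) :
    a ^ k * b ≤ δ * a ^ (k + 1) + δ⁻¹ ^ k * b ^ (k + 1) := by
  rcases le_total b (δ * a) with h | h
  · calc a ^ k * b ≤ a ^ k * (δ * a) := by gcongr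
      _ = δ * a ^ (k + 1) := by ring
      _ ≤ _ := le_add_of_nonneg_right (by positivity)
  · have : a ≤ δ⁻¹ * b := (le_inv_mul_iff₀ hδ).2 h
    calc a ^ k * b ≤ (δ⁻¹ * b) ^ k * b := by gcongr
      _ = δ⁻¹ ^ k * b ^ (k + 1) := by ring
      _ ≤ _ := le_add_of_nonneg_left (by positivity)

theorem limT_small {X W : Type} [MeasurableSpace X] [NormedAddCommGroup W] {μ : Measure X}
    (k : ℕ) {g : X → ℝ} (g0 : ∀ x, 0 ≤ g x) (hg : Integrable (fun x => g x ^ (k + 1)) μ)
    {h : ℕ → X → W} (hh : Tendsto (fun j => ∫⁻ x, ‖h j x‖ₑ ^ (k + 1) ∂μ) atTop (𝓝 0)) :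
    Tendsto (fun j => ∫⁻ x, ENNReal.ofReal (g x ^ k * ‖h j x‖) ∂μ) atTop (𝓝 0) := by
  refine ENNReal.tendsto_nhds_zero.2 fun ε hε => ?_
  have h2 : ε / 2 ≠ 0 := (ENNReal.half_pos hε.ne').ne'
  obtain ⟨δ, d0, d1⟩ := ENNReal.exists_nnreal_pos_mul_lt hg.lintegral_lt_top.ne h2
  have h3 := ENNReal.Tendsto.const_mul (a := ENNReal.ofReal ((δ : ℝ)⁻¹ ^ k)) hh
    (Or.inr ENNReal.ofReal_ne_top)
  rw [mul_zero] at h3
  filter_upwards [ENNReal.tendsto_nhds_zero.1 h3 _ h2.bot_lt] with j hj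
  calc ∫⁻ x, ENNReal.ofReal (g x ^ k * ‖h j x‖) ∂μ
      ≤ ∫⁻ x, (δ * ENNReal.ofReal (g x ^ (k + 1)) +
          ENNReal.ofReal ((δ : ℝ)⁻¹ ^ k) * ‖h j x‖ₑ ^ (k + 1)) ∂μ := by
        refine lintegral_mono fun x => (ENNReal.ofReal_le_ofReal
          (limT_young k (g0 x) (norm_nonneg _) (NNReal.coe_pos.2 d0))).trans
            (ENNReal.ofReal_add_le.trans_eq ?_)
        rw [ENNReal.ofReal_mul δ.coe_nonneg, ENNReal.ofReal_mul (by positivity), ENNReal.ofReal_coe_nnreal,
          ENNReal.ofReal_pow (norm_nonneg _), ofReal_norm]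
    _ = δ * ∫⁻ x, ENNReal.ofReal (g x ^ (k + 1)) ∂μ +
          ENNReal.ofReal ((δ : ℝ)⁻¹ ^ k) * ∫⁻ x, ‖h j x‖ₑ ^ (k + 1) ∂μ := by
        rw [lintegral_add_left' (hg.1.aemeasurable.ennreal_ofReal.const_mul _),
          lintegral_const_mul' _ _ ENNReal.coe_ne_top,
          lintegral_const_mul' _ _ ENNReal.ofReal_ne_top]
    _ ≤ ε / 2 + ε / 2 := add_le_add d1.le hj
    _ = ε := ENNReal.add_halves ε

theorem limT_box {a b : ℕ → D n} {a0 b0 : D n} (ta : Tendsto a atTop (𝓝 a0))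
    (tb : Tendsto b atTop (𝓝 b0)) :
    ∀ᵐ x : D n, ∀ᶠ k in atTop, (x ∈ Icc (a k) (b k) ↔ x ∈ Icc a0 b0) := by
  filter_upwards [ae_all_iff.2 fun i => Measure.ae_eval_ne (fun _ : Fin n => volume) i (a0 i),
    ae_all_iff.2 fun i => Measure.ae_eval_ne (fun _ : Fin n => volume) i (b0 i)] with x h1 h2
  have e1 : ∀ i, ∀ᶠ k in atTop, (a k i ≤ x i ↔ a0 i ≤ x i) := fun i => by
    rcases lt_or_gt_of_ne (h1 i) with h | h
    · exact ((tendsto_pi_nhds.1 ta i).eventually_const_lt h).mono fun k q =>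
        iff_of_false q.not_ge h.not_ge
    · exact ((tendsto_pi_nhds.1 ta i).eventually_lt_const h).mono fun k q =>
        iff_of_true q.le h.le
  have e2 : ∀ i, ∀ᶠ k in atTop, (x i ≤ b k i ↔ x i ≤ b0 i) := fun i => by
    rcases lt_or_gt_of_ne (h2 i) with h | h
    · exact ((tendsto_pi_nhds.1 tb i).eventually_const_lt h).mono fun k q =>
        iff_of_true q.le h.le
    · exact ((tendsto_pi_nhds.1 tb i).eventually_lt_const h).mono fun k q =>
        iff_of_false q.not_ge h.not_ge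
  filter_upwards [eventually_all.2 e1, eventually_all.2 e2] with k q1 q2
  exact and_congr (forall_congr' q1) (forall_congr' q2)

theorem limT_dct {a b : ℕ → D n} {a0 b0 : D n} (ta : Tendsto a atTop (𝓝 a0))
    (tb : Tendsto b atTop (𝓝 b0)) {F : ℕ → D n → ℝ} {F0 g : D n → ℝ}
    (hF : ∀ k, StronglyMeasurable (F k)) (hg : Integrable g) (hb : ∀ k x, ‖F k x‖ ≤ g x)
    (hl : ∀ᵐ x : D n, x ∈ Icc a0 b0 → Tendsto (fun k => F k x) atTop (𝓝 (F0 x))) :
    Tendsto (fun k => ∫ x in Icc (a k) (b k), F k x) atTop (𝓝 (∫ x in Icc a0 b0, F0 x)) := by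
  simp only [← integral_indicator measurableSet_Icc]
  refine tendsto_integral_of_dominated_convergence g
    (fun k => ((hF k).indicator measurableSet_Icc).aestronglyMeasurable) hg
    (fun k => ae_of_all _ fun x => (norm_indicator_le_norm_self _ _).trans (hb k x)) ?_
  filter_upwards [hl, limT_box ta tb] with x h1 h2
  by_cases hx : x ∈ Icc a0 b0
  · rw [indicator_of_mem hx]
    exact (h1 hx).congr' (h2.mono fun k q => (indicator_of_mem (q.2 hx) _).symm)
  · rw [indicator_of_notMem hx]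
    exact tendsto_const_nhds.congr' (h2.mono fun k q => (indicator_of_notMem (mt q.1 hx) _).symm)

theorem pr_add (A B C : D n →L[ℝ] V m) : pr A (B + C) = pr A B + pr A C := by
  simp only [pr, col, add_apply, inner_add_right, Finset.sum_add_distrib,
    mul_add]

theorem limT_meas {G A : D n → D n →L[ℝ] V m} {P : D n → V m →L[ℝ] V m}
    (hG : StronglyMeasurable G) (hP : StronglyMeasurable P) (hA : StronglyMeasurable A) :
    StronglyMeasurable fun x => pr (G x) ((P x).comp (A x)) := by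
  have c : Continuous fun p : (V m →L[ℝ] V m) × (D n →L[ℝ] V m) => p.1.comp p.2 :=
    continuous_fst.clm_comp continuous_snd
  have h1 := c.comp_stronglyMeasurable (hP.prodMk hA)
  have h2 := continuous_pr.comp_stronglyMeasurable (hG.prodMk h1)
  exact h2

theorem limT_cont (A : D n →L[ℝ] V m) {P : V m → V m →L[ℝ] V m} (hP : Continuous P) :
    Continuous fun y => pr A ((P y).comp A) := by
  have h1 : Continuous fun y => (P y).comp A := hP.clm_comp continuous_const
  have h2 := continuous_pr.comp ((continuous_const (y := A)).prodMk h1)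
  exact h2

theorem limT_main (hn : 2 ≤ n) {Ω : Set (D n)} {u0 u : D n → V m} {G : D n → D n →L[ℝ] V m}
    {f : D n → V m} {Λ : ℝ} (S : Sol Ω u0 G f Λ) {x0 : D n}
    {r t0 : ℝ} (hr : 0 < r) {w : ℕ → D n → V m}
    (hw : Apx (closedBall x0 (3 * r)) u G w) {a b : ℕ → D n} {a0 b0 : D n}
    (hB : Box x0 r t0 w a b a0 b0) {Φ : V m → V m} (hΦ : Nice Φ)
    (he : ∀ k, ∫ x in Icc (a k) (b k), pr (G x) ((fderiv ℝ Φ (w k x)).comp (fderiv ℝ (w k) x)) =
      ∫ x in Icc (a k) (b k), ⟪f x, Φ (w k x)⟫) :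
    ∫ x in Icc a0 b0, pr (G x) ((fderiv ℝ Φ (u x)).comp (G x)) =
      ∫ x in Icc a0 b0, ⟪f x, Φ (u x)⟫ := by
  obtain ⟨hs, B, hb⟩ := hΦ
  obtain ⟨k0, rfl⟩ : ∃ k, n = k + 1 := ⟨n - 1, by omega⟩
  have B0 : 0 ≤ B := (norm_nonneg _).trans (hb 0).1
  have h23 : closedBall x0 (2 * r) ⊆ closedBall x0 (3 * r) :=
    closedBall_subset_closedBall (by linarith)
  have dΦ : Continuous fun y => fderiv ℝ Φ y := hs.continuous_fderiv (by simp)
  have cw := fun k => (hw.sm k).continuous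
  have dw : ∀ k, Continuous fun x => fderiv ℝ (w k) x := fun k =>
    (hw.sm k).continuous_fderiv (by simp)
  have iG : Integrable fun x => fro (G x) ^ (k0 + 1) := by
    refine ((S.lG.integrable_norm_pow (Nat.succ_ne_zero k0)).const_mul
      (((k0 + 1 : ℕ) : ℝ) ^ (k0 + 1))).mono'
      ((continuous_fro.pow _).comp_stronglyMeasurable S.mG).aestronglyMeasurable
      (ae_of_all _ fun x => ?_)
    rw [Real.norm_of_nonneg (pow_nonneg (fro_nonneg _) _), ← mul_pow]
    exact pow_le_pow_left₀ (fro_nonneg _) (fro_le_norm _) _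
  have hl : ∀ᵐ x : D (k0 + 1), x ∈ Icc a0 b0 → Tendsto (fun k => w k x) atTop (𝓝 (u x)) :=
    ((ae_restrict_iff' measurableSet_closedBall).1 hw.ae).mono fun x q hx => q (h23 (hB.hi hx))
  have mp : ∀ k {A : D (k0 + 1) → D (k0 + 1) →L[ℝ] V m}, StronglyMeasurable A →
      StronglyMeasurable fun x => pr (G x) ((fderiv ℝ Φ (w k x)).comp (A x)) := fun k A hA =>
    limT_meas S.mG (dΦ.comp (cw k)).stronglyMeasurable hA
  have bp : ∀ (A A' : D (k0 + 1) →L[ℝ] V m) y, ‖pr A ((fderiv ℝ Φ y).comp A')‖ ≤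
      (k0 + 1 : ℕ) * B * (fro A ^ k0 * ‖A'‖) := fun A A' y => by
    have := fro_nonneg A
    calc _ ≤ _ := abs_pr_le hn A _
      _ ≤ (k0 + 1 : ℕ) * (fro A ^ k0 * (B * ‖A'‖)) := by
        rw [Nat.add_sub_cancel]
        gcongr
        exact ((fderiv ℝ Φ y).opNorm_comp_le A').trans
          (mul_le_mul_of_nonneg_right (hb y).2 (norm_nonneg _))
      _ = _ := by ring
  have b1 : ∀ k x, ‖pr (G x) ((fderiv ℝ Φ (w k x)).comp (G x))‖ ≤
      (k0 + 1 : ℕ) * B * (k0 + 1 : ℕ) * fro (G x) ^ (k0 + 1) := fun k x => by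
    have := fro_nonneg (G x)
    calc _ ≤ _ := bp _ _ _
      _ ≤ (k0 + 1 : ℕ) * B * (fro (G x) ^ k0 * ((k0 + 1 : ℕ) * fro (G x))) := by
        gcongr
        exact norm_le_fro _
      _ = _ := by ring
  have l1 := limT_dct hB.ta hB.tb (F0 := fun x => pr (G x) ((fderiv ℝ Φ (u x)).comp (G x)))
    (fun k => mp k S.mG) (iG.const_mul _) b1 (hl.mono fun x q hx =>
      ((limT_cont (G x) dΦ).tendsto (u x)).comp (q hx))
  have l2 := limT_dct hB.ta hB.tb (F := fun k x => ⟪f x, Φ (w k x)⟫)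
    (F0 := fun x => ⟪f x, Φ (u x)⟫)
    (fun k => S.mf.inner (hs.continuous.comp (cw k)).stronglyMeasurable)
    (iG.const_mul (Λ * ((m : ℝ) ^ (k0 + 1) * (k0 + 1).factorial) * B)) (fun k x => by
      have := S.L0
      have := fro_nonneg (G x)
      calc _ ≤ _ := norm_inner_le_norm _ _
        _ ≤ Λ * ((m : ℝ) ^ (k0 + 1) * (k0 + 1).factorial * fro (G x) ^ (k0 + 1)) * B :=
          mul_le_mul ((S.bd x).trans (mul_le_mul_of_nonneg_left (jac_le _) S.L0)) (hb _).1
            (norm_nonneg _) (by positivity)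
        _ = _ := by ring)
    (hl.mono fun x q hx => ((continuous_const.inner hs.continuous).tendsto (u x)).comp (q hx))
  set Er : ℕ → D (k0 + 1) → ℝ := fun k => (Icc (a k) (b k)).indicator fun x =>
    pr (G x) ((fderiv ℝ Φ (w k x)).comp (fderiv ℝ (w k) x - G x)) with hEr
  have mE : ∀ k, StronglyMeasurable (Er k) := fun k =>
    (mp k ((dw k).stronglyMeasurable.sub S.mG)).indicator measurableSet_Icc
  have l3 : Tendsto (fun k => ∫⁻ x, ‖Er k x‖ₑ) atTop (𝓝 0) := by
    have h := ENNReal.Tendsto.const_mul (a := ENNReal.ofReal ((k0 + 1 : ℕ) * B))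
      (limT_small k0 (fun x => fro_nonneg (G x)) iG.integrableOn hw.lG)
      (Or.inr ENNReal.ofReal_ne_top)
    rw [mul_zero] at h
    refine tendsto_of_tendsto_of_tendsto_of_le_of_le tendsto_const_nhds h (fun _ => zero_le)
      fun k => ?_
    simp only [hEr, enorm_indicator_eq_indicator_enorm]
    rw [lintegral_indicator measurableSet_Icc, ← lintegral_const_mul' _ _ ENNReal.ofReal_ne_top]
    refine (lintegral_mono_set ((hB.sub k).trans h23)).trans (lintegral_mono fun x => ?_)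
    rw [← ofReal_norm, ← ENNReal.ofReal_mul (by positivity)]
    exact ENNReal.ofReal_le_ofReal (bp _ _ _)
  have iE : ∀ᶠ k in atTop, Integrable (Er k) :=
    (l3.eventually_lt_const ENNReal.zero_lt_top).mono fun k q => ⟨(mE k).aestronglyMeasurable, q⟩
  have l4 := tendsto_integral_of_L1 (fun _ => (0 : ℝ)) aestronglyMeasurable_const iE
    (by simpa using l3)
  have l5 := l1.add l4
  rw [integral_zero, add_zero] at l5
  refine tendsto_nhds_unique (l5.congr' (iE.mono fun k q => ?_)) l2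
  have i1 : IntegrableOn (fun x => pr (G x) ((fderiv ℝ Φ (w k x)).comp (G x)))
      (Icc (a k) (b k)) := ((iG.const_mul _).mono' (mp k S.mG).aestronglyMeasurable
        (ae_of_all _ (b1 k))).integrableOn
  simp only [hEr] at q ⊢
  rw [← he k, integral_indicator measurableSet_Icc,
    ← integral_add i1 ((integrable_indicator_iff measurableSet_Icc).1 q)]
  refine integral_congr_ae (ae_of_all _ fun x => ?_)
  simp only [← pr_add, ← ContinuousLinearMap.comp_add, add_sub_cancel]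

end Pool.Agent.Lib.MP_a785f2_an.HS
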