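import Mathlib

/-! Conjugate functions over bounded sets and the dual transport functional. -/

namespace Pool.Agent.Lib.MP_a785f2_an.HS

open MeasureTheory Set Finset

variable {n : ℕ}

/-- The conjugate of `c` over the set `S`. -/
noncomputable def cj (S : Set (Fin n → ℝ)) (c : (Fin n → ℝ) → ℝ) (p : Fin n → ℝ) : ℝ :=
  ⨆ y : S, (p ⬝ᵥ y.1 - c y.1)

/-- `S` is not empty and lies in a cube, and `c` is bounded on `S`. -/
structure Bd (S : Set (Fin n → ℝ)) (D : ℝ) (c : (Fin n → ℝ) → ℝ) : Prop where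
  ne : S.Nonempty
  bd : ∀ y ∈ S, ∀ i, |y i| ≤ D
  cb : ∃ M, ∀ y ∈ S, |c y| ≤ M

theorem dot_le {p y : Fin n → ℝ} {D : ℝ} (h : ∀ i, |y i| ≤ D) : |p ⬝ᵥ y| ≤ D * ∑ i, |p i| := by
  rw [dotProduct, Finset.mul_sum]
  refine (Finset.abs_sum_le_sum_abs _ _).trans (Finset.sum_le_sum fun i _ => ?_)
  rw [abs_mul, mul_comm]
  exact mul_le_mul_of_nonneg_right (h i) (abs_nonneg _)

variable {S : Set (Fin n → ℝ)} {D : ℝ} {c : (Fin n → ℝ) → ℝ}

theorem Bd.le (h : Bd S D c) (p : Fin n → ℝ) {y} (hy : y ∈ S) : p ⬝ᵥ y - c y ≤ cj S c p := by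
  obtain ⟨M, hM⟩ := h.cb
  refine le_ciSup (f := fun y : S => p ⬝ᵥ y.1 - c y.1) ⟨D * ∑ i, |p i| + M, ?_⟩ ⟨y, hy⟩
  rintro _ ⟨y, rfl⟩
  have := abs_le.1 (dot_le (p := p) (h.bd y y.2))
  have := abs_le.1 (hM y y.2)
  beta_reduce
  linarith

theorem Bd.cj_le (h : Bd S D c) {p : Fin n → ℝ} {a : ℝ} (k : ∀ y ∈ S, p ⬝ᵥ y - c y ≤ a) :
    cj S c p ≤ a :=
  haveI := h.ne.to_subtype
  ciSup_le fun y => k y y.2

theorem Bd.lip (h : Bd S D c) (p q : Fin n → ℝ) : |cj S c p - cj S c q| ≤ D * ∑ i, |p i - q i| := by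
  have key : ∀ p q : Fin n → ℝ, cj S c p ≤ cj S c q + D * ∑ i, |p i - q i| := fun p q =>
    h.cj_le fun y hy => by
      have a := h.le q hy
      have b := abs_le.1 (dot_le (p := p - q) (h.bd y hy))
      rw [sub_dotProduct] at b
      simp only [Pi.sub_apply] at b
      linarith
  have a := key p q
  have b := key q p
  simp only [abs_sub_comm (q _)] at b
  exact abs_le.2 ⟨by linarith, by linarith⟩

theorem Bd.cvx (h : Bd S D c) : ConvexOn ℝ univ (cj S c) :=
  ⟨convex_univ, fun p _ q _ a b ha hb hab => h.cj_le fun y hy => by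
    have k1 := mul_le_mul_of_nonneg_left (h.le p hy) ha
    have k2 := mul_le_mul_of_nonneg_left (h.le q hy) hb
    rw [add_dotProduct, smul_dotProduct, smul_dotProduct]
    simp only [smul_eq_mul]
    have : c y = a * c y + b * c y := by rw [← add_mul, hab, one_mul]
    linarith⟩

theorem cont_of_lip {θ : (Fin n → ℝ) → ℝ} (h : ∀ p q, |θ p - θ q| ≤ D * ∑ i, |p i - q i|) :
    Continuous θ := by
  refine continuous_iff_continuousAt.2 fun q => tendsto_iff_norm_sub_tendsto_zero.2 ?_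
  refine squeeze_zero (fun _ => norm_nonneg _) (fun p => h p q) ?_
  have : Continuous fun p : Fin n → ℝ => D * ∑ i, |p i - q i| := by fun_prop
  simpa using this.tendsto q

theorem Bd.cont (h : Bd S D c) : Continuous (cj S c) := cont_of_lip h.lip

theorem Bd.next (h : Bd S D c) {S' : Set (Fin n → ℝ)} {D' : ℝ} (ne : S'.Nonempty)
    (bd : ∀ y ∈ S', ∀ i, |y i| ≤ D') : Bd S' D' (cj S c) := by
  refine ⟨ne, bd, |cj S c 0| + |D| * (n * D'), fun y hy => ?_⟩
  have a := h.lip y 0
  have b : ∑ i, |y i - (0 : Fin n → ℝ) i| ≤ n * D' := by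
    simpa using Finset.sum_le_card_nsmul Finset.univ (fun i => |y i|) D' fun i _ => bd y hy i
  have e : D * ∑ i, |y i - (0 : Fin n → ℝ) i| ≤ |D| * (n * D') :=
    mul_le_mul (le_abs_self _) b (Finset.sum_nonneg fun _ _ => abs_nonneg _) (abs_nonneg _)
  have := abs_sub_abs_le_abs_sub (cj S c y) (cj S c 0)
  linarith

/-- The cube of half side `R`. -/
def cube (n : ℕ) (R : ℝ) : Set (Fin n → ℝ) := Icc (fun _ => -R) fun _ => R

theorem mem_cube {R : ℝ} {p : Fin n → ℝ} : p ∈ cube n R ↔ ∀ i, |p i| ≤ R := by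
  simp only [cube, Set.mem_Icc, Pi.le_def, abs_le, forall_and]

theorem cube_cpt (R : ℝ) : IsCompact (cube n R) := isCompact_Icc

theorem cube_vol {R : ℝ} (h : 0 ≤ R) : volume.real (cube n R) = (2 * R) ^ n := by
  rw [Measure.real, cube, Real.volume_Icc_pi_toReal fun _ => by linarith]
  simp [two_mul]

/-- The dual functional. -/
noncomputable def Psi (U : Set (Fin n → ℝ)) (R : ℝ) (c : (Fin n → ℝ) → ℝ) : ℝ :=
  volume.real U * (∫ p in cube n R, cj U c p) + (2 * R) ^ n * ∫ y in U, c y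

theorem Bd.fin (h : Bd S D c) : volume S ≠ ⊤ :=
  ((measure_mono fun y hy => mem_cube.2 (h.bd y hy)).trans_lt (cube_cpt D).measure_lt_top).ne

theorem Bd.int (h : Bd S D c) (hS : MeasurableSet S) (hc : Measurable c) : IntegrableOn c S := by
  obtain ⟨M, hM⟩ := h.cb
  exact Measure.integrableOn_of_bounded h.fin hc.aestronglyMeasurable
    ((ae_restrict_mem hS).mono fun y hy => hM y hy)

theorem Bd.int2 (h : Bd S D c) (R : ℝ) : IntegrableOn (cj S c) (cube n R) :=
  h.cont.continuousOn.integrableOn_compact (cube_cpt R)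

theorem Bd.psi_ge (h : Bd S D c) (hS : MeasurableSet S) (hc : Measurable c) {R : ℝ} (hR : 0 ≤ R) :
    -(D * (n * R)) * volume.real S * (2 * R) ^ n ≤ Psi S R c := by
  have k : ∀ p ∈ cube n R, -(D * (n * R)) * volume.real S - ∫ y in S, c y ≤
      volume.real S * cj S c p := fun p hp => by
    have : ∫ _ in S, (-(D * (n * R)) - cj S c p) ≤ ∫ y in S, c y := by
      refine setIntegral_mono_on (integrableOn_const h.fin) (h.int hS hc) hS fun y hy => ?_
      have a := h.le p hy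
      rcases Nat.eq_zero_or_pos n with rfl | hn
      · simp only [dotProduct, Finset.univ_eq_empty, Finset.sum_empty] at a
        simp only [Nat.cast_zero, zero_mul, mul_zero]
        linarith
      have b := abs_le.1 (dot_le (p := p) (h.bd y hy))
      have d : ∑ i, |p i| ≤ n * R := by
        simpa using Finset.sum_le_card_nsmul Finset.univ (fun i => |p i|) R
          fun i _ => mem_cube.1 hp i
      have e := mul_le_mul_of_nonneg_left d ((abs_nonneg _).trans (h.bd y hy ⟨0, hn⟩))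
      linarith
    rw [setIntegral_const, smul_eq_mul] at this
    linarith
  have := setIntegral_mono_on (integrableOn_const (cube_cpt R).measure_lt_top.ne)
    ((h.int2 R).const_mul _) (cube_cpt R).measurableSet k
  rw [setIntegral_const, smul_eq_mul, integral_const_mul, cube_vol hR] at this
  unfold Psi
  linarith

/-- A near minimiser of the dual functional that is convex and Lipschitz. -/
theorem exists_near {U : Set (Fin n → ℝ)} (hU : MeasurableSet U) (ne : U.Nonempty)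
    (bd : ∀ y ∈ U, ∀ i, |y i| ≤ D) {R g : ℝ} (hR : 0 ≤ R) (hg : 0 < g) :
    ∃ θ, ConvexOn ℝ univ θ ∧ (∀ p q, |θ p - θ q| ≤ R * ∑ i, |p i - q i|) ∧ Bd U D θ ∧
      ∀ c, Bd U D c → Measurable c → Psi U R θ ≤ Psi U R c + g := by
  let W : Set ℝ := Psi U R '' {c | Bd U D c ∧ Measurable c}
  have w1 : W.Nonempty := ⟨_, fun _ => 0, ⟨⟨ne, bd, 0, by simp⟩, measurable_const⟩, rfl⟩
  have w2 : BddBelow W := ⟨_, by
    rintro _ ⟨c, hc, rfl⟩
    exact hc.1.psi_ge hU hc.2 hR⟩
  obtain ⟨_, ⟨c, ⟨h, hc⟩, rfl⟩, k⟩ := Real.lt_sInf_add_pos w1 hg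
  have h1 : Bd (cube n R) R (cj U c) :=
    h.next ⟨0, mem_cube.2 fun _ => by simpa using hR⟩ fun y => mem_cube.1
  have h2 : Bd U D (cj (cube n R) (cj U c)) := h1.next ne bd
  refine ⟨_, h1.cvx, h1.lip, h2, fun c' a b => ?_⟩
  have e1 : ∫ p in cube n R, cj U (cj (cube n R) (cj U c)) p ≤ ∫ p in cube n R, cj U c p :=
    setIntegral_mono_on (h2.int2 R) (h.int2 R) (cube_cpt R).measurableSet fun p hp =>
      h2.cj_le fun y _ => by
        have := h1.le y hp
        rw [dotProduct_comm] at this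
        linarith
  have e2 : ∫ y in U, cj (cube n R) (cj U c) y ≤ ∫ y in U, c y :=
    setIntegral_mono_on (h2.int hU h1.cont.measurable) (h.int hU hc) hU fun y hy =>
      h1.cj_le fun p _ => by
        have := h.le p hy
        rw [dotProduct_comm] at this
        linarith
  have e3 := mul_le_mul_of_nonneg_left e1 (measureReal_nonneg (μ := volume) (s := U))
  have e4 := mul_le_mul_of_nonneg_left e2 (by positivity : 0 ≤ (2 * R) ^ n)
  have e5 : sInf W ≤ Psi U R c' := csInf_le w2 ⟨c', ⟨a, b⟩, rfl⟩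
  unfold Psi at *
  linarith

end Pool.Agent.Lib.MP_a785f2_an.HS
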