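import Pool.Agent.Lib.MP_a785f2_an.HS.MA1

/-! A convex Lipschitz function whose second differences dominate determinants. -/

namespace Pool.Agent.Lib.MP_a785f2_an.HS

open MeasureTheory Set Finset Filter Topology Matrix

variable {n : ℕ}

theorem cvx_up {φ : (Fin n → ℝ) → ℝ} (h : ConvexOn ℝ univ φ) (h0 : φ 0 = 0)
    (h1 : ∀ k, φ (-Pi.single k 1) = 0) :
    (∀ k, 0 ≤ φ (Pi.single k 1)) ∧
      ∀ ξ : Fin n → ℝ, ∑ i, |ξ i| ≤ 1 → |φ ξ| ≤ ∑ k, φ (Pi.single k 1) := by
  have sy : ∀ ξ, 0 ≤ φ ξ + φ (-ξ) := fun ξ => by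
    have := h.2 (mem_univ ξ) (mem_univ (-ξ)) (by norm_num : (0 : ℝ) ≤ 1 / 2)
      (by norm_num : (0 : ℝ) ≤ 1 / 2) (by norm_num)
    rw [smul_neg, add_neg_cancel, h0] at this
    simp only [smul_eq_mul] at this
    linarith
  have p : ∀ k, 0 ≤ φ (Pi.single k 1) := fun k => by simpa [h1] using sy (Pi.single k 1)
  have up : ∀ ξ : Fin n → ℝ, ∑ i, |ξ i| ≤ 1 → φ ξ ≤ ∑ k, φ (Pi.single k 1) := fun ξ hξ => by
    let q : Fin n → Fin n → ℝ := fun k => if 0 ≤ ξ k then Pi.single k 1 else -Pi.single k 1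
    have := h.map_add_sum_le (t := Finset.univ) (w := fun k => |ξ k|) (p := q)
      (v := 1 - ∑ i, |ξ i|) (q := 0) (fun _ _ => abs_nonneg _) (by ring) (fun _ _ => mem_univ _)
      (by linarith) (mem_univ _)
    have e : ∑ k, |ξ k| • q k = ξ := by
      conv_rhs => rw [← Finset.univ_sum_single ξ]
      refine Finset.sum_congr rfl fun k _ => ?_
      simp only [q]
      split_ifs with a
      · rw [abs_of_nonneg a, ← Pi.single_smul', smul_eq_mul, mul_one]
      · rw [abs_of_neg (not_le.1 a), smul_neg, neg_smul, neg_neg, ← Pi.single_smul', smul_eq_mul,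
          mul_one]
    rw [smul_zero, zero_add, e, h0, smul_zero, zero_add] at this
    refine this.trans (Finset.sum_le_sum fun k _ => ?_)
    have b : |ξ k| ≤ 1 := (Finset.single_le_sum (f := fun i => |ξ i|) (fun _ _ => abs_nonneg _)
      (Finset.mem_univ k)).trans hξ
    simp only [q, smul_eq_mul]
    split_ifs
    · exact mul_le_of_le_one_left (p k) b
    · rw [h1, mul_zero]
      exact p k
  refine ⟨p, fun ξ hξ => abs_le.2 ⟨?_, up ξ hξ⟩⟩
  have := up (-ξ) (by simpa using hξ)
  linarith [sy ξ]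

/-- The sum of the second differences along the columns of `T`. -/
def sd (θ : (Fin n → ℝ) → ℝ) (z : Fin n → ℝ) (T : Matrix (Fin n) (Fin n) ℝ) : ℝ :=
  ∑ k, (θ (z + T.col k) + θ (z - T.col k) - 2 * θ z)

theorem slope_bd {θ : (Fin n → ℝ) → ℝ} (h : ConvexOn ℝ univ θ) (z : Fin n → ℝ)
    (T : Matrix (Fin n) (Fin n) ℝ) :
    0 ≤ sd θ z T ∧ ∀ (p η : Fin n → ℝ) (t : ℝ), ∑ i, |η i| ≤ 1 / 2 →
      (∀ ξ : Fin n → ℝ, ∑ i, |ξ i| ≤ 1 → p ⬝ᵥ (z + T *ᵥ ξ) - θ (z + T *ᵥ ξ) ≤
        p ⬝ᵥ (z + T *ᵥ η) - θ (z + T *ᵥ η) + t) →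
      ∀ k, |(Tᵀ *ᵥ p) k - (θ z - θ (z - T.col k))| ≤ 2 * (2 * sd θ z T + t) := by
  let s : Fin n → ℝ := fun k => θ z - θ (z - T.col k)
  let φ : (Fin n → ℝ) → ℝ := fun ξ => θ (z + T *ᵥ ξ) - θ z - s ⬝ᵥ ξ
  have c : ConvexOn ℝ univ φ := ⟨convex_univ, fun x _ y _ a b ha hb hab => by
    have := h.2 (mem_univ (z + T *ᵥ x)) (mem_univ (z + T *ᵥ y)) ha hb hab
    have e : a • (z + T *ᵥ x) + b • (z + T *ᵥ y) = z + T *ᵥ (a • x + b • y) := by
      rw [mulVec_add, mulVec_smul, mulVec_smul, smul_add, smul_add, add_add_add_comm, ← add_smul,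
        hab, one_smul]
    rw [e] at this
    have e2 : θ z = a * θ z + b * θ z := by rw [← add_mul, hab, one_mul]
    simp only [φ, dotProduct_add, dotProduct_smul, smul_eq_mul] at this ⊢
    linarith⟩
  have e1 : ∀ k, φ (Pi.single k 1) = θ (z + T.col k) + θ (z - T.col k) - 2 * θ z := fun k => by
    simp only [φ, s, mulVec_single_one, dotProduct_single, mul_one]
    ring
  obtain ⟨p1, p2⟩ := cvx_up c (by simp [φ]) fun k => by
    simp only [φ, s, mulVec_neg, mulVec_single_one, dotProduct_neg, dotProduct_single, mul_one,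
      ← sub_eq_add_neg]
    ring
  simp only [e1] at p1 p2
  refine ⟨Finset.sum_nonneg fun k _ => p1 k, fun p η t hη hp k => ?_⟩
  have key : ∀ a : ℝ, |a| = 1 / 2 → a * ((Tᵀ *ᵥ p) k - s k) ≤ 2 * sd θ z T + t := fun a ha => by
    have l : ∑ i, |(η + Pi.single k a : Fin n → ℝ) i| ≤ 1 := by
      have : ∑ i, |(Pi.single k a : Fin n → ℝ) i| = 1 / 2 := by
        rw [Finset.sum_eq_single k (fun j _ hj => by simp [hj]) (by simp), Pi.single_eq_same, ha]
      have b := Finset.sum_le_sum fun i (_ : i ∈ Finset.univ) =>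
        abs_add_le (η i) ((Pi.single k a : Fin n → ℝ) i)
      rw [Finset.sum_add_distrib] at b
      simp only [Pi.add_apply]
      linarith
    have b1 := abs_le.1 (p2 _ l)
    have b2 := abs_le.1 (p2 η (by linarith))
    have b3 := hp _ l
    have e : p ⬝ᵥ (z + T *ᵥ (η + Pi.single k a)) = p ⬝ᵥ (z + T *ᵥ η) + a * (Tᵀ *ᵥ p) k := by
      rw [mulVec_add, ← add_assoc, dotProduct_add, dotProduct_mulVec p T (Pi.single k a),
        dotProduct_single, mulVec_transpose, mul_comm]
    rw [e] at b3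
    simp only [φ, dotProduct_add, dotProduct_single] at b1 b2
    simp only [sd]
    rw [dotProduct_add] at b3
    linarith [b1.1, b1.2, b2.1, b2.2]
  have k1 := key (1 / 2) (by norm_num)
  have k2 := key (-(1 / 2)) (by norm_num)
  exact abs_le.2 ⟨by linarith, by linarith⟩

theorem near_est (hn : 0 < n) {U : Set (Fin n → ℝ)} (hU : MeasurableSet U) {D R g t : ℝ}
    (ht : 0 ≤ t) {θ : (Fin n → ℝ) → ℝ} (h : ConvexOn ℝ univ θ) (hc : Continuous θ)
    (hb : Bd U D θ) (mn : ∀ c, Bd U D c → Measurable c → Psi U R θ ≤ Psi U R c + g)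
    (z : Fin n → ℝ) (T : Matrix (Fin n) (Fin n) ℝ) (hT : T.det ≠ 0)
    (sub : ∀ ξ : Fin n → ℝ, ∑ i, |ξ i| ≤ 1 → z + T *ᵥ ξ ∈ U) :
    (2 * R) ^ n * (t * (|T.det| * (1 / n) ^ n)) ≤
      volume.real U * (t * (|T.det|⁻¹ * (4 * (2 * sd θ z T + t)) ^ n)) + g := by
  obtain ⟨s0, sl⟩ := slope_bd h z T
  have n0 : (0 : ℝ) < n := by exact_mod_cast hn
  let A : Set (Fin n → ℝ) := (fun y => z + y) '' (toLin' T '' cube n (1 / (2 * n)))
  let w : ℝ := 2 * (2 * sd θ z T + t)
  let s : Fin n → ℝ := fun k => θ z - θ (z - T.col k)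
  let P : Set (Fin n → ℝ) := toLin' Tᵀ ⁻¹' ((fun y => -s + y) ⁻¹' cube n w)
  have w0 : 0 ≤ w := by positivity
  have cA : IsCompact A :=
    ((cube_cpt _).image (toLin' T).continuous_of_finiteDimensional).image (by fun_prop)
  have mA := cA.measurableSet
  have mP : MeasurableSet P := ((toLin' Tᵀ).continuous_of_finiteDimensional).measurable
    ((by fun_prop : Measurable fun y => -s + y) (cube_cpt w).measurableSet)
  have hA : ∀ y ∈ A, ∃ η : Fin n → ℝ, ∑ i, |η i| ≤ 1 / 2 ∧ y = z + T *ᵥ η := by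
    rintro _ ⟨_, ⟨η, hη, rfl⟩, rfl⟩
    refine ⟨η, ?_, rfl⟩
    have := Finset.sum_le_card_nsmul Finset.univ (fun i => |η i|) _ fun i _ => mem_cube.1 hη i
    rw [Finset.card_univ, Fintype.card_fin, nsmul_eq_mul] at this
    exact this.trans (le_of_eq (by field_simp))
  have AU : A ⊆ U := fun y hy => by
    obtain ⟨η, a, rfl⟩ := hA y hy
    exact sub η (by linarith)
  have vA : volume.real A = |T.det| * (1 / n) ^ n := by
    have := cube_vol (n := n) (R := 1 / (2 * n)) (by positivity)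
    rw [Measure.real] at this ⊢
    simp only [A]
    rw [Set.image_add_left, measure_preimage_add, Measure.addHaar_image_linearMap,
      ENNReal.toReal_mul, this, ENNReal.toReal_ofReal (abs_nonneg _), LinearMap.det_toLin']
    congr 2
    field_simp
  have vP' : volume P = ENNReal.ofReal |T.det|⁻¹ * volume (cube n w) := by
    rw [Measure.addHaar_preimage_linearMap _ (by rwa [LinearMap.det_toLin', det_transpose]),
      measure_preimage_add, LinearMap.det_toLin', det_transpose, abs_inv]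
  have vP : volume.real P = |T.det|⁻¹ * (4 * (2 * sd θ z T + t)) ^ n := by
    have := cube_vol (n := n) w0
    rw [Measure.real] at this ⊢
    rw [vP', ENNReal.toReal_mul, this, ENNReal.toReal_ofReal (by positivity)]
    congr 2
    simp only [w]
    ring
  have fP : volume P ≠ ⊤ :=
    vP' ▸ ENNReal.mul_ne_top ENNReal.ofReal_ne_top (cube_cpt w).measure_lt_top.ne
  let c : (Fin n → ℝ) → ℝ := fun y => θ y - A.indicator (fun _ => t) y
  have mc : Measurable c := hc.measurable.sub (measurable_const.indicator mA)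
  have bc : Bd U D c := by
    obtain ⟨M, hM⟩ := hb.cb
    refine ⟨hb.ne, hb.bd, M + t, fun y hy => ?_⟩
    have := abs_le.1 (hM y hy)
    by_cases a : y ∈ A <;> simp only [c, a, indicator_of_mem, indicator_of_notMem, not_false_iff] <;>
      exact abs_le.2 ⟨by linarith, by linarith⟩
  have pt : ∀ p, cj U c p ≤ cj U θ p + P.indicator (fun _ => t) p := fun p =>
    bc.cj_le fun y hy => by
      have l := hb.le p hy
      have i0 : 0 ≤ P.indicator (fun _ => t) p := indicator_nonneg (fun _ _ => ht) p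
      by_cases a : y ∈ A
      · simp only [c, indicator_of_mem a]
        by_cases b : p ∈ P
        · rw [indicator_of_mem b]
          linarith
        · by_contra k
          obtain ⟨η, e, rfl⟩ := hA y a
          refine b (mem_cube.2 fun j => ?_)
          have := sl p η t e (fun ξ hξ => by linarith [hb.le p (sub ξ hξ)]) j
          rwa [sub_eq_neg_add] at this
      · simp only [c, indicator_of_notMem a]
        linarith
  have iP : Integrable (P.indicator fun _ => t) :=
    (integrable_indicator_iff mP).2 (integrableOn_const fP)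
  have e1 : ∫ p in cube n R, cj U c p ≤ (∫ p in cube n R, cj U θ p) + volume.real P * t := by
    refine (setIntegral_mono_on (bc.int2 R) ((hb.int2 R).add iP.integrableOn)
      (cube_cpt R).measurableSet fun p _ => pt p).trans ?_
    have := setIntegral_le_integral (s := cube n R) iP
      (Eventually.of_forall (indicator_nonneg fun _ _ => ht))
    have e : ∫ x, P.indicator (fun _ => t) x = volume.real P * t := by
      rw [integral_indicator mP, setIntegral_const, smul_eq_mul]
    simp only [Pi.add_apply]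
    rw [integral_add (hb.int2 R) iP.integrableOn]
    linarith
  have e2 : ∫ y in U, c y = (∫ y in U, θ y) - volume.real A * t := by
    rw [integral_sub (hb.int hU hc.measurable) ((integrable_indicator_iff mA).2
      (integrableOn_const cA.measure_lt_top.ne)).integrableOn, setIntegral_indicator mA,
      inter_eq_right.2 AU, setIntegral_const, smul_eq_mul]
  have e3 := mul_le_mul_of_nonneg_left e1 (measureReal_nonneg (μ := volume) (s := U))
  have e4 := mn c bc mc
  unfold Psi at e4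
  rw [e2, vA] at e4
  rw [vP] at e3
  linarith

/-- The dual transport lemma. -/
theorem ma_lemma (hn : 0 < n) {U : Set (Fin n → ℝ)} (hU : MeasurableSet U)
    (hb : Bornology.IsBounded U) {R : ℝ} (hR : 0 < R) (hv : volume.real U ≤ (2 * R) ^ n) :
    ∃ θ : (Fin n → ℝ) → ℝ, ConvexOn ℝ univ θ ∧ (∀ p q, |θ p - θ q| ≤ R * ∑ i, |p i - q i|) ∧
      ∀ (z : Fin n → ℝ) (T : Matrix (Fin n) (Fin n) ℝ),
        (∀ ξ : Fin n → ℝ, ∑ i, |ξ i| ≤ 1 → z + T *ᵥ ξ ∈ U) →
        T.det ^ 2 ≤ (8 * n * sd θ z T) ^ n := by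
  rcases U.eq_empty_or_nonempty with rfl | ne
  · exact ⟨fun _ => 0, convexOn_const _ convex_univ, fun p q => by simp; positivity,
      fun z T h => absurd (h 0 (by simp)) id⟩
  obtain ⟨D, hD⟩ := hb.exists_norm_le
  have bd : ∀ y ∈ U, ∀ i, |y i| ≤ D := fun y hy i => (norm_le_pi_norm y i).trans (hD y hy)
  choose θ c1 c2 c3 c4 using fun j : ℕ => exists_near hU ne bd hR.le (g := 1 / ((j : ℝ) + 1))
    (by positivity)
  have lim : ∀ y, ∃ a, Tendsto (fun j => θ j y - θ j 0) (hyperfilter ℕ) (𝓝 a) := fun y => by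
    obtain ⟨a, -, k⟩ := (isCompact_Icc (a := -(R * ∑ i, |y i - (0 : Fin n → ℝ) i|))
      (b := R * ∑ i, |y i - (0 : Fin n → ℝ) i|)).ultrafilter_le_nhds
      ((hyperfilter ℕ).map fun j => θ j y - θ j 0)
      (le_principal_iff.2 (Filter.mem_map.2 (univ_mem' fun j => abs_le.1 (c2 j y 0))))
    exact ⟨a, k⟩
  choose φ hφ using lim
  have cv : ConvexOn ℝ univ φ := ⟨convex_univ, fun x _ y _ a b ha hb hab => by
    refine le_of_tendsto_of_tendsto' (hφ _) (((hφ x).const_mul a).add ((hφ y).const_mul b))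
      fun j => ?_
    have := (c1 j).2 (mem_univ x) (mem_univ y) ha hb hab
    have e : θ j 0 = a * θ j 0 + b * θ j 0 := by rw [← add_mul, hab, one_mul]
    simp only [smul_eq_mul] at this
    linarith⟩
  refine ⟨φ, cv, fun p q => ?_, fun z T sub => ?_⟩
  · refine le_of_tendsto' ((hφ p).sub (hφ q)).abs fun j => ?_
    simpa using c2 j p q
  have s0 := (slope_bd cv z T).1
  by_cases hT : T.det = 0
  · rw [hT, zero_pow two_ne_zero]
    positivity
  have n0 : (0 : ℝ) < n := by exact_mod_cast hn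
  have d0 : 0 < |T.det| := abs_pos.2 hT
  have l1 : Tendsto (fun j => sd (θ j) z T) (hyperfilter ℕ) (𝓝 (sd φ z T)) := by
    refine (tendsto_finsetSum Finset.univ fun k _ => ((hφ (z + T.col k)).add
      (hφ (z - T.col k))).sub ((hφ z).const_mul 2)).congr fun j => ?_
    exact Finset.sum_congr rfl fun k _ => by ring
  have l2 : Tendsto (fun j : ℕ => 1 / ((j : ℝ) + 1)) (hyperfilter ℕ) (𝓝 0) :=
    tendsto_one_div_add_atTop_nhds_zero_nat.mono_left Nat.hyperfilter_le_atTop
  have key : ∀ t : ℝ, 0 < t → T.det ^ 2 ≤ (n * (4 * (2 * sd φ z T + t))) ^ n := fun t ht => by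
    have a := ge_of_tendsto' (((((((l1.const_mul 2).add_const t).const_mul 4).pow n).const_mul
      |T.det|⁻¹).const_mul t).const_mul (volume.real U) |>.add l2) fun j =>
      near_est hn hU ht.le (c1 j) (cont_of_lip (c2 j)) (c3 j) (c4 j) z T hT sub
    rw [add_zero] at a
    have b := le_of_mul_le_mul_left (le_of_mul_le_mul_left (a.trans
      (mul_le_mul_of_nonneg_right hv (by positivity))) (by positivity)) ht
    have e := mul_le_mul_of_nonneg_left b (by positivity : 0 ≤ |T.det| * (n : ℝ) ^ n)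
    rw [mul_pow, ← sq_abs]
    refine (le_of_eq ?_).trans (e.trans (le_of_eq ?_))
    · rw [one_div, inv_pow]
      field_simp
    · field_simp
  have l3 : Tendsto (fun t : ℝ => (n * (4 * (2 * sd φ z T + t))) ^ n) (𝓝[>] 0)
      (𝓝 ((n * (4 * (2 * sd φ z T + 0))) ^ n)) :=
    (Continuous.tendsto (by fun_prop) 0).mono_left nhdsWithin_le_nhds
  refine (ge_of_tendsto l3 (eventually_nhdsWithin_of_forall key)).trans (le_of_eq ?_)
  congr 1
  ring

end Pool.Agent.Lib.MP_a785f2_an.HS
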