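import Pool.Agent.Lib.MP_a785f2_an.HS.MollA

open MeasureTheory Metric Set Filter Topology
open scoped ContDiff RealInnerProductSpace ENNReal Convolution

namespace Pool.Agent.Lib.MP_a785f2_an.HS

variable {n m : ℕ}

theorem moll_fin (hn : 2 ≤ n) {F : Type} [NormedAddCommGroup F] {g : D n → F}
    (hg : MemLp g n volume) : ∫⁻ x, ‖g x‖ₑ ^ n ≠ ⊤ := by
  have h0 : (n : ℝ≥0∞) ≠ 0 := by exact_mod_cast (by omega : n ≠ 0)
  have h := lintegral_rpow_enorm_lt_top_of_eLpNorm_lt_top h0 (ENNReal.natCast_ne_top n) hg.2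
  simpa only [ENNReal.toReal_natCast, ENNReal.rpow_natCast] using h.ne

/-- Mollifications converge almost everywhere and in the mean of order `n`. -/
theorem moll_tendsto (hn : 2 ≤ n) {F : Type} [NormedAddCommGroup F] [NormedSpace ℝ F]
    [CompleteSpace F] {g : D n → F} (hm : StronglyMeasurable g) (hg : MemLp g n volume)
    {φ : ℕ → ContDiffBump (0 : D n)} (h0 : Tendsto (fun k => (φ k).rOut) atTop (𝓝 0))
    (h2 : ∀ k, (φ k).rOut ≤ 2 * (φ k).rIn) :
    (∀ᵐ x, Tendsto (fun k => ((φ k).normed volume ⋆[ContinuousLinearMap.lsmul ℝ ℝ, volume] g) x)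
      atTop (𝓝 (g x))) ∧
    Tendsto (fun k => ∫⁻ x,
      ‖((φ k).normed volume ⋆[ContinuousLinearMap.lsmul ℝ ℝ, volume] g) x - g x‖ₑ ^ n)
      atTop (𝓝 0) := by
  have h1 : (1 : ℝ≥0∞) ≤ n := by exact_mod_cast (by omega : 1 ≤ n)
  have hl : LocallyIntegrable g volume := hg.locallyIntegrable h1
  have hae := ContDiffBump.ae_convolution_tendsto_right_of_locallyIntegrable h0
    (Eventually.of_forall h2) hl
  refine ⟨hae, riesz_pow n hm (fun k => ?_) (by omega) (moll_fin hn hg)
    (fun k => moll_le (by omega) (φ k) hm) hae⟩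
  exact ((φ k).hasCompactSupport_normed.continuous_convolution_left _
    (φ k).continuous_normed hl).stronglyMeasurable

/-- Mollification: smooth approximations on a cube inside the open set. -/
theorem exists_apx (hn : 2 ≤ n) {Ω : Set (D n)} {u : D n → V m} {G : D n → D n →L[ℝ] V m}
    {f : D n → V m} {Λ : ℝ} (S : Sol Ω u G f Λ) {x0 : D n} {R : ℝ}
    (hK : closedBall x0 R ⊆ Ω) : ∃ w, Apx (closedBall x0 R) u G w := by
  obtain ⟨δ, hδ, hΩ⟩ := (isCompact_closedBall x0 R).exists_cthickening_subset_open S.op hK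
  have hp : ∀ k : ℕ, 0 < δ * (1 / ((k : ℝ) + 1)) := fun k => by positivity
  let φ : ℕ → ContDiffBump (0 : D n) := fun k =>
    ⟨δ * (1 / ((k : ℝ) + 1)) / 2, δ * (1 / ((k : ℝ) + 1)), half_pos (hp k), half_lt_self (hp k)⟩
  have h0 : Tendsto (fun k => (φ k).rOut) atTop (𝓝 0) := by
    have := (tendsto_one_div_add_atTop_nhds_zero_nat (𝕜 := ℝ)).const_mul δ
    rwa [mul_zero] at this
  have h2 : ∀ k, (φ k).rOut ≤ 2 * (φ k).rIn := fun k => by
    show δ * (1 / ((k : ℝ) + 1)) ≤ 2 * (δ * (1 / ((k : ℝ) + 1)) / 2)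
    linarith
  have h3 : ∀ k, (φ k).rOut ≤ δ := fun k => by
    show δ * (1 / ((k : ℝ) + 1)) ≤ δ
    refine mul_le_of_le_one_right hδ.le ?_
    rw [div_le_one (by positivity)]
    linarith [Nat.cast_nonneg (α := ℝ) k]
  have h1 : (1 : ℝ≥0∞) ≤ n := by exact_mod_cast (by omega : 1 ≤ n)
  have lu : LocallyIntegrable u volume := S.lu.locallyIntegrable h1
  have lG : LocallyIntegrable G volume := S.lG.locallyIntegrable h1
  obtain ⟨au, tu⟩ := moll_tendsto hn S.mu S.lu h0 h2
  obtain ⟨-, tG⟩ := moll_tendsto hn S.mG S.lG h0 h2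
  refine ⟨fun k => (φ k).normed volume ⋆[ContinuousLinearMap.lsmul ℝ ℝ, volume] u,
    fun k => (φ k).hasCompactSupport_normed.contDiff_convolution_left _
      (φ k).contDiff_normed lu, ae_restrict_of_ae au, ?_, ?_⟩
  · exact tendsto_of_tendsto_of_tendsto_of_le_of_le tendsto_const_nhds tu (fun _ => zero_le)
      fun _ => setLIntegral_le_lintegral _ _
  · refine tendsto_of_tendsto_of_tendsto_of_le_of_le tendsto_const_nhds tG (fun _ => zero_le)
      fun k => le_trans (le_of_eq ?_) (setLIntegral_le_lintegral (closedBall x0 R) _)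
    refine setLIntegral_congr_fun measurableSet_closedBall fun x hx => ?_
    have hx' : closedBall x (φ k).rOut ⊆ Ω :=
      ((closedBall_subset_closedBall (h3 k)).trans (closedBall_subset_cthickening hx δ)).trans hΩ
    simp only [moll_fderiv lu lG S.wk (φ k) hx']

end Pool.Agent.Lib.MP_a785f2_an.HS
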