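import Pool.Agent.Lib.MP_a785f2_an.HS.Defs

/-!
Mollification: the norm bound, convergence in the mean of order `n`, and the derivative.
-/

open MeasureTheory Metric Set Filter Topology ContinuousLinearMap
open scoped ContDiff RealInnerProductSpace ENNReal Convolution

namespace Pool.Agent.Lib.MP_a785f2_an.HS

variable {n : ℕ} {F : Type} [NormedAddCommGroup F] [NormedSpace ℝ F]

/-- Jensen against a weight of total mass one. -/
theorem moll_jensen {X : Type} [MeasurableSpace X] {μ : Measure X} {p : ℕ} (hp : 1 ≤ p)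
    {ρ h : X → ℝ≥0∞} (hρ : Measurable ρ) (hh : Measurable h) (h1 : ∫⁻ t, ρ t ∂μ = 1) :
    (∫⁻ t, ρ t * h t ∂μ) ^ p ≤ ∫⁻ t, ρ t * h t ^ p ∂μ := by
  have : IsProbabilityMeasure (μ.withDensity ρ) := ⟨by
    rw [withDensity_apply _ MeasurableSet.univ, Measure.restrict_univ, h1]⟩
  have e1 : ∫⁻ t, ρ t * h t ∂μ = ∫⁻ t, h t ∂(μ.withDensity ρ) := by
    rw [lintegral_withDensity_eq_lintegral_mul _ hρ hh]; rfl
  have e2 : ∫⁻ t, ρ t * h t ^ p ∂μ = ∫⁻ t, h t ^ p ∂(μ.withDensity ρ) := by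
    rw [lintegral_withDensity_eq_lintegral_mul _ hρ (hh.pow_const p)]; rfl
  rw [e1, e2]
  have hp0 : (0 : ℝ) < p := by exact_mod_cast hp
  have hp1 : (1 : ℝ) ≤ p := by exact_mod_cast hp
  have h2 := eLpNorm'_le_eLpNorm'_of_exponent_le (μ := μ.withDensity ρ) (f := h) one_pos hp1
    hh.aestronglyMeasurable
  simp only [eLpNorm', enorm_eq_self, ENNReal.rpow_one, div_one] at h2
  have h3 := ENNReal.rpow_le_rpow h2 hp0.le
  rw [← ENNReal.rpow_mul, one_div, inv_mul_cancel₀ hp0.ne', ENNReal.rpow_one] at h3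
  simpa only [ENNReal.rpow_natCast] using h3

/-- Mollification does not increase the integral of the `p`-th power of the norm. -/
theorem moll_le {p : ℕ} (hp : 1 ≤ p) (φ : ContDiffBump (0 : D n)) {g : D n → F}
    (hg : StronglyMeasurable g) :
    ∫⁻ x, ‖(φ.normed volume ⋆[lsmul ℝ ℝ, volume] g) x‖ₑ ^ p ≤ ∫⁻ x, ‖g x‖ₑ ^ p := by
  have hρ : Measurable fun t => ENNReal.ofReal (φ.normed volume t) :=
    φ.continuous_normed.measurable.ennreal_ofReal
  have h1 : ∫⁻ t, ENNReal.ofReal (φ.normed volume t) = 1 := by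
    rw [← ofReal_integral_eq_lintegral_ofReal φ.integrable_normed
      (ae_of_all _ fun t => φ.nonneg_normed t), φ.integral_normed, ENNReal.ofReal_one]
  have hm : Measurable fun x => ‖g x‖ₑ := hg.enorm
  calc ∫⁻ x, ‖(φ.normed volume ⋆[lsmul ℝ ℝ, volume] g) x‖ₑ ^ p
      ≤ ∫⁻ x, ∫⁻ t, ENNReal.ofReal (φ.normed volume t) * ‖g (x - t)‖ₑ ^ p := by
        refine lintegral_mono fun x => ?_
        refine le_trans ?_ (moll_jensen hp hρ (hm.comp (measurable_const.sub measurable_id)) h1)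
        refine pow_le_pow_left' ?_ p
        rw [convolution_def]
        refine (enorm_integral_le_lintegral_enorm _).trans (le_of_eq (lintegral_congr fun t => ?_))
        rw [lsmul_apply, enorm_smul, Real.enorm_of_nonneg (φ.nonneg_normed t)]
    _ = ∫⁻ t, ∫⁻ x, ENNReal.ofReal (φ.normed volume t) * ‖g (x - t)‖ₑ ^ p := by
        refine lintegral_lintegral_swap ?_
        exact ((hρ.comp measurable_snd).mul
          ((hm.comp (measurable_fst.sub measurable_snd)).pow_const p)).aemeasurable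
    _ = ∫⁻ t, ENNReal.ofReal (φ.normed volume t) * ∫⁻ x, ‖g x‖ₑ ^ p := by
        refine lintegral_congr fun t => ?_
        rw [lintegral_const_mul' _ _ ENNReal.ofReal_ne_top]
        congr 1
        exact lintegral_sub_right_eq_self (fun x => ‖g x‖ₑ ^ p) t
    _ = ∫⁻ x, ‖g x‖ₑ ^ p := by rw [lintegral_mul_const _ hρ, h1, one_mul]

omit [NormedSpace ℝ F] in
/-- Convergence almost everywhere with no gain of norm is convergence in the mean. -/
theorem riesz_pow {X : Type} [MeasurableSpace X] {μ : Measure X} (p : ℕ) {g : X → F}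
    {w : ℕ → X → F} (hg : StronglyMeasurable g) (hw : ∀ k, StronglyMeasurable (w k))
    (hp : 1 ≤ p) (hfin : ∫⁻ x, ‖g x‖ₑ ^ p ∂μ ≠ ⊤)
    (hle : ∀ k, ∫⁻ x, ‖w k x‖ₑ ^ p ∂μ ≤ ∫⁻ x, ‖g x‖ₑ ^ p ∂μ)
    (hae : ∀ᵐ x ∂μ, Tendsto (fun k => w k x) atTop (𝓝 (g x))) :
    Tendsto (fun k => ∫⁻ x, ‖w k x - g x‖ₑ ^ p ∂μ) atTop (𝓝 0) := by
  set c : ℝ≥0∞ := 2 ^ p with hc
  have hct : c ≠ ⊤ := ENNReal.pow_ne_top ENNReal.ofNat_ne_top
  set a : ℕ → X → ℝ≥0∞ := fun k x => ‖w k x - g x‖ₑ ^ p with ha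
  set b : ℕ → X → ℝ≥0∞ := fun k x => c * (‖w k x‖ₑ ^ p + ‖g x‖ₑ ^ p) with hb
  have ma : ∀ k, Measurable (a k) := fun k => ((hw k).sub hg).enorm.pow_const p
  have mb : ∀ k, Measurable (b k) := fun k =>
    (((hw k).enorm.pow_const p).add (hg.enorm.pow_const p)).const_mul c
  have hab : ∀ k x, a k x ≤ b k x := by
    intro k x
    have h1 : ‖w k x - g x‖ₑ ≤ 2 * max ‖w k x‖ₑ ‖g x‖ₑ := by
      refine enorm_sub_le.trans ?_
      rw [two_mul]
      exact add_le_add (le_max_left _ _) (le_max_right _ _)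
    refine (pow_le_pow_left' h1 p).trans ?_
    rw [mul_pow]
    refine mul_le_mul_right ?_ _
    rcases max_choice ‖w k x‖ₑ ‖g x‖ₑ with h | h <;> rw [h]
    · exact le_self_add
    · exact le_add_self
  set J : ℝ≥0∞ := ∫⁻ x, ‖g x‖ₑ ^ p ∂μ with hJ
  have hI : c * (J + J) ≠ ⊤ := ENNReal.mul_ne_top hct (ENNReal.add_ne_top.2 ⟨hfin, hfin⟩)
  have hbI : ∀ k, ∫⁻ x, b k x ∂μ ≤ c * (J + J) := by
    intro k
    rw [hb]
    simp only
    rw [lintegral_const_mul' _ _ hct, lintegral_add_left ((hw k).enorm.pow_const p)]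
    exact mul_le_mul_right (add_le_add_left (hle k) _) _
  have hlim : ∀ᵐ x ∂μ, liminf (fun k => b k x - a k x) atTop = c * (‖g x‖ₑ ^ p + ‖g x‖ₑ ^ p) := by
    filter_upwards [hae] with x hx
    refine Tendsto.liminf_eq ?_
    have t1 : Tendsto (fun k => ‖w k x‖ₑ ^ p) atTop (𝓝 (‖g x‖ₑ ^ p)) :=
      ((ENNReal.continuous_pow p).tendsto _).comp hx.enorm
    have t2 : Tendsto (fun k => b k x) atTop (𝓝 (c * (‖g x‖ₑ ^ p + ‖g x‖ₑ ^ p))) :=
      ENNReal.Tendsto.const_mul (t1.add tendsto_const_nhds) (Or.inr hct)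
    have t3 : Tendsto (fun k => a k x) atTop (𝓝 0) := by
      have h0 : Tendsto (fun k => w k x - g x) atTop (𝓝 0) := tendsto_sub_nhds_zero_iff.2 hx
      have h2 := ((ENNReal.continuous_pow p).tendsto _).comp h0.enorm
      rwa [enorm_zero, zero_pow (by omega)] at h2
    have t4 := ENNReal.Tendsto.sub t2 t3 (Or.inr ENNReal.zero_ne_top)
    rwa [tsub_zero] at t4
  have hF : c * (J + J) ≤ liminf (fun k => ∫⁻ x, (b k x - a k x) ∂μ) atTop := by
    refine le_trans (le_of_eq ?_) (lintegral_liminf_le fun k => (mb k).sub (ma k))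
    rw [lintegral_congr_ae hlim, lintegral_const_mul' _ _ hct,
      lintegral_add_left (hg.enorm.pow_const p)]
  have hsum : ∀ k, ∫⁻ x, (b k x - a k x) ∂μ + ∫⁻ x, a k x ∂μ ≤ c * (J + J) := by
    intro k
    rw [← lintegral_add_right _ (ma k)]
    refine le_trans (le_of_eq (lintegral_congr fun x => ?_)) (hbI k)
    exact tsub_add_cancel_of_le (hab k x)
  refine ENNReal.tendsto_nhds_zero.2 fun ε hε => ?_
  by_cases h0 : c * (J + J) ≤ ε
  · exact Eventually.of_forall fun k => (le_add_self.trans (hsum k)).trans h0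
  · have hne : c * (J + J) ≠ 0 := fun h => h0 (h ▸ zero_le)
    have hlt : c * (J + J) - ε < c * (J + J) := ENNReal.sub_lt_self hI hne hε.ne'
    filter_upwards [eventually_lt_of_lt_liminf (hlt.trans_le hF)] with k hk
    have h3 : (c * (J + J) - ε) + ∫⁻ x, a k x ∂μ ≤ (c * (J + J) - ε) + ε :=
      ((add_le_add_left hk.le _).trans (hsum k)).trans
        (le_of_eq (tsub_add_cancel_of_le (not_le.1 h0).le).symm)
    exact (ENNReal.add_le_add_iff_left (ne_top_of_le_ne_top hI tsub_le_self)).1 h3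

/-- The derivative of a mollified map is the mollified weak derivative. -/
theorem moll_fderiv {m : ℕ} {Ω : Set (D n)} {u : D n → V m} {G : D n → D n →L[ℝ] V m}
    (hu : LocallyIntegrable u volume) (hG : LocallyIntegrable G volume)
    (wk : ∀ φ : D n → ℝ, ContDiff ℝ ∞ φ → HasCompactSupport φ → tsupport φ ⊆ Ω → ∀ v : D n,
      ∫ x, fderiv ℝ φ x v • u x = -∫ x, φ x • G x v)
    (φ : ContDiffBump (0 : D n)) {x : D n} (hx : closedBall x φ.rOut ⊆ Ω) :
    fderiv ℝ (φ.normed volume ⋆[lsmul ℝ ℝ, volume] u) x =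
      (φ.normed volume ⋆[lsmul ℝ ℝ, volume] G) x := by
  have hc : HasCompactSupport (φ.normed volume) := φ.hasCompactSupport_normed
  have hs : ContDiff ℝ ∞ (φ.normed volume) := φ.contDiff_normed
  have hs1 : ContDiff ℝ 1 (φ.normed volume) := φ.contDiff_normed
  rw [(hc.hasFDerivAt_convolution_left (lsmul ℝ ℝ) hs1 hu x).fderiv]
  ext1 v
  have hd : ∀ y, HasFDerivAt (fun y => φ.normed volume (x - y))
      ((fderiv ℝ (φ.normed volume) (x - y)).comp (-(ContinuousLinearMap.id ℝ (D n)))) y := by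
    intro y
    have h1 : HasFDerivAt (fun y : D n => x - y) (-(ContinuousLinearMap.id ℝ (D n))) y :=
      (hasFDerivAt_id y).const_sub x
    exact ((hs1.differentiable one_ne_zero) (x - y)).hasFDerivAt.comp y h1
  have hts : tsupport (fun y => φ.normed volume (x - y)) ⊆ closedBall x φ.rOut := by
    refine closure_minimal (fun y hy => ?_) isClosed_closedBall
    have h1 : x - y ∈ Function.support (φ.normed volume) := hy
    rw [φ.support_normed_eq, mem_ball_zero_iff] at h1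
    rw [mem_closedBall, dist_comm, dist_eq_norm]
    exact h1.le
  have h := wk (fun y => φ.normed volume (x - y)) (hs.comp (contDiff_const.sub contDiff_id))
    ((isCompact_closedBall x φ.rOut).of_isClosed_subset (isClosed_tsupport _) hts)
    (hts.trans hx) v
  simp only [(hd _).fderiv, ContinuousLinearMap.comp_apply, _root_.neg_apply,
    ContinuousLinearMap.id_apply, map_neg, neg_smul, integral_neg, neg_inj] at h
  have e1 := (hc.fderiv ℝ).convolutionExists_left ((lsmul ℝ ℝ : ℝ →L[ℝ] V m →L[ℝ] V m).precompL (D n))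
    (hs1.continuous_fderiv one_ne_zero) hu x
  have e2 := hc.convolutionExists_left
    (lsmul ℝ ℝ : ℝ →L[ℝ] (D n →L[ℝ] V m) →L[ℝ] (D n →L[ℝ] V m)) hs.continuous hG x
  rw [convolution_eq_swap, convolution_eq_swap, ContinuousLinearMap.integral_apply e1.integrable_swap,
    ContinuousLinearMap.integral_apply e2.integrable_swap]
  simpa only [precompL_apply, lsmul_apply, _root_.smul_apply] using h

end Pool.Agent.Lib.MP_a785f2_an.HS
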