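import Pool.Agent.Lib.MP_a785f2_an.HS.Defs

open MeasureTheory Metric Set Filter Topology
open scoped ContDiff RealInnerProductSpace ENNReal

namespace Pool.Agent.Lib.MP_a785f2_an.HS

variable {n m : ℕ}

theorem morrey_young (d : ℕ) {h M : ℝ} (hh : 0 ≤ h) (hM : 0 < M) :
    h ≤ M + h ^ (d + 1) / M ^ d := by
  have hMd : 0 < M ^ d := pow_pos hM d
  rcases le_total h M with h1 | h1
  · have : 0 ≤ h ^ (d + 1) / M ^ d := by positivity
    linarith
  · have h2 : M ^ d ≤ h ^ d := pow_le_pow_left₀ hM.le h1 d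
    have h3 : h ≤ h ^ (d + 1) / M ^ d := by
      rw [le_div_iff₀ hMd, pow_succ, mul_comm (h ^ d)]
      exact mul_le_mul_of_nonneg_left h2 hh
    linarith

theorem morrey_mem {d : ℕ} {z0 a y : D d} {ρ τ : ℝ} (ha : a ∈ closedBall z0 ρ)
    (hy : y ∈ closedBall z0 ρ) (h0 : 0 ≤ τ) (h1 : τ ≤ 1) : a + τ • (y - a) ∈ closedBall z0 ρ :=
  (convex_closedBall z0 ρ).add_smul_sub_mem ha hy ⟨h0, h1⟩

/-- Contraction of the cube towards one of its points. -/
theorem morrey_scale {d : ℕ} (g : D d → ℝ) (hg : Continuous g) (hg0 : ∀ z, 0 ≤ g z)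
    {z0 a : D d} {ρ τ : ℝ} (ha : a ∈ closedBall z0 ρ) (h0 : 0 < τ) (h1 : τ ≤ 1) :
    τ ^ d * ∫ y in closedBall z0 ρ, g (a + τ • (y - a)) ≤ ∫ z in closedBall z0 ρ, g z := by
  set K : Set (D d) := closedBall z0 ρ with hK
  have hKm : MeasurableSet K := measurableSet_closedBall
  set H : D d → ℝ := K.indicator g with hH
  have hHi : Integrable H volume :=
    (integrable_indicator_iff hKm).2 (hg.continuousOn.integrableOn_compact (isCompact_closedBall _ _))
  have hH0 : ∀ z, 0 ≤ H z := fun z => indicator_nonneg (fun w _ => hg0 w) z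
  have i1 : Integrable (fun w => H (a + w)) volume := hHi.comp_add_left a
  have i2 : Integrable (fun w => H (a + τ • w)) volume :=
    i1.comp_smul (μ := volume) h0.ne'
  have i3 : Integrable (fun y => H (a + τ • (y - a))) volume := i2.comp_sub_right a
  have e1 : ∫ y in K, g (a + τ • (y - a)) = ∫ y in K, H (a + τ • (y - a)) := by
    refine setIntegral_congr_fun hKm fun y hy => ?_
    simp only [hH]
    rw [indicator_of_mem (morrey_mem ha hy h0.le h1)]
  have e2 : ∫ y in K, H (a + τ • (y - a)) ≤ ∫ y, H (a + τ • (y - a)) :=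
    setIntegral_le_integral i3 (ae_of_all _ fun y => hH0 _)
  have e3 : ∫ y, H (a + τ • (y - a)) = ∫ w, H (a + τ • w) :=
    integral_sub_right_eq_self (fun w => H (a + τ • w)) a
  have e4 : ∫ w, H (a + τ • w) = |(τ ^ d)⁻¹| • ∫ w, H (a + w) := by
    have := Measure.integral_comp_smul (volume : Measure (D d)) (fun w => H (a + w)) τ
    simpa using this
  have e5 : ∫ w, H (a + w) = ∫ z in K, g z := by
    rw [integral_add_left_eq_self H a, hH, integral_indicator hKm]
  have hτ : 0 < τ ^ d := pow_pos h0 d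
  rw [e1]
  calc τ ^ d * ∫ y in K, H (a + τ • (y - a)) ≤ τ ^ d * ∫ y, H (a + τ • (y - a)) :=
        mul_le_mul_of_nonneg_left e2 hτ.le
    _ = ∫ z in K, g z := by
        rw [e3, e4, e5, abs_of_pos (inv_pos.2 hτ), smul_eq_mul, ← mul_assoc,
          mul_inv_cancel₀ hτ.ne', one_mul]

/-- Segment estimate with the parameter `t ^ (d + 1)`. -/
theorem morrey_seg {d : ℕ} (v : D d → V m) (hv : ContDiff ℝ 1 v) {z0 a y : D d} {ρ M : ℝ}
    (ha : a ∈ closedBall z0 ρ) (hy : y ∈ closedBall z0 ρ) (hM : 0 < M) :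
    ‖v y - v a‖ ≤ 2 * ρ * (d + 1) * (M + (∫ t in Ioc (0 : ℝ) 1,
      (t ^ d * ‖fderiv ℝ v (a + t ^ (d + 1) • (y - a))‖) ^ (d + 1)) / M ^ d) := by
  have hc : Continuous (fderiv ℝ v) := hv.continuous_fderiv one_ne_zero
  have hdv : Differentiable ℝ v := hv.differentiable one_ne_zero
  have hρ : 0 ≤ ρ := le_trans dist_nonneg ha
  have hya : ‖y - a‖ ≤ 2 * ρ := by
    have h1 := dist_triangle_right y a z0
    rw [dist_eq_norm] at h1
    have h2 : dist y z0 ≤ ρ := hy
    have h3 : dist a z0 ≤ ρ := ha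
    linarith
  have hd : ∀ t : ℝ, HasDerivAt (fun t : ℝ => v (a + t ^ (d + 1) • (y - a)))
      (fderiv ℝ v (a + t ^ (d + 1) • (y - a)) ((((d + 1 : ℕ) : ℝ) * t ^ d) • (y - a))) t := by
    intro t
    have h1 : HasDerivAt (fun t : ℝ => a + t ^ (d + 1) • (y - a))
        ((((d + 1 : ℕ) : ℝ) * t ^ d) • (y - a)) t :=
      ((hasDerivAt_pow (d + 1) t).smul_const (y - a)).const_add a
    exact (hdv _).hasFDerivAt.comp_hasDerivAt t h1
  have hcont : Continuous fun t : ℝ =>
      fderiv ℝ v (a + t ^ (d + 1) • (y - a)) ((((d + 1 : ℕ) : ℝ) * t ^ d) • (y - a)) := by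
    fun_prop
  have hF : Continuous fun t : ℝ =>
      (t ^ d * ‖fderiv ℝ v (a + t ^ (d + 1) • (y - a))‖) ^ (d + 1) := by fun_prop
  have e := intervalIntegral.integral_eq_sub_of_hasDerivAt (a := 0) (b := 1)
    (fun t _ => hd t) (hcont.intervalIntegrable 0 1)
  have e' : v y - v a = ∫ t in (0 : ℝ)..1,
      fderiv ℝ v (a + t ^ (d + 1) • (y - a)) ((((d + 1 : ℕ) : ℝ) * t ^ d) • (y - a)) := by
    rw [e]; simp
  have hB : Continuous fun t : ℝ => 2 * ρ * (d + 1) *
      (M + (t ^ d * ‖fderiv ℝ v (a + t ^ (d + 1) • (y - a))‖) ^ (d + 1) / M ^ d) := by fun_prop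
  have le1 := intervalIntegral.norm_integral_le_of_norm_le (μ := volume) (a := 0) (b := 1)
    (f := fun t : ℝ =>
      fderiv ℝ v (a + t ^ (d + 1) • (y - a)) ((((d + 1 : ℕ) : ℝ) * t ^ d) • (y - a)))
    (g := fun t : ℝ => 2 * ρ * (d + 1) *
      (M + (t ^ d * ‖fderiv ℝ v (a + t ^ (d + 1) • (y - a))‖) ^ (d + 1) / M ^ d))
    zero_le_one (ae_of_all _ fun t ht => by
      have ht0 : 0 ≤ t := ht.1.le
      have htd : 0 ≤ t ^ d := pow_nonneg ht0 d
      have h1 := (fderiv ℝ v (a + t ^ (d + 1) • (y - a))).le_opNorm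
        ((((d + 1 : ℕ) : ℝ) * t ^ d) • (y - a))
      have h2 : ‖(((d + 1 : ℕ) : ℝ) * t ^ d) • (y - a)‖ ≤ (d + 1) * t ^ d * (2 * ρ) := by
        rw [norm_smul, Real.norm_of_nonneg (by positivity)]
        push_cast
        exact mul_le_mul_of_nonneg_left hya (by positivity)
      have h3 := morrey_young d
        (mul_nonneg htd (norm_nonneg (fderiv ℝ v (a + t ^ (d + 1) • (y - a))))) hM
      calc _ ≤ ‖fderiv ℝ v (a + t ^ (d + 1) • (y - a))‖ * ((d + 1) * t ^ d * (2 * ρ)) :=
            h1.trans (mul_le_mul_of_nonneg_left h2 (norm_nonneg _))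
        _ = 2 * ρ * (d + 1) * (t ^ d * ‖fderiv ℝ v (a + t ^ (d + 1) • (y - a))‖) := by ring
        _ ≤ _ := mul_le_mul_of_nonneg_left h3 (by positivity))
    (hB.intervalIntegrable 0 1)
  rw [e']
  refine le1.trans (le_of_eq ?_)
  rw [intervalIntegral.integral_const_mul, intervalIntegral.integral_add
    (continuous_const.intervalIntegrable 0 1) ((hF.div_const _).intervalIntegrable 0 1),
    intervalIntegral.integral_div, intervalIntegral.integral_const,
    intervalIntegral.integral_of_le zero_le_one]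
  simp

/-- Mean distance to the value at one point of the cube. -/
theorem morrey_avg {d : ℕ} (v : D d → V m) (hv : ContDiff ℝ 1 v) {z0 a : D d} {ρ M : ℝ}
    (ha : a ∈ closedBall z0 ρ) (hM : 0 < M) :
    ∫ y in closedBall z0 ρ, ‖v y - v a‖ ≤ 2 * ρ * (d + 1) *
      (M * volume.real (closedBall z0 ρ) +
        (∫ z in closedBall z0 ρ, ‖fderiv ℝ v z‖ ^ (d + 1)) / M ^ d) := by
  set K : Set (D d) := closedBall z0 ρ with hK
  have hKm : MeasurableSet K := measurableSet_closedBall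
  have hKc : IsCompact K := isCompact_closedBall _ _
  have hc : Continuous (fderiv ℝ v) := hv.continuous_fderiv one_ne_zero
  have hρ : 0 ≤ ρ := le_trans dist_nonneg ha
  set F : D d → ℝ → ℝ := fun y t =>
    (t ^ d * ‖fderiv ℝ v (a + t ^ (d + 1) • (y - a))‖) ^ (d + 1) with hF
  have hFc : Continuous (Function.uncurry F) := by
    change Continuous fun p : D d × ℝ =>
      (p.2 ^ d * ‖fderiv ℝ v (a + p.2 ^ (d + 1) • (p.1 - a))‖) ^ (d + 1)
    fun_prop
  have hFi : Integrable (Function.uncurry F)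
      ((volume.restrict K).prod (volume.restrict (Ioc (0 : ℝ) 1))) := by
    rw [Measure.prod_restrict]
    exact (hFc.continuousOn.integrableOn_compact (hKc.prod isCompact_Icc)).mono_set
      (prod_mono subset_rfl Ioc_subset_Icc_self)
  have sw : ∫ y in K, ∫ t in Ioc (0 : ℝ) 1, F y t = ∫ t in Ioc (0 : ℝ) 1, ∫ y in K, F y t :=
    integral_integral_swap hFi
  have i1 : Integrable (fun y => ∫ t in Ioc (0 : ℝ) 1, F y t) (volume.restrict K) :=
    hFi.integral_prod_left
  have i2 : Integrable (fun t => ∫ y in K, F y t) (volume.restrict (Ioc (0 : ℝ) 1)) :=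
    hFi.integral_prod_right
  have b1 : ∫ t in Ioc (0 : ℝ) 1, ∫ y in K, F y t ≤ ∫ z in K, ‖fderiv ℝ v z‖ ^ (d + 1) := by
    calc ∫ t in Ioc (0 : ℝ) 1, ∫ y in K, F y t
        ≤ ∫ _t in Ioc (0 : ℝ) 1, ∫ z in K, ‖fderiv ℝ v z‖ ^ (d + 1) := by
          refine setIntegral_mono_on i2 (integrable_const _) measurableSet_Ioc fun t ht => ?_
          have h1 := morrey_scale (fun z => ‖fderiv ℝ v z‖ ^ (d + 1)) (by fun_prop)
            (fun z => by positivity) ha (pow_pos ht.1 (d + 1)) (pow_le_one₀ ht.1.le ht.2)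
          refine le_trans (le_of_eq ?_) h1
          rw [← integral_const_mul]
          refine integral_congr_ae (ae_of_all _ fun y => ?_)
          simp only [hF]
          ring
      _ = _ := by simp
  have : IsFiniteMeasure (volume.restrict K) := ⟨by simpa using hKc.measure_lt_top⟩
  have hvi : IntegrableOn (fun y => ‖v y - v a‖) K :=
    ((hv.continuous.sub continuous_const).norm).continuousOn.integrableOn_compact hKc
  have hMd : 0 < M ^ d := pow_pos hM d
  calc ∫ y in K, ‖v y - v a‖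
      ≤ ∫ y in K, 2 * ρ * (d + 1) * (M + (∫ t in Ioc (0 : ℝ) 1, F y t) / M ^ d) :=
        setIntegral_mono_on hvi (((integrable_const M).add (i1.div_const _)).const_mul _) hKm
          fun y hy => morrey_seg v hv ha hy hM
    _ = 2 * ρ * (d + 1) * (M * volume.real K +
          (∫ y in K, ∫ t in Ioc (0 : ℝ) 1, F y t) / M ^ d) := by
        rw [integral_const_mul, integral_add (integrable_const M) (i1.div_const _), integral_div]
        simp [mul_comm]
    _ ≤ _ := by
        rw [sw]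
        gcongr

/-- Morrey inequality on a cube of dimension `d` with exponent `d + 1`. -/
theorem morrey (d : ℕ) : ∃ C : ℝ, 0 < C ∧ ∀ (m : ℕ) (v : D d → V m), ContDiff ℝ 1 v →
    ∀ (z0 : D d) (ρ : ℝ), 0 < ρ → ∀ a ∈ closedBall z0 ρ, ∀ b ∈ closedBall z0 ρ,
      ‖v a - v b‖ ^ (d + 1) ≤ C * ρ * ∫ z in closedBall z0 ρ, ‖fderiv ℝ v z‖ ^ (d + 1) := by
  refine ⟨(8 * (d + 1)) ^ (d + 1) / 2 ^ d, by positivity, fun m v hv z0 ρ hρ a ha b hb => ?_⟩
  set K : Set (D d) := closedBall z0 ρ with hK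
  have hKc : IsCompact K := isCompact_closedBall _ _
  set I : ℝ := ∫ z in K, ‖fderiv ℝ v z‖ ^ (d + 1) with hI
  have hI0 : 0 ≤ I := integral_nonneg fun z => by positivity
  rcases eq_or_lt_of_le (norm_nonneg (v a - v b)) with h0 | h0
  · rw [← h0, zero_pow (Nat.succ_ne_zero d)]; positivity
  have hvol : volume.real K = (2 * ρ) ^ d := by
    rw [Measure.real, hK, Real.volume_pi_closedBall z0 hρ.le,
      ENNReal.toReal_ofReal (by positivity)]
    simp
  set M : ℝ := ‖v a - v b‖ / (8 * ρ * (d + 1)) with hM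
  have hM0 : 0 < M := by positivity
  have hMd : 0 < M ^ d := pow_pos hM0 d
  have hMe : ‖v a - v b‖ = 8 * ρ * (d + 1) * M := by
    rw [hM]; field_simp
  have h1 := morrey_avg v hv ha hM0
  have h2 := morrey_avg v hv hb hM0
  have : IsFiniteMeasure (volume.restrict K) := ⟨by simpa using hKc.measure_lt_top⟩
  have hvi : ∀ c : D d, IntegrableOn (fun y => ‖v y - v c‖) K := fun c =>
    ((hv.continuous.sub continuous_const).norm).continuousOn.integrableOn_compact hKc
  have h3 : ‖v a - v b‖ * volume.real K ≤ (∫ y in K, ‖v y - v a‖) + ∫ y in K, ‖v y - v b‖ := by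
    rw [← integral_add (hvi a) (hvi b)]
    calc ‖v a - v b‖ * volume.real K = ∫ _y in K, ‖v a - v b‖ := by simp [mul_comm]
      _ ≤ _ := by
        refine integral_mono (integrable_const _) ((hvi a).add (hvi b)) fun y => ?_
        have := norm_sub_le (v y - v b) (v y - v a)
        have e : v y - v b - (v y - v a) = v a - v b := by abel
        rw [e] at this
        linarith
  rw [← hK, ← hI] at h1 h2
  have hc : 0 < 4 * ρ * (d + 1) := by positivity
  have h4 : 4 * ρ * (d + 1) * (M * volume.real K) ≤ 4 * ρ * (d + 1) * (I / M ^ d) := by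
    rw [hMe] at h3
    nlinarith
  have h5 : M * volume.real K ≤ I / M ^ d := le_of_mul_le_mul_left h4 hc
  rw [le_div_iff₀ hMd, hvol] at h5
  have h6 : M ^ (d + 1) * (2 * ρ) ^ d ≤ I := by
    calc M ^ (d + 1) * (2 * ρ) ^ d = M * (2 * ρ) ^ d * M ^ d := by ring
      _ ≤ I := h5
  calc ‖v a - v b‖ ^ (d + 1)
      = (8 * (d + 1)) ^ (d + 1) / 2 ^ d * ρ * (M ^ (d + 1) * (2 * ρ) ^ d) := by
        rw [hMe]
        have e : (8 : ℝ) * ρ * (d + 1) * M = 8 * (d + 1) * ρ * M := by ring
        rw [e, mul_pow, mul_pow (8 * ((d : ℝ) + 1)), mul_pow 2 ρ, pow_succ ρ]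
        field_simp
    _ ≤ _ := mul_le_mul_of_nonneg_left h6 (by positivity)

end Pool.Agent.Lib.MP_a785f2_an.HS
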