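import Pool.Agent.Lib.MP_a785f2_an.HS.Defs

open MeasureTheory Metric Set Filter Topology
open scoped ContDiff RealInnerProductSpace ENNReal

namespace Pool.Agent.Lib.MP_a785f2_an.HS

variable {n m : ℕ}

theorem centres_close {u : D n → V m} {x x' z : D n} {r r' γ γ' : ℝ} {c c' : V m}
    (hz : z ∈ ball x r) (hz' : z ∈ ball x' r')
    (h : ∀ᵐ y ∂(volume.restrict (ball x r)), ‖u y - c‖ ≤ γ)
    (h' : ∀ᵐ y ∂(volume.restrict (ball x' r')), ‖u y - c'‖ ≤ γ') : ‖c - c'‖ ≤ γ + γ' := by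
  have ho : IsOpen (ball x r ∩ ball x' r') := isOpen_ball.inter isOpen_ball
  have hp : volume (ball x r ∩ ball x' r') ≠ 0 := (ho.measure_pos volume ⟨z, hz, hz'⟩).ne'
  have h1 := ae_restrict_of_ae_restrict_of_subset (inter_subset_left (t := ball x' r')) h
  have h2 := ae_restrict_of_ae_restrict_of_subset (inter_subset_right (s := ball x r)) h'
  have : (ae (volume.restrict (ball x r ∩ ball x' r'))).NeBot := ae_restrict_neBot.2 hp
  obtain ⟨y, hy, hy'⟩ := (h1.and h2).exists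
  calc ‖c - c'‖ = ‖(u y - c') - (u y - c)‖ := by congr 1; abel
    _ ≤ ‖u y - c'‖ + ‖u y - c‖ := norm_sub_le _ _
    _ ≤ γ + γ' := by linarith

/-- Small essential oscillation at every point gives a continuous representative. -/
theorem rep {Ω : Set (D n)} (hΩ : IsOpen Ω) {u : D n → V m}
    (h : ∀ x0 ∈ Ω, ∀ γ : ℝ, 0 < γ → ∃ r : ℝ, 0 < r ∧ ∃ c : V m,
      ∀ᵐ x ∂(volume.restrict (ball x0 r)), ‖u x - c‖ ≤ γ) :
    ∃ v : D n → V m, ContinuousOn v Ω ∧ ∀ᵐ x ∂(volume.restrict Ω), u x = v x := by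
  have h1 : ∀ x0 ∈ Ω, ∀ j : ℕ, ∃ r : ℝ, 0 < r ∧ ∃ c : V m,
      ∀ᵐ x ∂(volume.restrict (ball x0 r)), ‖u x - c‖ ≤ 1 / ((j : ℝ) + 1) :=
    fun x0 hx j => h x0 hx _ (by positivity)
  choose! r hr c hc using h1
  have lim0 : Tendsto (fun j : ℕ => 1 / ((j : ℝ) + 1)) atTop (𝓝 0) :=
    tendsto_one_div_add_atTop_nhds_zero_nat
  have hcau : ∀ x ∈ Ω, ∃ y, Tendsto (c x) atTop (𝓝 y) := fun x hx => by
    refine cauchySeq_tendsto_of_complete
      (cauchySeq_of_le_tendsto_0 (fun N : ℕ => 1 / ((N : ℝ) + 1) + 1 / ((N : ℝ) + 1)) ?_ ?_)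
    · intro i j N hi hj
      have h2 := centres_close (mem_ball_self (hr x hx i)) (mem_ball_self (hr x hx j))
        (hc x hx i) (hc x hx j)
      have h3 : 1 / ((i : ℝ) + 1) ≤ 1 / ((N : ℝ) + 1) := Nat.one_div_le_one_div hi
      have h4 : 1 / ((j : ℝ) + 1) ≤ 1 / ((N : ℝ) + 1) := Nat.one_div_le_one_div hj
      rw [dist_eq_norm]; linarith
    · simpa using lim0.add lim0
  choose! v hv using hcau
  have key : ∀ x0 ∈ Ω, ∀ j : ℕ, ∀ x ∈ Ω, x ∈ ball x0 (r x0 j) →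
      ‖v x - c x0 j‖ ≤ 1 / ((j : ℝ) + 1) := fun x0 hx0 j x hx hb => by
    have t1 : Tendsto (fun i => ‖c x i - c x0 j‖) atTop (𝓝 ‖v x - c x0 j‖) :=
      ((hv x hx).sub_const _).norm
    have t2 : Tendsto (fun i : ℕ => 1 / ((i : ℝ) + 1) + 1 / ((j : ℝ) + 1)) atTop
        (𝓝 (0 + 1 / ((j : ℝ) + 1))) := lim0.add_const _
    rw [zero_add] at t2
    exact le_of_tendsto_of_tendsto' t1 t2 fun i =>
      centres_close (mem_ball_self (hr x hx i)) hb (hc x hx i) (hc x0 hx0 j)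
  refine ⟨v, Metric.continuousOn_iff.2 fun b hb ε hε => ?_, ?_⟩
  · obtain ⟨j, hj⟩ := exists_nat_one_div_lt (half_pos hε)
    refine ⟨r b j, hr b hb j, fun a ha hab => ?_⟩
    have k1 := key b hb j a ha hab
    have k2 := key b hb j b hb (mem_ball_self (hr b hb j))
    calc dist (v a) (v b) = ‖(v a - c b j) - (v b - c b j)‖ := by rw [dist_eq_norm]; congr 1; abel
      _ ≤ ‖v a - c b j‖ + ‖v b - c b j‖ := norm_sub_le _ _
      _ < ε := by linarith
  · have h5 : ∀ j : ℕ, ∀ᵐ x ∂(volume : Measure (D n)), x ∈ Ω →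
        ‖u x - v x‖ ≤ 1 / ((j : ℝ) + 1) + 1 / ((j : ℝ) + 1) := fun j => by
      rw [ae_iff]
      refine measure_null_of_locally_null _ fun x hx => ?_
      have hxΩ : x ∈ Ω := by
        by_contra hn; exact hx fun h => absurd h hn
      refine ⟨_ ∩ ball x (r x j), inter_mem_nhdsWithin _ (ball_mem_nhds x (hr x hxΩ j)), ?_⟩
      have h6 := (ae_restrict_iff' measurableSet_ball).1 (hc x hxΩ j)
      rw [ae_iff] at h6
      refine measure_mono_null (fun y hy => ?_) h6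
      intro h7
      refine hy.1 fun hyΩ => ?_
      have k1 := key x hxΩ j y hyΩ hy.2
      have k2 := h7 hy.2
      calc ‖u y - v y‖ = ‖(u y - c x j) - (v y - c x j)‖ := by congr 1; abel
        _ ≤ ‖u y - c x j‖ + ‖v y - c x j‖ := norm_sub_le _ _
        _ ≤ _ := by linarith
    refine (ae_restrict_iff' hΩ.measurableSet).2 ?_
    filter_upwards [ae_all_iff.2 h5] with x hx hxΩ
    have t2 : Tendsto (fun j : ℕ => 1 / ((j : ℝ) + 1) + 1 / ((j : ℝ) + 1)) atTop (𝓝 0) := by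
      simpa using lim0.add lim0
    have := ge_of_tendsto' t2 fun j => hx j hxΩ
    exact sub_eq_zero.1 (norm_le_zero_iff.1 this)

end Pool.Agent.Lib.MP_a785f2_an.HS
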