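import Pool.Agent.Lib.MP_a785f2_an.HS.Box

open MeasureTheory Metric Set Filter Topology
open scoped ContDiff RealInnerProductSpace ENNReal

namespace Pool.Agent.Lib.MP_a785f2_an.HS

variable {n m : ℕ}

/-- A function close in `L^p` to a function of `L^p` has a comparable `p`-energy. -/
theorem sub_energy {X W : Type} [MeasurableSpace X] [NormedAddCommGroup W] {μ : Measure X}
    {p : ℕ} (hp : p ≠ 0) {a b : X → W} (ha : AEStronglyMeasurable a μ) (hb : MemLp b p μ)
    {η : ℝ} (hη : 0 ≤ η) (h : ∫⁻ x, ‖a x - b x‖ₑ ^ p ∂μ ≤ ENNReal.ofReal η) :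
    Integrable (fun x => ‖a x‖ ^ p) μ ∧
      ∫ x, ‖a x‖ ^ p ∂μ ≤ 2 ^ p * ((∫ x, ‖b x‖ ^ p ∂μ) + η) := by
  have hm : AEStronglyMeasurable (fun x => ‖a x - b x‖ ^ p) μ := (ha.sub hb.1).norm.pow p
  have h0 : 0 ≤ᵐ[μ] fun x => ‖a x - b x‖ ^ p := ae_of_all _ fun x => by positivity
  have he : ∫⁻ x, ENNReal.ofReal (‖a x - b x‖ ^ p) ∂μ ≤ ENNReal.ofReal η := by
    refine le_trans (le_of_eq (lintegral_congr fun x => ?_)) h
    rw [ENNReal.ofReal_pow (norm_nonneg _), ofReal_norm]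
  have i1 : Integrable (fun x => ‖a x - b x‖ ^ p) μ :=
    ⟨hm, (hasFiniteIntegral_iff_ofReal h0).2 (he.trans_lt ENNReal.ofReal_lt_top)⟩
  have i2 : Integrable (fun x => ‖b x‖ ^ p) μ := hb.integrable_norm_pow hp
  have e1 : ∫ x, ‖a x - b x‖ ^ p ∂μ ≤ η := by
    rw [integral_eq_lintegral_of_nonneg_ae h0 hm]
    exact ENNReal.toReal_le_of_le_ofReal hη he
  have pt : ∀ x, ‖a x‖ ^ p ≤ 2 ^ p * (‖b x‖ ^ p + ‖a x - b x‖ ^ p) := fun x => by
    have h1 : ‖a x‖ ≤ ‖b x‖ + ‖a x - b x‖ := by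
      have := norm_add_le (b x) (a x - b x)
      rwa [add_sub_cancel] at this
    have h2 := add_pow_le (norm_nonneg (b x)) (norm_nonneg (a x - b x)) p
    have h3 : (2 : ℝ) ^ (p - 1) ≤ 2 ^ p := pow_le_pow_right₀ (by norm_num) (Nat.sub_le _ _)
    calc ‖a x‖ ^ p ≤ (‖b x‖ + ‖a x - b x‖) ^ p := pow_le_pow_left₀ (norm_nonneg _) h1 p
      _ ≤ _ := h2
      _ ≤ _ := mul_le_mul_of_nonneg_right h3 (by positivity)
  have i3 : Integrable (fun x => 2 ^ p * (‖b x‖ ^ p + ‖a x - b x‖ ^ p)) μ :=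
    (i2.add i1).const_mul _
  have i4 : Integrable (fun x => ‖a x‖ ^ p) μ := by
    refine i3.mono' (ha.norm.pow p) (ae_of_all _ fun x => ?_)
    rw [Real.norm_of_nonneg (by positivity)]
    exact pt x
  refine ⟨i4, (integral_mono i4 i3 pt).trans ?_⟩
  rw [integral_const_mul, integral_add i2 i1]
  exact mul_le_mul_of_nonneg_left (by linarith) (by positivity)

/-- Subsequences of approximations, recentred at `c`. -/
theorem Apx.shift {K : Set (D n)} {u : D n → V m} {G : D n → D n →L[ℝ] V m}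
    {w : ℕ → D n → V m} (h : Apx K u G w) {ψ : ℕ → ℕ} (hψ : Tendsto ψ atTop atTop) (c : V m) :
    Apx K (fun x => u x - c) G fun k x => w (ψ k) x - c where
  sm := fun k => (h.sm (ψ k)).sub contDiff_const
  ae := by
    filter_upwards [h.ae] with x hx
    exact (hx.comp hψ).sub_const c
  lu := by
    simp only [sub_sub_sub_cancel_right]
    exact h.lu.comp hψ
  lG := by
    simp only [fderiv_sub_const]
    exact h.lG.comp hψ

/-- Passing to a subsequence: converging boxes and one centre `c`. -/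
theorem exists_box (hn : 2 ≤ n) : ∃ C : ℝ, 0 < C ∧
    ∀ (m : ℕ) (u : D n → V m) (G : D n → D n →L[ℝ] V m) (w : ℕ → D n → V m) (x0 : D n)
      (r t0 : ℝ), 0 < r → 0 < t0 → MemLp u n volume → MemLp G n volume →
      Apx (closedBall x0 (3 * r)) u G w →
      C * ∫ x in closedBall x0 (2 * r), ‖G x‖ ^ n < t0 ^ n →
      ∃ (c : V m) (w' : ℕ → D n → V m) (a b : ℕ → D n) (a0 b0 : D n),
        Apx (closedBall x0 (3 * r)) (fun x => u x - c) G w' ∧ Box x0 r t0 w' a b a0 b0 := by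
  obtain ⟨d, rfl⟩ : ∃ d, n = d + 1 := ⟨n - 1, by omega⟩
  obtain ⟨C0, hC0, hbox⟩ := good_box d (by omega)
  refine ⟨3 * 2 ^ (d + 1) * 2 ^ (d + 1) * C0, by positivity, ?_⟩
  intro m u G w x0 r t0 hr ht hu hG hw hE
  have hw2 : Apx (closedBall x0 (2 * r)) u G w :=
    hw.mono (closedBall_subset_closedBall (by linarith))
  set E0 := ∫ x in closedBall x0 (2 * r), ‖G x‖ ^ (d + 1) with hE0
  set U0 := ∫ x in closedBall x0 (2 * r), ‖u x‖ ^ (d + 1) with hU0
  have hU : 0 ≤ U0 := integral_nonneg fun x => by positivity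
  set P : ℝ := 2 ^ (d + 1) with hP
  have hP0 : 0 < P := by positivity
  set T : ℝ := (t0 / 2) ^ (d + 1) with hT
  have hT0 : 0 < T := by positivity
  have hTP : t0 ^ (d + 1) = T * P := by
    rw [hT, hP, ← mul_pow]; congr 1; ring
  set η : ℝ := T / (3 * P * C0) with hη
  have hη0 : 0 < η := by positivity
  set lam : ℝ := η / (U0 + η) with hlam
  have hlam0 : 0 < lam := by positivity
  have hE1 : E0 ≤ η := by
    rw [hη, le_div_iff₀ (by positivity)]
    rw [hTP] at hE
    have : E0 * (3 * P * C0) * P < T * P := by linarith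
    exact (lt_of_mul_lt_mul_right this hP0.le).le
  have hpos : (0 : ℝ≥0∞) < ENNReal.ofReal η := ENNReal.ofReal_pos.2 hη0
  have hev : ∀ᶠ k in atTop, C0 * ∫ y in closedBall x0 (2 * r),
      (‖fderiv ℝ (w k) y‖ ^ (d + 1) + lam * ‖w k y‖ ^ (d + 1)) ≤ T := by
    filter_upwards [hw2.lu.eventually (ge_mem_nhds hpos), hw2.lG.eventually (ge_mem_nhds hpos)]
      with k h1 h2
    obtain ⟨i1, e1⟩ := sub_energy (Nat.succ_ne_zero d)
      (hw.sm k).continuous.aestronglyMeasurable (hu.restrict _) hη0.le h1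
    obtain ⟨i2, e2⟩ := sub_energy (Nat.succ_ne_zero d)
      ((hw.sm k).continuous_fderiv (by simp)).aestronglyMeasurable (hG.restrict _) hη0.le h2
    rw [integral_add i2 (i1.const_mul lam), integral_const_mul]
    have e3 : lam * ∫ y in closedBall x0 (2 * r), ‖w k y‖ ^ (d + 1) ≤ P * η := by
      refine (mul_le_mul_of_nonneg_left e1 hlam0.le).trans (le_of_eq ?_)
      change lam * (P * (U0 + η)) = P * η
      rw [hlam]; field_simp
    have e4 : ∫ y in closedBall x0 (2 * r), ‖fderiv ℝ (w k) y‖ ^ (d + 1) ≤ P * (η + η) :=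
      e2.trans (mul_le_mul_of_nonneg_left (by linarith) hP0.le)
    have e5 : C0 * (P * (η + η) + P * η) = T := by
      rw [hη]; field_simp; ring
    rw [← e5]
    exact mul_le_mul_of_nonneg_left (add_le_add e4 e3) hC0.le
  choose a b c h1 h2 h3 using fun k =>
    hbox m (w k) ((hw.sm k).of_le (by simp)) x0 r lam hr hlam0
  have hab : ∀ k, Icc (a k) (b k) ⊆ closedBall x0 (2 * r) := fun k x hx => by
    rw [mem_closedBall, dist_pi_le_iff (by positivity)]
    intro i
    have := h1 k i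
    have := hx.1 i
    have := hx.2 i
    rw [Real.dist_eq, abs_le]
    constructor <;> linarith [(h1 k i).1, (h1 k i).2.2.2]
  have hle : ∀ k, a k ≤ b k := fun k i => by
    linarith [(h1 k i).2.1, (h1 k i).2.2.1]
  set M : ℝ := T / (lam * r ^ (d + 1)) with hM
  have hM0 : 0 < M := by positivity
  have hbd : Bornology.IsBounded (closedBall x0 (2 * r) ×ˢ closedBall x0 (2 * r) ×ˢ
      closedBall (0 : V m) (1 + M)) :=
    isBounded_closedBall.prod (isBounded_closedBall.prod isBounded_closedBall)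
  have hfr : ∀ᶠ k in atTop, (a k, b k, c k) ∈ closedBall x0 (2 * r) ×ˢ closedBall x0 (2 * r) ×ˢ
      closedBall (0 : V m) (1 + M) := by
    filter_upwards [hev] with k hk
    refine ⟨hab k ⟨le_rfl, hle k⟩, hab k ⟨hle k, le_rfl⟩, ?_⟩
    rw [mem_closedBall, dist_zero_right]
    have e1 : ‖c k‖ ^ (d + 1) ≤ M := by
      rw [hM, le_div_iff₀ (by positivity)]
      linarith [(h3 k).trans hk]
    rcases le_total ‖c k‖ 1 with h | h
    · linarith
    · have e2 : ‖c k‖ ≤ ‖c k‖ ^ (d + 1) := le_self_pow₀ h (Nat.succ_ne_zero d)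
      change ‖c k‖ ≤ 1 + M
      linarith
  obtain ⟨⟨a0, b0, c0⟩, -, φ, hφ, hlim⟩ := tendsto_subseq_of_frequently_bounded hbd hfr.frequently
  have ta : Tendsto (fun k => a (φ k)) atTop (𝓝 a0) := (continuous_fst.tendsto _).comp hlim
  have tb : Tendsto (fun k => b (φ k)) atTop (𝓝 b0) :=
    ((continuous_fst.comp continuous_snd).tendsto _).comp hlim
  have tc : Tendsto (fun k => c (φ k)) atTop (𝓝 c0) :=
    ((continuous_snd.comp continuous_snd).tendsto _).comp hlim
  obtain ⟨N, hN⟩ := eventually_atTop.1 ((hφ.tendsto_atTop.eventually hev).and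
    (Metric.tendsto_nhds.1 tc (t0 / 2) (by positivity)))
  have hs : Tendsto (fun k => k + N) atTop atTop := tendsto_add_atTop_nat N
  have tai := fun i => tendsto_pi_nhds.1 ta i
  have tbi := fun i => tendsto_pi_nhds.1 tb i
  refine ⟨c0, fun k x => w (φ (k + N)) x - c0, fun k => a (φ (k + N)), fun k => b (φ (k + N)),
    a0, b0, hw.shift (hφ.tendsto_atTop.comp hs) c0,
    ⟨fun k => hab _, ta.comp hs, tb.comp hs, fun k x hx hi => ?_, fun x hx => ?_, fun x hx => ?_⟩⟩
  · obtain ⟨e1, e2⟩ := hN (k + N) (Nat.le_add_left _ _)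
    have e3 : ‖w (φ (k + N)) x - c (φ (k + N))‖ ≤ t0 / 2 :=
      le_of_pow_le_pow_left₀ (Nat.succ_ne_zero d) (by positivity) ((h2 _ x hx hi).trans e1)
    rw [dist_eq_norm] at e2
    have e4 := norm_add_le (w (φ (k + N)) x - c (φ (k + N))) (c (φ (k + N)) - c0)
    rw [sub_add_sub_cancel] at e4
    linarith
  · rw [mem_ball, dist_pi_lt_iff hr] at hx
    refine ⟨fun i => ?_, fun i => ?_⟩
    · have e1 := le_of_tendsto' (tai i) fun k => (h1 (φ k) i).2.1
      have e2 := hx i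
      rw [Real.dist_eq, abs_lt] at e2
      linarith [e2.1]
    · have e1 := ge_of_tendsto' (tbi i) fun k => (h1 (φ k) i).2.2.1
      have e2 := hx i
      rw [Real.dist_eq, abs_lt] at e2
      linarith [e2.2]
  · rw [mem_closedBall, dist_pi_le_iff (by positivity)]
    intro i
    have e1 := ge_of_tendsto' (tai i) fun k => (h1 (φ k) i).1
    have e2 := le_of_tendsto' (tbi i) fun k => (h1 (φ k) i).2.2.2
    rw [Real.dist_eq, abs_le]
    constructor <;> linarith [hx.1 i, hx.2 i]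

end Pool.Agent.Lib.MP_a785f2_an.HS
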