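import Pool.Agent.Lib.MP_a785f2_an.HS.TrA

open MeasureTheory Metric Set Filter Topology
open scoped ContDiff RealInnerProductSpace ENNReal

namespace Pool.Agent.Lib.MP_a785f2_an.HS

variable {n m : ℕ}

theorem tr_bdd {W : Type} [NormedAddCommGroup W] {X : Type} [TopologicalSpace X] {φ : X → W}
    (h1 : Continuous φ) (h2 : HasCompactSupport φ) : ∃ B, 0 ≤ B ∧ ∀ x, ‖φ x‖ ≤ B := by
  obtain ⟨B, hB⟩ := h1.bounded_above_of_compact_support h2
  exact ⟨max B 0, le_max_right _ _, fun x => (hB x).trans (le_max_left _ _)⟩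

/-- Transfer from the Euclidean ball and coordinates to the internal vocabulary and back. -/
theorem transfer (hn : 2 ≤ n)
    (H : ∀ (Ω : Set (D n)) (u : D n → V m) (G : D n → D n →L[ℝ] V m) (f : D n → V m) (Λ : ℝ),
      Sol Ω u G f Λ → ∃ v : D n → V m, ContinuousOn v Ω ∧ ∀ᵐ x ∂(volume.restrict Ω), u x = v x)
    (u : Fin m → E n → ℝ) (G : Fin m → Fin n → E n → ℝ) (f : Fin m → E n → ℝ) (Λ : ℝ)
    (hu : IsW1n u G) (hf : ∀ i, AEStronglyMeasurable (f i) (ballMeasure n))
    (hb : ∀ i, ∀ᵐ x ∂(ballMeasure n), |f i x| ≤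
      Λ * ∑ I : Fin n → Fin m, |(Matrix.of fun a α => G (I a) α x).det|)
    (he : ∀ i φ, IsTest φ →
      ∫ x, ∑ α, gradNorm G x ^ (n - 2) * G i α x * pd α φ x ∂(ballMeasure n) =
        ∫ x, f i x * φ x ∂(ballMeasure n)) :
    HasContinuousRep u := by
  set Ω : Set (D n) := WithLp.toLp 2 ⁻¹' ball (0 : E n) 1 with hΩ
  have hop : IsOpen Ω := isOpen_ball.preimage (PiLp.continuous_toLp 2 _)
  have mp : MeasurePreserving (WithLp.toLp 2 : D n → E n) (volume.restrict Ω) (ballMeasure n) :=
    (PiLp.volume_preserving_toLp (Fin n)).restrict_preimage measurableSet_ball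
  have emb : MeasurableEmbedding (WithLp.toLp 2 : D n → E n) :=
    (MeasurableEquiv.toLp 2 _).measurableEmbedding
  have fin0 : IsFiniteMeasure (ballMeasure n) :=
    isFiniteMeasure_restrict.2 measure_ball_lt_top.ne
  have fin1 : IsFiniteMeasure (volume.restrict Ω) :=
    ⟨by rw [← preimage_univ (f := (WithLp.toLp 2 : D n → E n)),
      mp.measure_preimage MeasurableSet.univ.nullMeasurableSet]; exact measure_lt_top _ _⟩
  have hn1 : (1 : ℝ≥0∞) ≤ n := by exact_mod_cast (by omega : 1 ≤ n)
  have lu : ∀ i, MemLp (fun x : D n => u i (WithLp.toLp 2 x)) n (volume.restrict Ω) := fun i =>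
    (hu.1 i).comp_measurePreserving mp
  have lG : ∀ i α, MemLp (fun x : D n => G i α (WithLp.toLp 2 x)) n (volume.restrict Ω) :=
    fun i α => (hu.2.1 i α).comp_measurePreserving mp
  have mf : ∀ i, AEStronglyMeasurable (fun x : D n => f i (WithLp.toLp 2 x))
      (volume.restrict Ω) := fun i => (hf i).comp_measurePreserving mp
  set G1 : D n → D n →L[ℝ] V m := fun x => trM fun i α => G i α (WithLp.toLp 2 x) with hG1
  have lG1 : MemLp G1 n (volume.restrict Ω) := trM_memLp lG
  have bf : ∀ᵐ x ∂(volume.restrict Ω), ∀ i, |f i (WithLp.toLp 2 x)| ≤ |Λ| * jac (G1 x) := by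
    rw [ae_all_iff]
    intro i
    filter_upwards [mp.quasiMeasurePreserving.ae (hb i)] with x hx
    refine hx.trans ?_
    rw [← trM_jac fun i α => G i α (WithLp.toLp 2 x)]
    exact mul_le_mul_of_nonneg_right (le_abs_self _) (jac_nonneg _)
  have mfro : AEStronglyMeasurable (fun x => fro (G1 x)) (volume.restrict Ω) :=
    continuous_fro.comp_aestronglyMeasurable lG1.1
  have ifro : Integrable (fun x => fro (G1 x) ^ n) (volume.restrict Ω) := by
    refine ((lG1.integrable_norm_pow (by omega)).const_mul ((n : ℝ) ^ n)).mono' (mfro.pow n)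
      (ae_of_all _ fun x => ?_)
    rw [Real.norm_of_nonneg (pow_nonneg (fro_nonneg _) _), ← mul_pow]
    exact pow_le_pow_left₀ (fro_nonneg _) (fro_le_norm _) n
  have iF : ∀ i, Integrable (fun x : D n => f i (WithLp.toLp 2 x)) (volume.restrict Ω) := by
    intro i
    refine ((ifro.const_mul ((m : ℝ) ^ n * n.factorial)).const_mul |Λ|).mono' (mf i) ?_
    filter_upwards [bf] with x hx
    exact (hx i).trans (mul_le_mul_of_nonneg_left (jac_le _) (abs_nonneg _))
  refine (tr_ae H hop
    (u := fun x => WithLp.toLp 2 fun i => u i (WithLp.toLp 2 x)) (G := G1)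
    (f := fun x => WithLp.toLp 2 fun i => f i (WithLp.toLp 2 x)) (Λ := m * |Λ|) (by positivity)
    (MemLp.of_eval_piLp lu) lG1 (Integrable.of_eval_piLp iF).1 ?_ ?_ ?_).elim ?_
  rotate_right
  · rintro v ⟨hv, hv2⟩
    refine ⟨fun y i => v y.ofLp i, continuousOn_pi.2 fun i => ?_, ?_⟩
    · exact (EuclideanSpace.proj i : V m →L[ℝ] ℝ).continuous.comp_continuousOn
        (hv.comp (PiLp.continuous_ofLp 2 _).continuousOn fun y hy => hy)
    · rw [← mp.map_eq, emb.ae_map_iff]
      filter_upwards [hv2] with x hx i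
      exact congrArg (fun z : V m => z i) hx
  · filter_upwards [bf] with x hx
    have h0 : 0 ≤ |Λ| * jac (G1 x) := mul_nonneg (abs_nonneg _) (jac_nonneg _)
    rw [EuclideanSpace.norm_eq]
    refine Real.sqrt_le_iff.2 ⟨by rw [mul_assoc]; positivity, ?_⟩
    calc ∑ i, ‖f i (WithLp.toLp 2 x)‖ ^ 2 ≤ ∑ _i : Fin m, (|Λ| * jac (G1 x)) ^ 2 :=
          Finset.sum_le_sum fun i _ => pow_le_pow_left₀ (norm_nonneg _) (hx i) 2
      _ = m * (|Λ| * jac (G1 x)) ^ 2 := by simp
      _ ≤ (m * |Λ| * jac (G1 x)) ^ 2 := by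
          have : (m : ℝ) ≤ (m : ℝ) ^ 2 := by exact_mod_cast Nat.le_self_pow two_ne_zero m
          rw [mul_assoc, mul_pow (m : ℝ)]
          exact mul_le_mul_of_nonneg_right this (sq_nonneg _)
  · intro φ h1 h2 h3 w
    obtain ⟨t1, t2⟩ := tr_test h1 h2 h3
    have cD : Continuous (fderiv ℝ φ) := h1.continuous_fderiv (by simp)
    obtain ⟨B, -, hB⟩ := tr_bdd h1.continuous h2
    have i1 : ∀ i (z : D n), Integrable (fun x : D n => fderiv ℝ φ x z * u i (WithLp.toLp 2 x))
        (volume.restrict Ω) := fun i z => by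
      obtain ⟨B2, -, hB2⟩ := tr_bdd (cD.clm_apply continuous_const) (h2.fderiv_apply ℝ z)
      exact ((lu i).integrable hn1).bdd_mul
        (cD.clm_apply continuous_const).aestronglyMeasurable (ae_of_all _ hB2)
    have i2 : ∀ i α, Integrable (fun x : D n => φ x * G i α (WithLp.toLp 2 x))
        (volume.restrict Ω) := fun i α =>
      ((lG i α).integrable hn1).bdd_mul h1.continuous.aestronglyMeasurable (ae_of_all _ hB)
    have e1 : ∀ i α, ∫ x in Ω, fderiv ℝ φ x (Pi.single α 1) * u i (WithLp.toLp 2 x) =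
        -∫ x in Ω, φ x * G i α (WithLp.toLp 2 x) := fun i α => by
      have h := hu.2.2 i α _ t1
      rw [← mp.integral_comp emb, ← mp.integral_comp emb] at h
      simp only [t2] at h
      simpa only [mul_comm] using h
    have e2 : ∀ x i, (φ x • G1 x w) i = ∑ α, w α * (φ x * G i α (WithLp.toLp 2 x)) := by
      intro x i
      rw [PiLp.smul_apply, hG1, trM_apply, smul_eq_mul, Finset.mul_sum]
      exact Finset.sum_congr rfl fun α _ => by ring
    have e3 : ∀ x i, fderiv ℝ φ x w * u i (WithLp.toLp 2 x) =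
        ∑ α, w α * (fderiv ℝ φ x (Pi.single α 1) * u i (WithLp.toLp 2 x)) := by
      intro x i
      have h : w = ∑ α, w α • (Pi.single α 1 : D n) := by
        ext j; simp [Finset.sum_apply, Pi.single_apply]
      conv_lhs => rw [h]
      rw [map_sum, Finset.sum_mul]
      exact Finset.sum_congr rfl fun α _ => by rw [map_smul, smul_eq_mul, mul_assoc]
    ext i
    rw [PiLp.neg_apply, eval_integral_piLp (fun i => i1 i w),
      eval_integral_piLp (fun i => by
        simp only [e2]
        exact integrable_finsetSum _ fun α _ => (i2 i α).const_mul _)]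
    simp only [e2]
    change ∫ x in Ω, fderiv ℝ φ x w * u i (WithLp.toLp 2 x) = _
    simp only [e3]
    rw [integral_finsetSum _ fun α _ => (i1 i _).const_mul _,
      integral_finsetSum _ fun α _ => (i2 i α).const_mul _, ← Finset.sum_neg_distrib]
    refine Finset.sum_congr rfl fun α _ => ?_
    rw [integral_const_mul, integral_const_mul, e1, mul_neg]
  · intro φ h1 h2 h3
    have cD : Continuous (fderiv ℝ φ) := h1.continuous_fderiv (by simp)
    obtain ⟨B, hB0, hB⟩ := tr_bdd cD (h2.fderiv ℝ)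
    obtain ⟨B2, -, hB2⟩ := tr_bdd h1.continuous h2
    have hp : ∀ (z : V m) i, |z i| ≤ ‖z‖ := fun z i => by
      simpa using PiLp.norm_apply_le z i
    have s1 : ∀ i, ContDiff ℝ ∞ fun x => φ x i := fun i =>
      (EuclideanSpace.proj i : V m →L[ℝ] ℝ).contDiff.comp h1
    have s2 : ∀ i, HasCompactSupport fun x => φ x i := fun i =>
      h2.comp_left (g := fun z : V m => z i) rfl
    have s3 : ∀ i, tsupport (fun x => φ x i) ⊆ Ω := fun i =>
      (tsupport_comp_subset (g := fun z : V m => z i) rfl φ).trans h3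
    have s4 : ∀ i x α, fderiv ℝ (fun x => φ x i) x (Pi.single α 1) = col (fderiv ℝ φ x) α i := by
      intro i x α
      have h := ((EuclideanSpace.proj i : V m →L[ℝ] ℝ).hasFDerivAt.comp x
        (h1.differentiable (by simp) x).hasFDerivAt).fderiv
      exact congrArg (fun L : D n →L[ℝ] ℝ => L (Pi.single α 1)) h
    have hg : ∀ x : D n, gradNorm G (WithLp.toLp 2 x) = fro (G1 x) := fun x =>
      (trM_fro fun i α => G i α (WithLp.toLp 2 x)).symm
    have e1 : ∀ i, ∫ x in Ω, ∑ α, fro (G1 x) ^ (n - 2) * G i α (WithLp.toLp 2 x) *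
        col (fderiv ℝ φ x) α i = ∫ x in Ω, f i (WithLp.toLp 2 x) * φ x i := fun i => by
      obtain ⟨t1, t2⟩ := tr_test (s1 i) (s2 i) (s3 i)
      have h := he i _ t1
      rw [← mp.integral_comp emb, ← mp.integral_comp emb] at h
      simp only [t2, s4, hg] at h
      exact h
    have i1 : ∀ i α, Integrable (fun x : D n => fro (G1 x) ^ (n - 2) * G i α (WithLp.toLp 2 x) *
        col (fderiv ℝ φ x) α i) (volume.restrict Ω) := fun i α => by
      have c1 : Continuous fun x => col (fderiv ℝ φ x) α i :=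
        (EuclideanSpace.proj i : V m →L[ℝ] ℝ).continuous.comp ((continuous_col α).comp cD)
      refine Integrable.mul_bdd (c := B) ?_ c1.aestronglyMeasurable (ae_of_all _ fun x =>
        (hp _ i).trans ((col_le_norm _ α).trans (hB x)))
      refine ((integrable_const (1 : ℝ)).add ifro).mono' ((mfro.pow _).mul (lG i α).1)
        (ae_of_all _ fun x => ?_)
      have h0 := fro_nonneg (G1 x)
      have h4 : |G i α (WithLp.toLp 2 x)| ≤ fro (G1 x) := by
        rw [← trM_col (fun i α => G i α (WithLp.toLp 2 x)) α i]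
        exact (hp _ i).trans (col_le_fro _ α)
      have h5 : fro (G1 x) ^ (n - 2) * fro (G1 x) ≤ 1 + fro (G1 x) ^ n := by
        rw [← pow_succ]
        rcases le_total (fro (G1 x)) 1 with h | h
        · linarith [pow_le_one₀ h0 h (n := n - 2 + 1), pow_nonneg h0 n]
        · linarith [pow_le_pow_right₀ h (by omega : n - 2 + 1 ≤ n)]
      rw [norm_mul, Real.norm_of_nonneg (pow_nonneg h0 _)]
      exact (mul_le_mul_of_nonneg_left h4 (pow_nonneg h0 _)).trans h5
    have i2 : ∀ i, Integrable (fun x : D n => f i (WithLp.toLp 2 x) * φ x i)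
        (volume.restrict Ω) := fun i =>
      (iF i).mul_bdd (c := B2) (s1 i).continuous.aestronglyMeasurable
        (ae_of_all _ fun x => (hp _ i).trans (hB2 x))
    have e2 : ∀ x, pr (G1 x) (fderiv ℝ φ x) = ∑ i, ∑ α, fro (G1 x) ^ (n - 2) *
        G i α (WithLp.toLp 2 x) * col (fderiv ℝ φ x) α i := fun x => by
      rw [hG1]
      beta_reduce
      rw [trM_pr, trM_fro]
    have e3 : ∀ x : D n, ⟪(WithLp.toLp 2 fun i => f i (WithLp.toLp 2 x) : V m), φ x⟫ =
        ∑ i, f i (WithLp.toLp 2 x) * φ x i := fun x => by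
      rw [PiLp.inner_apply]
      exact Finset.sum_congr rfl fun i _ => by simp [mul_comm]
    simp only [e2, e3]
    rw [integral_finsetSum _ fun i _ => integrable_finsetSum _ fun α _ => i1 i α,
      integral_finsetSum _ fun i _ => i2 i]
    exact Finset.sum_congr rfl fun i _ => e1 i

end Pool.Agent.Lib.MP_a785f2_an.HS
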