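import Pool.Agent.Lib.MP_a785f2_an.HS.Moll
import Pool.Agent.Lib.MP_a785f2_an.HS.Sub
import Pool.Agent.Lib.MP_a785f2_an.HS.Lim
import Pool.Agent.Lib.MP_a785f2_an.HS.AreaC
import Pool.Agent.Lib.MP_a785f2_an.HS.Iso
import Pool.Agent.Lib.MP_a785f2_an.HS.Rep
import Pool.Agent.Lib.MP_a785f2_an.HS.Tr

open MeasureTheory Metric Set Filter Topology
open scoped ContDiff RealInnerProductSpace ENNReal

namespace Pool.Agent.Lib.MP_a785f2_an.HS

variable {n m : ℕ}

/-- The numerical iteration. -/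
theorem iter (hn : 2 ≤ n) {K : ℝ} (hK : 0 < K) : ∃ ε : ℝ, 0 < ε ∧ ∀ σ : ℕ → ℝ, (∀ j, 0 ≤ σ j) →
    (∀ j, σ (j + 1) ^ (n - 1) ≤ K * (σ j * 2 ^ j) ^ n) → σ 0 ≤ ε → Tendsto σ atTop (𝓝 0) := by
  obtain ⟨d, rfl⟩ : ∃ d, n = d + 1 := ⟨n - 1, by omega⟩
  have hd : d ≠ 0 := by omega
  set b : ℝ := 2 ^ (d + 1) with hb
  have b0 : 0 < b := by positivity
  have b1 : 1 < b := one_lt_pow₀ one_lt_two (by omega)
  refine ⟨1 / (K * b ^ d), by positivity, fun σ h0 hs h1 => ?_⟩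
  set ε : ℝ := 1 / (K * b ^ d) with hε
  have e0 : 0 < ε := by positivity
  have main : ∀ j, σ j ≤ ε * b⁻¹ ^ j := by
    intro j
    induction j with
    | zero => simpa using h1
    | succ j ih =>
      refine le_of_pow_le_pow_left₀ hd (by positivity) ?_
      have h2 := hs j
      rw [Nat.add_sub_cancel] at h2
      refine h2.trans ?_
      have h3 : (σ j * 2 ^ j) ^ (d + 1) ≤ (ε * b⁻¹ ^ j * 2 ^ j) ^ (d + 1) :=
        pow_le_pow_left₀ (mul_nonneg (h0 j) (by positivity))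
          (mul_le_mul_of_nonneg_right ih (by positivity)) _
      refine (mul_le_mul_of_nonneg_left h3 hK.le).trans (le_of_eq ?_)
      have h4 : ((2 : ℝ) ^ j) ^ (d + 1) = b ^ j := by rw [hb, ← pow_mul, ← pow_mul, mul_comm]
      have h5 : K * ε = b⁻¹ ^ d := by rw [hε, inv_pow]; field_simp
      have h6 : b⁻¹ ^ j * b ^ j = 1 := by rw [← mul_pow, inv_mul_cancel₀ b0.ne', one_pow]
      calc K * (ε * b⁻¹ ^ j * 2 ^ j) ^ (d + 1)
          = (K * ε) * (ε ^ d * (b⁻¹ ^ j) ^ d) * (b⁻¹ ^ j * (2 ^ j) ^ (d + 1)) := by ring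
        _ = b⁻¹ ^ d * (ε ^ d * (b⁻¹ ^ j) ^ d) := by rw [h4, h5, h6, mul_one]
        _ = (ε * b⁻¹ ^ (j + 1)) ^ d := by ring
  have t : Tendsto (fun j : ℕ => ε * b⁻¹ ^ j) atTop (𝓝 (ε * 0)) :=
    (tendsto_pow_atTop_nhds_zero_of_lt_one (by positivity) (inv_lt_one_of_one_lt₀ b1)).const_mul ε
  rw [mul_zero] at t
  exact squeeze_zero h0 main t

/-- Small area above the first level forces zero area above twice that level. -/
theorem extinct (hn : 2 ≤ n) (m : ℕ) {Λ : ℝ} (hΛ : 0 ≤ Λ) : ∃ ε : ℝ, 0 < ε ∧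
    ∀ (μ : Measure (D n)) (u : D n → V m) (G : D n → D n →L[ℝ] V m) (f : D n → V m) (t0 : ℝ),
      Tgt μ u G f Λ t0 → sig μ u G t0 ≤ ε → sig μ u G (2 * t0) = 0 := by
  obtain ⟨C, hC, hiso⟩ := iso hn m
  obtain ⟨ε, hε, hit⟩ := iter hn (K := C * (5 * (Λ + 1)) ^ n) (by positivity)
  refine ⟨ε, hε, fun μ u G f t0 h h0 => ?_⟩
  have tp := h.tp
  have hlim := hit (fun j => sig μ u G (t0 * (2 - 1 / 2 ^ j))) (fun j => sig_nonneg _ _ _ _)
    (fun j => ?_) (by simpa [show (2 : ℝ) - 1 = 1 by norm_num] using h0)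
  · refine le_antisymm (ge_of_tendsto' hlim fun j => h.sig_anti ?_) (sig_nonneg _ _ _ _)
    have : (0 : ℝ) < 1 / 2 ^ j := by positivity
    nlinarith
  · set q : ℝ := 2 ^ j with hq
    have q1 : 1 ≤ q := one_le_pow₀ one_le_two
    have q0 : 0 < q := by positivity
    have i1 : 1 / q ≤ 1 := by rw [div_le_one q0]; exact q1
    have i0 : 0 < 1 / q := by positivity
    have e1 : (1 : ℝ) / 2 ^ (j + 1) = 1 / q / 2 := by rw [pow_succ, hq, div_div]
    have key := hiso μ u G f Λ t0 h (t0 * (2 - 1 / q)) (t0 * (2 - 3 / 4 * (1 / q)))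
      (t0 * (2 - 1 / q / 2)) (by nlinarith) (by nlinarith) (by nlinarith) (by nlinarith)
    have e2 : t0 / (t0 * (2 - 1 / q / 2) - t0 * (2 - 3 / 4 * (1 / q))) = 4 * q := by
      have : t0 * (2 - 1 / q / 2) - t0 * (2 - 3 / 4 * (1 / q)) = t0 / (4 * q) := by
        field_simp; ring
      rw [this]; field_simp
    rw [e2] at key
    simp only [e1]
    refine key.trans ?_
    have s0 := sig_nonneg μ u G (t0 * (2 - 1 / q))
    rw [mul_assoc C, ← mul_pow]
    refine mul_le_mul_of_nonneg_left (pow_le_pow_left₀ (by positivity) ?_ _) hC.le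
    have : Λ * (1 + 4 * q) ≤ 5 * (Λ + 1) * q := by nlinarith
    nlinarith

theorem small_energy {G : D n → D n →L[ℝ] V m} (hn : 2 ≤ n) (lG : MemLp G n volume) (x0 : D n)
    {δ : ℝ} (hδ : 0 < δ) :
    ∀ᶠ r in 𝓝[>] (0 : ℝ), ∫ x in closedBall x0 (2 * r), ‖G x‖ ^ n < δ := by
  have hi : Integrable (fun x => ‖G x‖ ^ n) volume := lG.integrable_norm_pow (by omega)
  have hv : Tendsto (fun r : ℝ => volume (closedBall x0 (2 * r))) (𝓝[>] 0) (𝓝 0) := by
    have c : Tendsto (fun r : ℝ => ENNReal.ofReal ((2 * (2 * r)) ^ n)) (𝓝[>] 0) (𝓝 0) := by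
      have c1 : Continuous fun r : ℝ => ENNReal.ofReal ((2 * (2 * r)) ^ n) :=
        ENNReal.continuous_ofReal.comp (by fun_prop)
      have c2 := c1.tendsto 0
      have : ENNReal.ofReal ((2 * (2 * (0 : ℝ))) ^ n) = 0 := by
        simp [zero_pow (show n ≠ 0 by omega)]
      rw [this] at c2
      exact c2.mono_left nhdsWithin_le_nhds
    refine c.congr' ?_
    filter_upwards [self_mem_nhdsWithin] with r hr
    have hr0 : (0 : ℝ) < r := hr
    rw [Real.volume_pi_closedBall _ (by positivity)]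
    simp
  exact (hi.tendsto_setIntegral_nhds_zero hv).eventually (gt_mem_nhds hδ)

/-- Small essential oscillation at every point. -/
theorem osc (hn : 2 ≤ n) {Ω : Set (D n)} {u : D n → V m} {G : D n → D n →L[ℝ] V m}
    {f : D n → V m} {Λ : ℝ} (S : Sol Ω u G f Λ) {x0 : D n} (hx : x0 ∈ Ω) {γ : ℝ} (hγ : 0 < γ) :
    ∃ r : ℝ, 0 < r ∧ ∃ c : V m, ∀ᵐ x ∂(volume.restrict (ball x0 r)), ‖u x - c‖ ≤ γ := by
  obtain ⟨C, hC, hbox⟩ := exists_box hn
  obtain ⟨ε, hε, hext⟩ := extinct hn m S.L0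
  obtain ⟨ρ, hρ, hρΩ⟩ := Metric.nhds_basis_closedBall.mem_iff.1 (S.op.mem_nhds hx)
  set t0 := γ / 2 with ht0
  have tp : 0 < t0 := by positivity
  set B : ℝ := (m : ℝ) ^ n * n.factorial * (n : ℝ) ^ n + 1 with hB
  have B0 : 0 < B := by positivity
  have e1 := small_energy hn S.lG x0 (δ := t0 ^ n / C) (by positivity)
  have e2 := small_energy hn S.lG x0 (δ := ε / B) (by positivity)
  have e3 : ∀ᶠ r in 𝓝[>] (0 : ℝ), r < ρ / 3 :=
    nhdsWithin_le_nhds (gt_mem_nhds (by positivity))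
  obtain ⟨r, ⟨⟨h1, h2⟩, h3⟩, hr⟩ := (((e1.and e2).and e3).and self_mem_nhdsWithin).exists
  have hr0 : 0 < r := hr
  have hK : closedBall x0 (3 * r) ⊆ Ω := (closedBall_subset_closedBall (by linarith)).trans hρΩ
  obtain ⟨w, hw⟩ := exists_apx hn S hK
  obtain ⟨c, w', a, b, a0, b0, hw', hB'⟩ := hbox m u G w x0 r t0 hr0 tp S.lu S.lG hw
    (by rwa [lt_div_iff₀' hC] at h1)
  have mu : StronglyMeasurable fun x => u x - c := S.mu.sub stronglyMeasurable_const
  have hi : Integrable (fun x => ‖G x‖ ^ n) volume := S.lG.integrable_norm_pow (by omega)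
  have hfro : ∀ x, fro (G x) ^ n ≤ (n : ℝ) ^ n * ‖G x‖ ^ n := fun x => by
    rw [← mul_pow]; exact pow_le_pow_left₀ (fro_nonneg _) (fro_le_norm _) _
  have T : Tgt (volume.restrict (Icc a0 b0)) (fun x => u x - c) G f Λ t0 :=
    { mu := mu, mG := S.mG, mf := S.mf, L0 := S.L0, tp := tp, bd := S.bd
      iG := ((hi.const_mul ((n : ℝ) ^ n)).mono'
        ((continuous_fro.pow n).comp_stronglyMeasurable S.mG).aestronglyMeasurable
        (ae_of_all _ fun x =>
          (Real.norm_of_nonneg (pow_nonneg (fro_nonneg (G x)) n)).le.trans (hfro x))).integrableOn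
      T := fun Φ hΦ h0 => lim_T hn S mu hr0 hK hw' hB' hΦ h0
      area := area_of_apx hn mu S.mG S.lG hr0 hw' measurableSet_Icc hB'.hi }
  have s1 : sig (volume.restrict (Icc a0 b0)) (fun x => u x - c) G t0 ≤ ε := by
    calc sig (volume.restrict (Icc a0 b0)) (fun x => u x - c) G t0
        ≤ ∫ x in Icc a0 b0, jac (G x) :=
          setIntegral_le_integral T.iJ (ae_of_all _ fun _ => jac_nonneg _)
      _ ≤ ∫ x in Icc a0 b0, B * ‖G x‖ ^ n := by
          refine integral_mono T.iJ (hi.const_mul B).integrableOn fun x => (jac_le _).trans ?_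
          have p0 : 0 ≤ ‖G x‖ ^ n := by positivity
          have := mul_le_mul_of_nonneg_left (hfro x)
            (show (0 : ℝ) ≤ (m : ℝ) ^ n * n.factorial by positivity)
          simp only [hB]; nlinarith
      _ ≤ ∫ x in closedBall x0 (2 * r), B * ‖G x‖ ^ n :=
          setIntegral_mono_set (hi.const_mul B).integrableOn
            (ae_of_all _ fun x => by positivity) (LE.le.eventuallyLE hB'.hi)
      _ ≤ ε := by
          rw [integral_const_mul]
          exact ((lt_div_iff₀' B0).1 h2).le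
  have s2 := hext _ _ _ _ _ T s1
  have s3 := cacc0 hn T (s := 2 * t0) (by linarith) s2
  have s4 := lim_P hn mu S.mG S.lG hr0 hw' hB' (s := 2 * t0) (by linarith) tp s3
  refine ⟨r, hr0, c, ?_⟩
  have e : 2 * t0 = γ := by rw [ht0]; ring
  rw [e] at s4
  exact ae_restrict_of_ae_restrict_of_subset hB'.lo s4

/-- Continuity when the right-hand side is bounded by the top minors of the gradient. -/
theorem continuity (hn : 2 ≤ n)
    (u : Fin m → E n → ℝ) (G : Fin m → Fin n → E n → ℝ) (f : Fin m → E n → ℝ) (Λ : ℝ)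
    (hu : IsW1n u G) (hf : ∀ i, AEStronglyMeasurable (f i) (ballMeasure n))
    (hb : ∀ i, ∀ᵐ x ∂(ballMeasure n), |f i x| ≤
      Λ * ∑ I : Fin n → Fin m, |(Matrix.of fun a α => G (I a) α x).det|)
    (he : ∀ i φ, IsTest φ →
      ∫ x, ∑ α, gradNorm G x ^ (n - 2) * G i α x * pd α φ x ∂(ballMeasure n) =
        ∫ x, f i x * φ x ∂(ballMeasure n)) :
    HasContinuousRep u :=
  transfer hn (fun _ _ _ _ _ S => rep S.op fun _ hx _ hγ => osc hn S hx hγ) u G f Λ hu hf hb he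

end Pool.Agent.Lib.MP_a785f2_an.HS
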