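import Pool.Agent.Lib.MP_a785f2_an.HS.Defs

/-! Helpers for the transfer: measurable extensions by zero and coordinates. -/

open MeasureTheory Metric Set Filter Topology
open scoped ContDiff RealInnerProductSpace ENNReal

namespace Pool.Agent.Lib.MP_a785f2_an.HS

variable {n m : ℕ}

/-- Measurable extension by zero. -/
theorem tr_ext {X W : Type} [MeasurableSpace X] [NormedAddCommGroup W] {μ : Measure X}
    {Ω : Set X} (hΩ : MeasurableSet Ω) {g : X → W} (hg : AEStronglyMeasurable g (μ.restrict Ω)) :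
    ∃ g' : X → W, StronglyMeasurable g' ∧ (∀ p, MemLp g p (μ.restrict Ω) → MemLp g' p μ) ∧
      ∀ᵐ x ∂μ, (x ∈ Ω → g' x = g x) ∧ (x ∉ Ω → g' x = 0) := by
  have h := (aestronglyMeasurable_indicator_iff hΩ).2 hg
  refine ⟨h.mk _, h.stronglyMeasurable_mk,
    fun p hp => ((memLp_indicator_iff_restrict hΩ).2 hp).ae_eq h.ae_eq_mk, ?_⟩
  filter_upwards [h.ae_eq_mk] with x hx
  exact ⟨fun h => by rw [← hx, indicator_of_mem h], fun h => by rw [← hx, indicator_of_notMem h]⟩

theorem tr_pr_zero (B : D n →L[ℝ] V m) : pr 0 B = 0 := by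
  simp [pr, col]

/-- The continuity statement for data that are given almost everywhere on `Ω` only. -/
theorem tr_ae
    (H : ∀ (Ω : Set (D n)) (u : D n → V m) (G : D n → D n →L[ℝ] V m) (f : D n → V m) (Λ : ℝ),
      Sol Ω u G f Λ → ∃ v : D n → V m, ContinuousOn v Ω ∧ ∀ᵐ x ∂(volume.restrict Ω), u x = v x)
    {Ω : Set (D n)} (hΩ : IsOpen Ω) {u : D n → V m} {G : D n → D n →L[ℝ] V m} {f : D n → V m}
    {Λ : ℝ} (hΛ : 0 ≤ Λ) (lu : MemLp u n (volume.restrict Ω)) (lG : MemLp G n (volume.restrict Ω))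
    (mf : AEStronglyMeasurable f (volume.restrict Ω))
    (bd : ∀ᵐ x ∂(volume.restrict Ω), ‖f x‖ ≤ Λ * jac (G x))
    (wk : ∀ φ : D n → ℝ, ContDiff ℝ ∞ φ → HasCompactSupport φ → tsupport φ ⊆ Ω → ∀ v : D n,
      ∫ x in Ω, fderiv ℝ φ x v • u x = -∫ x in Ω, φ x • G x v)
    (eq : ∀ φ : D n → V m, ContDiff ℝ ∞ φ → HasCompactSupport φ → tsupport φ ⊆ Ω →
      ∫ x in Ω, pr (G x) (fderiv ℝ φ x) = ∫ x in Ω, ⟪f x, φ x⟫) :
    ∃ v : D n → V m, ContinuousOn v Ω ∧ ∀ᵐ x ∂(volume.restrict Ω), u x = v x := by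
  have hm := hΩ.measurableSet
  obtain ⟨u2, mu2, lu2, hu2⟩ := tr_ext hm lu.1
  obtain ⟨G2, mG2, lG2, hG2⟩ := tr_ext hm lG.1
  obtain ⟨f2, mf2, -, hf2⟩ := tr_ext hm mf
  have hS : MeasurableSet {x | ‖f2 x‖ ≤ Λ * jac (G2 x)} :=
    measurableSet_le mf2.norm.measurable
      ((continuous_jac.comp_stronglyMeasurable mG2).measurable.const_mul Λ)
  have hf3 : {x | ‖f2 x‖ ≤ Λ * jac (G2 x)}.indicator f2 =ᵐ[volume] f2 := by
    filter_upwards [hf2, hG2, (ae_restrict_iff' hm).1 bd] with x h1 h2 h3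
    refine indicator_of_mem ?_ _
    change ‖f2 x‖ ≤ Λ * jac (G2 x)
    by_cases hx : x ∈ Ω
    · rw [h1.1 hx, h2.1 hx]
      exact h3 hx
    · rw [h1.2 hx, norm_zero]
      exact mul_nonneg hΛ (jac_nonneg _)
  have S : Sol Ω u2 G2 ({x | ‖f2 x‖ ≤ Λ * jac (G2 x)}.indicator f2) Λ := by
    refine ⟨hΩ, mu2, mG2, mf2.indicator hS, lu2 _ lu, lG2 _ lG, fun φ h1 h2 h3 v => ?_,
      fun φ h1 h2 h3 => ?_, hΛ, fun x => ?_⟩
    · have e1 : ∫ x, fderiv ℝ φ x v • u2 x = ∫ x in Ω, fderiv ℝ φ x v • u x := by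
        rw [← integral_indicator hm]
        refine integral_congr_ae ?_
        filter_upwards [hu2] with x hx
        by_cases h : x ∈ Ω
        · rw [indicator_of_mem h, hx.1 h]
        · rw [indicator_of_notMem h, hx.2 h, smul_zero]
      have e2 : ∫ x, φ x • G2 x v = ∫ x in Ω, φ x • G x v := by
        rw [← integral_indicator hm]
        refine integral_congr_ae ?_
        filter_upwards [hG2] with x hx
        by_cases h : x ∈ Ω
        · rw [indicator_of_mem h, hx.1 h]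
        · rw [indicator_of_notMem h, hx.2 h, zero_apply, smul_zero]
      rw [e1, e2]
      exact wk φ h1 h2 h3 v
    · have e1 : ∫ x, pr (G2 x) (fderiv ℝ φ x) = ∫ x in Ω, pr (G x) (fderiv ℝ φ x) := by
        rw [← integral_indicator hm]
        refine integral_congr_ae ?_
        filter_upwards [hG2] with x hx
        by_cases h : x ∈ Ω
        · rw [indicator_of_mem h, hx.1 h]
        · rw [indicator_of_notMem h, hx.2 h, tr_pr_zero]
      have e2 : ∫ x, ⟪{x | ‖f2 x‖ ≤ Λ * jac (G2 x)}.indicator f2 x, φ x⟫ =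
          ∫ x in Ω, ⟪f x, φ x⟫ := by
        rw [← integral_indicator hm]
        refine integral_congr_ae ?_
        filter_upwards [hf3, hf2] with x hx hx2
        rw [hx]
        by_cases h : x ∈ Ω
        · rw [indicator_of_mem h, hx2.1 h]
        · rw [indicator_of_notMem h, hx2.2 h, inner_zero_left]
      rw [e1, e2]
      exact eq φ h1 h2 h3
    · by_cases h : x ∈ {x | ‖f2 x‖ ≤ Λ * jac (G2 x)}
      · rw [indicator_of_mem h]
        exact h
      · rw [indicator_of_notMem h, norm_zero]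
        exact mul_nonneg hΛ (jac_nonneg _)
  obtain ⟨v, hv, hv2⟩ := H _ _ _ _ _ S
  refine ⟨v, hv, ?_⟩
  filter_upwards [hv2, ae_restrict_of_ae hu2, ae_restrict_mem hm] with x h1 h2 h3
  rw [← h1, h2.1 h3]

/-- The linear map with the matrix `M i α`. -/
noncomputable def trM (M : Fin m → Fin n → ℝ) : D n →L[ℝ] V m :=
  ∑ α, (ContinuousLinearMap.proj α : D n →L[ℝ] ℝ).smulRight (WithLp.toLp 2 fun i => M i α)

theorem trM_apply (M : Fin m → Fin n → ℝ) (v : D n) (i : Fin m) :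
    trM M v i = ∑ α, v α * M i α := by
  simp [trM, WithLp.ofLp_sum, Finset.sum_apply]

theorem trM_col (M : Fin m → Fin n → ℝ) (α : Fin n) (i : Fin m) : col (trM M) α i = M i α := by
  simp [col, trM_apply, Pi.single_apply]

theorem trM_fro (M : Fin m → Fin n → ℝ) : fro (trM M) = √(∑ i, ∑ α, M i α ^ 2) := by
  rw [fro, Finset.sum_comm]
  congr 1
  refine Finset.sum_congr rfl fun α _ => ?_
  rw [EuclideanSpace.real_norm_sq_eq]
  simp only [trM_col]

theorem trM_jac (M : Fin m → Fin n → ℝ) :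
    jac (trM M) = ∑ I : Fin n → Fin m, |(Matrix.of fun a α => M (I a) α).det| := by
  simp only [jac, mat, trM_col]

theorem trM_pr (M : Fin m → Fin n → ℝ) (B : D n →L[ℝ] V m) :
    pr (trM M) B = ∑ i, ∑ α, √(∑ i, ∑ α, M i α ^ 2) ^ (n - 2) * M i α * col B α i := by
  rw [pr, trM_fro]
  generalize √(∑ i, ∑ α, M i α ^ 2) = g
  rw [Finset.sum_comm, Finset.mul_sum]
  refine Finset.sum_congr rfl fun α _ => ?_
  rw [PiLp.inner_apply, Finset.mul_sum]
  refine Finset.sum_congr rfl fun i _ => ?_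
  rw [trM_col]
  simp only [RCLike.inner_apply, conj_trivial]
  ring

theorem tr_sum {X W ι : Type} [MeasurableSpace X] [NormedAddCommGroup W] [Fintype ι]
    {μ : Measure X} {p : ℝ≥0∞} {f : ι → X → W} (h : ∀ i, MemLp (f i) p μ) :
    MemLp (fun x => ∑ i, f i x) p μ :=
  memLp_finsetSum _ fun i _ => h i

theorem trM_memLp {X : Type} [MeasurableSpace X] {μ : Measure X} {p : ℝ≥0∞}
    {G : Fin m → Fin n → X → ℝ} (hG : ∀ i α, MemLp (G i α) p μ) :
    MemLp (fun x => trM fun i α => G i α x) p μ := by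
  unfold trM
  refine tr_sum (W := D n →L[ℝ] V m) (f := fun α x =>
    (ContinuousLinearMap.proj α : D n →L[ℝ] ℝ).smulRight (WithLp.toLp 2 fun i => G i α x : V m))
    fun α => ?_
  have h : MemLp (fun x => (WithLp.toLp 2 fun i => G i α x : V m)) p μ :=
    MemLp.of_eval_piLp fun i => hG i α
  have hc : Continuous fun v : V m => (ContinuousLinearMap.proj α : D n →L[ℝ] ℝ).smulRight v :=
    (ContinuousLinearMap.smulRightL ℝ (D n) (V m)
      (ContinuousLinearMap.proj α : D n →L[ℝ] ℝ)).continuous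
  refine h.of_le_mul (c := ‖(ContinuousLinearMap.proj α : D n →L[ℝ] ℝ)‖)
    (hc.comp_aestronglyMeasurable h.1) (ae_of_all _ fun x => ?_)
  rw [ContinuousLinearMap.norm_smulRight_apply]

/-- A test function on the coordinate space, read on the Euclidean space. -/
theorem tr_test {φ : D n → ℝ} (h1 : ContDiff ℝ ∞ φ) (h2 : HasCompactSupport φ)
    (h3 : tsupport φ ⊆ WithLp.toLp 2 ⁻¹' ball (0 : E n) 1) :
    IsTest (fun y : E n => φ y.ofLp) ∧
      ∀ α (y : E n), pd α (fun y : E n => φ y.ofLp) y = fderiv ℝ φ y.ofLp (Pi.single α 1) := by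
  have e : (fun y : E n => φ y.ofLp) = φ ∘ (EuclideanSpace.equiv (Fin n) ℝ) := rfl
  refine ⟨⟨?_, ?_, ?_⟩, fun α y => ?_⟩
  · rw [e]
    exact h1.comp (EuclideanSpace.equiv (Fin n) ℝ).contDiff
  · exact h2.comp_homeomorph (EuclideanSpace.equiv (Fin n) ℝ).toHomeomorph
  · intro y hy
    exact h3 ((Set.ext_iff.mp
      (tsupport_comp_eq_preimage φ (EuclideanSpace.equiv (Fin n) ℝ).toHomeomorph) y).mp hy)
  · rw [pd, e, ContinuousLinearEquiv.comp_right_fderiv]
    rfl

end Pool.Agent.Lib.MP_a785f2_an.HS
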